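import Pool.Agent.H654.Compat

/-!
Assembly of the main lemma from the requirements (subtask F of helper654).
-/

namespace Pool.Agent.H654

open Encodable

variable {Kst : ℕ → ℕ → Prop} {r : ℕ → ℕ → Prop} {N : Set (Set ℕ)} {Q : Set ℕ} {W : ℕ → Prop}

namespace AsmF

/-- the limit relation of a sequence of conditions -/
def L (s : ℕ → BC Kst r N Q W) (x y : ℕ) : Prop :=
  x ∈ Q ∧ y ∈ Q ∧ ∃ n, ¬ (x ∈ (s n).O ∧ y ∈ (s n).O) ∧ (s n).lp x y

theorem L_iff {s : ℕ → BC Kst r N Q W} (hs : Monotone s) (n : ℕ) {x y : ℕ} (hx : x ∈ Q)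
    (hy : y ∈ Q) (h : ¬ (x ∈ (s n).O ∧ y ∈ (s n).O)) : L s x y ↔ (s n).lp x y := by
  constructor
  · rintro ⟨_, _, m, hm, hl⟩
    have h1 := ((hs (le_max_left n m)).2.2.2 x hx y hy h)
    have h2 := ((hs (le_max_right n m)).2.2.2 x hx y hy hm)
    exact h1.1 (h2.2 hl)
  · intro hl
    exact ⟨hx, hy, n, h, hl⟩

theorem mem_of_not_O (p : BC Kst r N Q W) {x : ℕ} (hx : x ∈ Q) (h : x ∉ p.O) :
    x ∈ p.C ∪ p.U := by
  by_contra hcon
  simp only [Set.mem_union, not_or] at hcon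
  exact h ⟨hx, hcon.1, hcon.2⟩

theorem L_lin {s : ℕ → BC Kst r N Q W} (hs : Monotone s)
    (hout : ∀ x ∈ Q, ∃ n, x ∉ (s n).O) : LinExt r Q (L s) := by
  have up : ∀ {n m x}, n ≤ m → x ∉ (s n).O → x ∉ (s m).O := fun h hx hx' =>
    hx (BC.le_O (hs h) hx')
  refine ⟨?_, ?_, ?_, ?_⟩
  · intro x hx
    obtain ⟨n, hn⟩ := hout x hx
    rw [L_iff hs n hx hx (fun h => hn h.1)]
    exact (s n).lin.irrefl x (mem_of_not_O _ hx hn)
  · intro x hx y hy z hz
    obtain ⟨n1, hn1⟩ := hout x hx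
    obtain ⟨n2, hn2⟩ := hout y hy
    obtain ⟨n3, hn3⟩ := hout z hz
    have h1 := up (le_max_left n1 (max n2 n3)) hn1
    have h2 := up ((le_max_left n2 n3).trans (le_max_right n1 (max n2 n3))) hn2
    have h3 := up ((le_max_right n2 n3).trans (le_max_right n1 (max n2 n3))) hn3
    rw [L_iff hs _ hx hy (fun h => h1 h.1), L_iff hs _ hy hz (fun h => h2 h.1),
      L_iff hs _ hx hz (fun h => h1 h.1)]
    exact (s _).lin.trans x (mem_of_not_O _ hx h1) y (mem_of_not_O _ hy h2) z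
      (mem_of_not_O _ hz h3)
  · intro x hx y hy
    obtain ⟨n1, hn1⟩ := hout x hx
    obtain ⟨n2, hn2⟩ := hout y hy
    have h1 := up (le_max_left n1 n2) hn1
    have h2 := up (le_max_right n1 n2) hn2
    rw [L_iff hs _ hx hy (fun h => h1 h.1), L_iff hs _ hy hx (fun h => h1 h.2)]
    exact (s _).lin.total x (mem_of_not_O _ hx h1) y (mem_of_not_O _ hy h2)
  · intro x hx y hy
    obtain ⟨n1, hn1⟩ := hout x hx
    obtain ⟨n2, hn2⟩ := hout y hy
    have h1 := up (le_max_left n1 n2) hn1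
    have h2 := up (le_max_right n1 n2) hn2
    rw [L_iff hs _ hx hy (fun h => h1 h.1)]
    exact (s _).lin.ext x (mem_of_not_O _ hx h1) y (mem_of_not_O _ hy h2)

open Classical in
/-- the characteristic function of the limit relation -/
noncomputable def G (s : ℕ → BC Kst r N Q W) (n : ℕ) : Bool :=
  decide (L s n.unpair.1 n.unpair.2)

theorem G_pair (s : ℕ → BC Kst r N Q W) (x y : ℕ) : G s (Nat.pair x y) = true ↔ L s x y := by
  classical
  unfold G
  rw [Nat.unpair_pair]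
  simp

theorem pair_lt {x y m : ℕ} (hx : x < m) (hy : y < m) : Nat.pair x y < m * m := by
  have h1 := Nat.pair_lt_max_add_one_sq x y
  have h2 : max x y + 1 ≤ m := Nat.succ_le_of_lt (max_lt hx hy)
  calc Nat.pair x y < (max x y + 1) ^ 2 := h1
    _ ≤ m ^ 2 := Nat.pow_le_pow_left h2 2
    _ = m * m := by ring

theorem rel_pfx (s : ℕ → BC Kst r N Q W) {x y m : ℕ} (hx : x < m) (hy : y < m) :
    rel (pfx (G s) (m * m)) x y ↔ L s x y := by
  unfold rel
  rw [pfx_getI _ _ _ (pair_lt hx hy), G_pair]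

theorem compat_pfx {s : ℕ → BC Kst r N Q W} (hs : Monotone s)
    (hout : ∀ x ∈ Q, ∃ n, x ∉ (s n).O) (n m : ℕ) : Compat (s n) m (pfx (G s) (m * m)) := by
  have hl := L_lin hs hout
  refine ⟨by simp, ?_, ⟨?_, ?_, ?_, ?_⟩, ?_⟩
  · intro x hx y hy h
    rw [rel_pfx s hx hy] at h
    exact ⟨h.1, h.2.1⟩
  · intro x hx h
    rw [rel_pfx s hx.2 hx.2] at h
    exact hl.irrefl x hx.1 h
  · intro x hx y hy z hz h h'
    rw [rel_pfx s hx.2 hy.2] at h
    rw [rel_pfx s hy.2 hz.2] at h'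
    rw [rel_pfx s hx.2 hz.2]
    exact hl.trans x hx.1 y hy.1 z hz.1 h h'
  · intro x hx y hy hxy
    rw [rel_pfx s hx.2 hy.2, rel_pfx s hy.2 hx.2]
    exact hl.total x hx.1 y hy.1 hxy
  · intro x hx y hy hxy
    rw [rel_pfx s hx.2 hy.2]
    exact hl.ext x hx.1 y hy.1 hxy
  · intro x hx y hy hxQ hyQ hO
    rw [rel_pfx s hx hy]
    exact L_iff hs n hxQ hyQ hO

end AsmF

open AsmF

theorem assembly (hr : PO N r)
    (hC : ∀ S, Ideal S → S.Countable → Av Kst S → ∃ S', Good Kst S' ∧ S ⊆ S')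
    {A : ℕ → ℕ → Prop} (hA : Dec N (fun x : ℕ × ℕ => A x.1 x.2))
    (hA2 : ∀ k x, KK Kst k → A k x → W x)
    (R1 : ∀ (p : BC Kst r N Q W), ∀ x ∈ Q, ∃ p' : BC Kst r N Q W, p ≤ p' ∧ x ∉ p'.O)
    (R2 : ∀ (p : BC Kst r N Q W) (k : ℕ), ¬ KK Kst k →
      ∃ p' : BC Kst r N Q W, p ≤ p' ∧ ∀ x ∈ p'.O, A k x)
    (R3 : ∀ (p : BC Kst r N Q W), ∀ X ∈ p.I, ∃ p' : BC Kst r N Q W, p ≤ p' ∧ Met X p') :
    Sol Kst r N Q := by
  intro N' hg hsub
  let p0 : BC Kst r N Q W :=
    { I := N', C := ∅, U := ∅, LC := fun _ _ => False, LU := fun _ _ => False,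
      good := hg, sub := hsub, hC := hg.ideal.empty, hU := hg.ideal.empty,
      dC := Dec.const hg.ideal False, dU := Dec.const hg.ideal False,
      CQ := Set.empty_subset _, UQ := Set.empty_subset _,
      down := fun x hx => hx.elim, up := fun x hx => hx.elim, disj := fun x hx => hx.elim,
      UW := fun x hx => hx.elim, lC := linExt_empty _, lU := linExt_empty _,
      cC := codes_empty _ _, cU := codes_empty _ _ }
  let Task : BC Kst r N Q W → Set (ℕ ⊕ ℕ ⊕ Set ℕ) := fun p =>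
    Set.range Sum.inl ∪ Set.range (fun k => Sum.inr (Sum.inl k)) ∪
      (fun X => Sum.inr (Sum.inr X)) '' p.I
  let Done : (ℕ ⊕ ℕ ⊕ Set ℕ) → BC Kst r N Q W → Prop := fun t p =>
    Sum.elim (fun x => x ∈ Q → x ∉ p.O)
      (Sum.elim (fun k => ¬ KK Kst k → ∀ x ∈ p.O, A k x) (fun X => Met X p)) t
  have hc : ∀ p, (Task p).Countable := fun p =>
    ((Set.countable_range _).union (Set.countable_range _)).union (p.good.countable.image _)
  have hm : Monotone Task := fun p q hpq =>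
    Set.union_subset_union_right _ (Set.image_mono hpq.1)
  have hstep : ∀ p, ∀ t ∈ Task p, ∃ p', p ≤ p' ∧ Done t p' := by
    rintro p t ((⟨x, rfl⟩ | ⟨k, rfl⟩) | ⟨X, hX, rfl⟩)
    · by_cases hx : x ∈ Q
      · obtain ⟨p', h1, h2⟩ := R1 p x hx
        exact ⟨p', h1, fun _ => h2⟩
      · exact ⟨p, le_rfl, fun h => absurd h hx⟩
    · by_cases hk : KK Kst k
      · exact ⟨p, le_rfl, fun h => absurd hk h⟩
      · obtain ⟨p', h1, h2⟩ := R2 p k hk
        exact ⟨p', h1, fun _ => h2⟩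
    · exact R3 p X hX
  obtain ⟨s, hs0, hs, hdone⟩ := sched Task hc hm Done hstep p0
  have hout : ∀ x ∈ Q, ∃ n, x ∉ (s n).O := by
    intro x hx
    obtain ⟨m, -, h⟩ := hdone 0 (Sum.inl x) (Or.inl (Or.inl ⟨x, rfl⟩))
    exact ⟨m, h hx⟩
  let T : ℕ → Set (Set ℕ) := fun n => (s n).I
  have hT : Monotone T := fun n m h => (hs h).1
  have sub : ∀ n, T n ⊆ ⋃ n, T n := fun n => Set.subset_iUnion T n
  have hJ : Ideal (⋃ n, T n) := ideal_iUnion (fun n => (s n).good.ideal) hT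
  have hJc : (⋃ n, T n).Countable := Set.countable_iUnion fun n => (s n).good.countable
  have hl := L_lin hs hout
  -- the complement of the enumerated set is avoided
  have hav : ¬ SigO (⋃ n, T n) (G s) (fun k : ℕ => ¬ KK Kst k) := by
    rintro ⟨q, hq, h⟩
    obtain ⟨n, X, hX, hXq⟩ := dec_iUnion hq
    obtain ⟨m, -, hmet⟩ := hdone n (Sum.inr (Sum.inr X)) (Or.inr ⟨X, hX, rfl⟩)
    have hqX : ∀ k t, (encode ((k, t) : ℕ × List Bool) ∈ X) ↔ q k t := fun k t => hXq (k, t)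
    rcases (hmet : Met X (s m)) with ⟨k, hk, m', hm'⟩ | ⟨k, hk, hm'⟩
    · have h1 := hm' _ (compat_pfx hs hout m m')
      obtain ⟨n', hn'⟩ := monoCl_pfx.1 ⟨_, h1⟩
      exact ((h k).2 ⟨n', (hqX _ _).1 hn'⟩) hk
    · obtain ⟨n', hn'⟩ := (h k).1 hk
      have h2 : monoCl (fun (k : ℕ) (s : List Bool) => encode (k, s) ∈ X) k (pfx (G s) n') :=
        ⟨n', by simp, by
          rw [pfx_take _ _ _ le_rfl]
          exact (hqX _ _).2 hn'⟩
      exact hm' n' _ (compat_pfx hs hout m n')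
        (monoCl_mono (pfx_prefix _ (Nat.le_mul_self n')) h2)
  obtain ⟨N'', hN'', hext⟩ := hC (ext (⋃ n, T n) (G s)) (ideal_ext hJ _) (countable_ext hJc _)
    (fun h => hav (sigO_of_sig_ext hJ h))
  have hTN : ∀ n, T n ⊆ N'' := fun n => (sub n).trans ((subset_ext hJ (G s)).trans hext)
  refine ⟨N'', hN'', ?_, L s, ?_, hl, ?_⟩
  · have : N' = T 0 := by
      show N' = (s 0).I
      rw [hs0]
    rw [this]
    exact hTN 0
  · have h1 := dec_graph_ext hJ (G s)
    have h2 : Primrec (fun x : ℕ × ℕ => (Nat.pair x.1 x.2, true)) :=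
      (Primrec₂.natPair.comp Primrec.fst Primrec.snd).pair (Primrec.const true)
    exact ((h1.comp (ideal_ext hJ _) h2).congr fun x => G_pair s x.1 x.2).mono hext
  · intro D hD
    have hDQ := hD.1
    have hDL := hD.2
    by_cases ha : ∃ n i, D i ∈ (s n).C
    · obtain ⟨n, i, hi⟩ := ha
      have key : ∀ x y, x ∈ Q → y ∈ (s n).C → L s x y → x ∈ (s n).C ∧ (s n).LC x y := by
        intro x y hx hy hxy
        rw [L_iff hs n hx ((s n).CQ hy) (fun h => h.2.2.1 hy)] at hxy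
        rcases hxy with ⟨h1, _, h2⟩ | ⟨_, h1⟩ | ⟨_, _, h1⟩ | ⟨_, h1, _⟩
        · exact ⟨h1, h2⟩
        · exact absurd hy h1
        · exact absurd h1 ((s n).disj y hy)
        · exact absurd h1 ((s n).disj y hy)
      have hall : ∀ j, D (i + j) ∈ (s n).C := by
        intro j
        induction j with
        | zero => exact hi
        | succ j ih => exact (key _ _ (hDQ _) ih (hDL (i + j))).1
      have h1 : Desc (s n).C (s n).LC (fun j => D (i + j)) :=
        ⟨hall, fun j => (key _ _ (hDQ _) (hall j) (hDL (i + j))).2⟩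
      exact (SigO.of_tail (s n).good.ideal ((s n).cC _ h1)).mono (hTN n)
    · push Not at ha
      by_cases hb : ∃ n, ∀ i, D i ∈ (s n).U
      · obtain ⟨n, hn⟩ := hb
        have h1 : Desc (s n).U (s n).LU D := by
          refine ⟨hn, fun i => ?_⟩
          have h2 := hDL i
          rw [L_iff hs n (hDQ _) (hDQ _) (fun h => h.2.2.2 (hn i))] at h2
          rcases h2 with ⟨h3, _⟩ | ⟨h3, _⟩ | ⟨_, h3, _⟩ | ⟨_, _, h3⟩
          · exact absurd h3 (ha n _)
          · exact absurd h3 (ha n _)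
          · exact absurd (hn (i + 1)) h3
          · exact h3
        exact ((s n).cU _ h1).mono (hTN n)
      · push Not at hb
        have hiff : ∀ k, ¬ KK Kst k ↔ ∃ i, A k (D i) := by
          intro k
          constructor
          · intro hk
            obtain ⟨m, -, hm'⟩ := hdone 0 (Sum.inr (Sum.inl k)) (Or.inl (Or.inr ⟨k, rfl⟩))
            obtain ⟨i, hi⟩ := hb m
            exact ⟨i, hm' hk (D i) ⟨hDQ i, ha m i, hi⟩⟩
          · rintro ⟨i, hi⟩ hk
            obtain ⟨n, hn⟩ := hout (D i) (hDQ i)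
            have h1 : D i ∈ (s n).U := (mem_of_not_O (s n) (hDQ i) hn).resolve_left (ha n i)
            exact (s n).UW _ h1 (hA2 k _ hk hi)
        have hAN : Dec N'' (fun x : ℕ × ℕ => A x.1 x.2) :=
          hA.mono ((s 0).sub.trans (hTN 0))
        refine ⟨fun k t => ∃ a ∈ t, A k a, ?_, ?_⟩
        · exact Dec.bexList hN''.ideal (p := fun (x : ℕ × List ℕ) a => A x.1 a)
            (l := fun x : ℕ × List ℕ => x.2) Primrec.snd
            (hAN.comp₂ hN''.ideal (p := fun k a => A k a) (Primrec.fst.comp Primrec.fst)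
              Primrec.snd)
        · intro k
          refine (hiff k).trans ?_
          show (∃ i, A k (D i)) ↔ ∃ n, ∃ a ∈ pfx D n, A k a
          constructor
          · rintro ⟨i, hi⟩
            refine ⟨i + 1, D i, ?_, hi⟩
            rw [pfx_succ]
            simp
          · rintro ⟨n, a, han, hak⟩
            unfold pfx at han
            obtain ⟨i, _, rfl⟩ := List.mem_map.1 han
            exact ⟨i, hak⟩

end Pool.Agent.H654
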