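import Pool.Agent.H654.Good

/-!
The base ideal: the computable sets avoid the complement of the halting set (subtask B of
helper654).
-/

namespace Pool.Agent.H654

open Encodable

namespace BaseB

open Nat.Partrec (Code)
open Nat.Partrec.Code

/-- the computable sets -/
def S0 : Set (Set ℕ) := {X | ComputablePred (fun n : ℕ => n ∈ X)}

theorem mem_S0 {X : Set ℕ} : X ∈ S0 ↔ ∃ f : ℕ → Bool, Computable f ∧ ∀ n, n ∈ X ↔ f n = true := by
  constructor
  · intro h
    obtain ⟨f, hf, e⟩ := ComputablePred.computable_iff.1 h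
    exact ⟨f, hf, fun n => iff_of_eq (congrFun e n)⟩
  · rintro ⟨f, hf, e⟩
    exact ComputablePred.computable_iff.2 ⟨f, hf, funext fun n => propext (e n)⟩

theorem re_ex {α : Type} [Primcodable α] {f : α → ℕ → Bool} (hf : Computable₂ f) :
    REPred (fun a => ∃ n, f a n = true) := by
  have h : Partrec (fun a => Nat.rfind fun n => Part.some (f a n)) := Partrec.rfind hf.partrec₂
  refine h.dom_re.of_eq fun a => ?_
  rw [Nat.rfind_dom]
  constructor
  · rintro ⟨n, hn, _⟩
    exact ⟨n, (Part.mem_some_iff.1 hn).symm⟩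
  · rintro ⟨n, hn⟩
    exact ⟨n, Part.mem_some_iff.2 hn.symm, fun _ => trivial⟩

theorem ideal_S0 : Ideal S0 := by
  refine ⟨?_, ?_, ?_, ?_, ?_, ?_⟩
  · intro p hp
    exact hp.computablePred
  · intro X hX
    exact (ComputablePred.not hX)
  · intro X hX Y hY
    rw [mem_S0] at *
    obtain ⟨f, hf, e⟩ := hX
    obtain ⟨g, hg, e'⟩ := hY
    refine ⟨fun n => f n && g n, Primrec.and.to_comp.comp hf hg, fun n => ?_⟩
    rw [Set.mem_inter_iff, e, e', Bool.and_eq_true]
  · intro X hX f hf
    rw [mem_S0] at *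
    obtain ⟨g, hg, e⟩ := hX
    exact ⟨fun n => g (f n), hg.comp hf.to_comp, fun n => e (f n)⟩
  · intro X hX
    rw [mem_S0] at *
    obtain ⟨f, hf, e⟩ := hX
    have h1 : Computable (fun n : ℕ => n.unpair.2) :=
      (Primrec.snd.comp Primrec.unpair).to_comp
    have h2 : Computable₂ (fun (n : ℕ) (y : ℕ × Bool) => y.2 && f (Nat.pair n.unpair.1 y.1)) := by
      have h3 : Computable (fun x : ℕ × (ℕ × Bool) => Nat.pair x.1.unpair.1 x.2.1) :=
        (Primrec₂.natPair.comp (Primrec.fst.comp (Primrec.unpair.comp Primrec.fst))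
          (Primrec.fst.comp Primrec.snd)).to_comp
      have h4 : Computable (fun x : ℕ × (ℕ × Bool) => x.2.2) :=
        (Primrec.snd.comp Primrec.snd).to_comp
      exact Primrec.and.to_comp.comp h4 (hf.comp h3)
    refine ⟨_, Computable.nat_rec h1 (Computable.const true) h2, fun n => ?_⟩
    have key : ∀ k : ℕ, (∀ m < k, Nat.pair n.unpair.1 m ∈ X) ↔
        (Nat.rec true (fun y IH => IH && f (Nat.pair n.unpair.1 y)) k : Bool) = true := by
      intro k
      induction k with
      | zero => simp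
      | succ k ih =>
        simp only [Bool.and_eq_true]
        rw [← ih, ← e]
        constructor
        · intro h
          exact ⟨fun m hm => h m (by omega), h k (by omega)⟩
        · rintro ⟨h5, h6⟩ m hm
          rcases Nat.lt_succ_iff_lt_or_eq.1 hm with h | rfl
          · exact h5 m h
          · exact h6
    exact key n.unpair.2
  · intro X hX Y hY hXY
    rw [mem_S0] at hX hY
    obtain ⟨f, hf, e⟩ := hX
    obtain ⟨g, hg, e'⟩ := hY
    refine ComputablePred.computable_iff_re_compl_re'.2 ⟨?_, ?_⟩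
    · refine (re_ex (f := fun n m : ℕ => f (Nat.pair n m))
        (hf.comp Primrec₂.natPair.to_comp)).of_eq fun n => ?_
      exact exists_congr fun m => (e _).symm
    · refine (re_ex (f := fun n m : ℕ => g (Nat.pair n m))
        (hg.comp Primrec₂.natPair.to_comp)).of_eq fun n => ?_
      rw [Set.mem_ofPred_eq, hXY n, not_not]
      exact exists_congr fun m => (e' _).symm

theorem countable_S0 : S0.Countable := by
  refine (Set.countable_range (fun c : Code => {n : ℕ | 1 ∈ eval c n})).mono ?_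
  intro X hX
  obtain ⟨f, hf, e⟩ := mem_S0.1 hX
  have h1 : Computable (fun n => encode (f n)) := Computable.encode.comp hf
  obtain ⟨c, hc⟩ := exists_code.1 (Partrec.nat_iff.1 h1.partrec)
  refine ⟨c, ?_⟩
  ext n
  rw [Set.mem_ofPred_eq, hc, e]
  change 1 ∈ Part.some (encode (f n)) ↔ _
  rw [Part.mem_some_iff]
  cases f n <;> simp

/-- the enumeration of the halting set -/
def H (s k : ℕ) : Prop := (evaln s (Denumerable.ofNat Code k) 0).isSome = true

theorem enum_H : Enum H := by
  refine ⟨?_, ?_⟩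
  · have h : Primrec (fun x : ℕ × ℕ => (evaln x.1 (Denumerable.ofNat Code x.2) 0).isSome) :=
      Primrec.option_isSome.comp (primrec_evaln.comp
        ((Primrec.fst.pair ((Primrec.ofNat Code).comp Primrec.snd)).pair (Primrec.const 0)))
    exact Primrec.eq.comp h (Primrec.const true)
  · intro s t k hst hs
    unfold H at *
    rw [Option.isSome_iff_exists] at *
    obtain ⟨a, ha⟩ := hs
    exact ⟨a, evaln_mono hst ha⟩

theorem KK_H (c : Code) : KK H (encode c) ↔ (eval c 0).Dom := by
  unfold KK H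
  rw [Part.dom_iff_mem]
  simp only [Denumerable.ofNat_encode, Option.isSome_iff_exists]
  constructor
  · rintro ⟨s, a, ha⟩
    exact ⟨a, evaln_sound ha⟩
  · rintro ⟨a, ha⟩
    obtain ⟨s, hs⟩ := evaln_complete.1 ha
    exact ⟨s, a, hs⟩

theorem av_H : Av H S0 := by
  rintro ⟨q, ⟨X, hX, hXq⟩, h⟩
  obtain ⟨f, hf, e⟩ := mem_S0.1 hX
  have h1 : REPred (fun k : ℕ => ∃ n : ℕ, f (encode ((k, n) : ℕ × ℕ)) = true) :=
    re_ex (f := fun k n : ℕ => f (encode ((k, n) : ℕ × ℕ)))
      (hf.comp Computable.encode)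
  have h2 : REPred (fun c : Code => ∃ n : ℕ, f (encode ((encode c, n) : ℕ × ℕ)) = true) :=
    Partrec.comp h1 Computable.encode
  refine ComputablePred.halting_problem_not_re 0 (h2.of_eq fun c => ?_)
  rw [← KK_H]
  refine Iff.trans ?_ (h (encode c)).symm
  exact exists_congr fun n => ((e _).symm.trans (hXq (encode c, n)))

end BaseB

theorem exists_base : ∃ Kst : ℕ → ℕ → Prop, Enum Kst ∧
    ∃ S : Set (Set ℕ), Ideal S ∧ S.Countable ∧ Av Kst S :=
  ⟨BaseB.H, BaseB.enum_H, BaseB.S0, BaseB.ideal_S0, BaseB.countable_S0, BaseB.av_H⟩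

end Pool.Agent.H654
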