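import Mathlib

/-!
A bookkeeping lemma for forcing constructions with countably many requirements at each
condition.
-/

namespace Pool.Agent.H654

/-- Every requirement appearing along the construction is met later on. -/
theorem sched {P : Type*} [Preorder P] {τ : Type*} (Task : P → Set τ)
    (hc : ∀ p, (Task p).Countable) (hm : Monotone Task) (Done : τ → P → Prop)
    (hstep : ∀ p, ∀ t ∈ Task p, ∃ p', p ≤ p' ∧ Done t p') (p0 : P) :
    ∃ s : ℕ → P, s 0 = p0 ∧ Monotone s ∧ ∀ n, ∀ t ∈ Task (s n), ∃ m, n ≤ m ∧ Done t (s m) := by
  classical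
  have he : ∀ p, ∃ e : ℕ → Option τ, ∀ t ∈ Task p, ∃ j, e j = some t := by
    intro p
    obtain ⟨f, hf⟩ := Set.countable_iff_exists_injOn.1 (hc p)
    refine ⟨fun j => if h : ∃ t ∈ Task p, f t = j then some h.choose else none, ?_⟩
    intro t ht
    have h : ∃ u ∈ Task p, f u = f t := ⟨t, ht, rfl⟩
    refine ⟨f t, ?_⟩
    show (if h : ∃ u ∈ Task p, f u = f t then some h.choose else none) = some t
    rw [dif_pos h]
    exact congrArg some (hf h.choose_spec.1 ht h.choose_spec.2)
  choose e he using he
  let next : P → Option τ → P := fun p o => o.elim p fun t =>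
    if h : t ∈ Task p then (hstep p t h).choose else p
  have next_le : ∀ p o, p ≤ next p o := by
    intro p o
    cases o with
    | none => exact le_rfl
    | some t =>
      show p ≤ (if h : t ∈ Task p then (hstep p t h).choose else p)
      split_ifs with h
      · exact (hstep p t h).choose_spec.1
      · exact le_rfl
  have next_done : ∀ p t, t ∈ Task p → Done t (next p (some t)) := by
    intro p t h
    show Done t (if h : t ∈ Task p then (hstep p t h).choose else p)
    rw [dif_pos h]
    exact (hstep p t h).choose_spec.2
  let G : ℕ → ℕ → P := fun n => Nat.rec (fun _ => p0)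
    (fun n g => Function.update g (n + 1) (next (g n) (e (g n.unpair.1) n.unpair.2))) n
  have G_succ : ∀ n, G (n + 1) = Function.update (G n) (n + 1)
      (next (G n n) (e (G n n.unpair.1) n.unpair.2)) := fun n => rfl
  have G_eq : ∀ n i, i ≤ n → G n i = G i i := by
    intro n
    induction n with
    | zero => intro i hi; obtain rfl : i = 0 := by omega
              rfl
    | succ n ih =>
      intro i hi
      rcases Nat.lt_or_ge n i with h | h
      · obtain rfl : i = n + 1 := by omega
        rfl
      · rw [G_succ, Function.update_of_ne (by omega), ih i h]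
  have s_succ : ∀ n, G (n + 1) (n + 1) = next (G n n) (e (G n.unpair.1 n.unpair.1) n.unpair.2) := by
    intro n
    rw [G_succ, Function.update_self, G_eq n n.unpair.1 (Nat.unpair_left_le n)]
  have hmono : Monotone fun n => G n n := monotone_nat_of_le_succ fun n => by
    show G n n ≤ G (n + 1) (n + 1)
    rw [s_succ]
    exact next_le _ _
  refine ⟨fun n => G n n, rfl, hmono, ?_⟩
  intro n t ht
  obtain ⟨j, hj⟩ := he _ t ht
  refine ⟨Nat.pair n j + 1, (Nat.left_le_pair n j).trans (Nat.le_succ _), ?_⟩
  show Done t (G (Nat.pair n j + 1) (Nat.pair n j + 1))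
  rw [s_succ, Nat.unpair_pair]
  simp only
  rw [hj]
  exact next_done _ _ (hm (hmono (Nat.left_le_pair n j)) ht)

end Pool.Agent.H654
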