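import Pool.Agent.H654.Good
import Pool.Agent.H654.Sched

/-!
Cone avoidance for trees, and the closure of an ideal under paths of trees (subtask C for helper654).
-/

set_option autoImplicit false

namespace Pool.Agent.H654

open Encodable

namespace ScottC

/-- The paths of a predicate of strings. -/
def paths (T : List Bool → Prop) : Set (ℕ → Bool) := {Z | ∀ n, T (pfx Z n)}

theorem pfx_ofFn (Z : ℕ → Bool) (m : ℕ) : pfx Z m = List.ofFn (fun i : Fin m => Z i) := by
  apply List.ext_getElem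
  · simp
  · intro i h1 h2
    rw [pfx_getElem, List.getElem_ofFn]

theorem isClosed_cyl (T : List Bool → Prop) (m : ℕ) : IsClosed {Z : ℕ → Bool | T (pfx Z m)} := by
  have h1 : {Z : ℕ → Bool | T (pfx Z m)} =
      (fun (Z : ℕ → Bool) (i : Fin m) => Z i) ⁻¹' {v : Fin m → Bool | T (List.ofFn v)} := by
    ext Z
    show T (pfx Z m) ↔ T (List.ofFn (fun i : Fin m => Z i))
    rw [pfx_ofFn]
  rw [h1]
  apply (isClosed_discrete _).preimage
  exact continuous_pi fun i => continuous_apply _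

theorem isClosed_paths (T : List Bool → Prop) : IsClosed (paths T) := by
  have h1 : paths T = ⋂ n, {Z : ℕ → Bool | T (pfx Z n)} := by
    ext Z
    simp [paths]
  rw [h1]
  exact isClosed_iInter fun n => isClosed_cyl T n

/-- A path from a string. -/
def pad (τ : List Bool) : ℕ → Bool := fun i => τ.getI i

theorem pfx_pad (τ : List Bool) (m : ℕ) (h : m ≤ τ.length) : pfx (pad τ) m = τ.take m := by
  apply List.ext_getElem
  · simp [h]
  · intro i h1 h2
    rw [pfx_getElem, List.getElem_take]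
    rw [pfx_length] at h1
    exact List.getI_eq_getElem _ (by omega)

/-- König's lemma. -/
theorem exists_path_iff (T : List Bool → Prop) : (∃ Z : ℕ → Bool, ∀ n, T (pfx Z n)) ↔
    ∀ n, ∃ τ : List Bool, τ.length = n ∧ ∀ m < n + 1, T (τ.take m) := by
  constructor
  · rintro ⟨Z, hZ⟩ n
    refine ⟨pfx Z n, by simp, fun m hm => ?_⟩
    rw [pfx_take _ _ _ (by omega)]
    exact hZ m
  · intro h
    have hne : (⋂ n, {Z : ℕ → Bool | ∀ m < n + 1, T (pfx Z m)}).Nonempty := by
      apply IsCompact.nonempty_iInter_of_sequence_nonempty_isCompact_isClosed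
      · intro n Z hZ m hm
        exact hZ m (by omega)
      · intro n
        obtain ⟨τ, h1, h2⟩ := h n
        refine ⟨pad τ, fun m hm => ?_⟩
        rw [pfx_pad _ _ (by omega)]
        exact h2 m hm
      · apply IsClosed.isCompact
        have h1 : {Z : ℕ → Bool | ∀ m < 0 + 1, T (pfx Z m)} =
            ⋂ m, ⋂ (_ : m < 0 + 1), {Z : ℕ → Bool | T (pfx Z m)} := by
          ext Z; simp
        rw [h1]
        exact isClosed_iInter fun m => isClosed_iInter fun _ => isClosed_cyl T m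
      · intro n
        have h1 : {Z : ℕ → Bool | ∀ m < n + 1, T (pfx Z m)} =
            ⋂ m, ⋂ (_ : m < n + 1), {Z : ℕ → Bool | T (pfx Z m)} := by
          ext Z; simp
        rw [h1]
        exact isClosed_iInter fun m => isClosed_iInter fun _ => isClosed_cyl T m
    obtain ⟨Z, hZ⟩ := hne
    refine ⟨Z, fun n => ?_⟩
    exact Set.mem_iInter.1 hZ n n (Nat.lt_succ_self n)

/-- All strings of length `n`. -/
def allStr : ℕ → List (List Bool)
  | 0 => [[]]
  | n + 1 => (allStr n).flatMap fun l => [l ++ [true], l ++ [false]]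

theorem mem_allStr (n : ℕ) (τ : List Bool) : τ ∈ allStr n ↔ τ.length = n := by
  induction n generalizing τ with
  | zero => simp [allStr]
  | succ n ih =>
    simp only [allStr, List.mem_flatMap, List.mem_cons, List.not_mem_nil, or_false]
    constructor
    · rintro ⟨l, hl, rfl | rfl⟩
      · rw [List.length_append, (ih l).1 hl]; rfl
      · rw [List.length_append, (ih l).1 hl]; rfl
    · intro h
      have hne : τ ≠ [] := by rintro rfl; simp at h
      refine ⟨τ.dropLast, (ih _).2 (by rw [List.length_dropLast, h]; rfl), ?_⟩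
      have h1 := List.dropLast_append_getLast hne
      cases hb : τ.getLast hne
      · right; rw [← hb, h1]
      · left; rw [← hb, h1]

theorem primrec_allStr : Primrec allStr := by
  have h : Primrec (fun n : ℕ => Nat.rec (motive := fun _ => List (List Bool)) [[]]
      (fun _ l => l.flatMap fun l => [l ++ [true], l ++ [false]]) n) := by
    refine Primrec.nat_rec₁ _ ?_
    have h1 : Primrec₂ (fun (x : ℕ × List (List Bool)) (l : List Bool) =>
        [l ++ [true], l ++ [false]]) := by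
      have h2 : ∀ b : Bool, Primrec (fun y : (ℕ × List (List Bool)) × List Bool => y.2 ++ [b]) :=
        fun b => Primrec.list_append.comp Primrec.snd (Primrec.const [b])
      exact Primrec.list_cons.comp (h2 true) (Primrec.list_cons.comp (h2 false) (Primrec.const []))
    exact Primrec.list_flatMap Primrec.snd h1
  refine h.of_eq fun n => ?_
  induction n with
  | zero => rfl
  | succ n ih =>
    show List.flatMap _ _ = List.flatMap _ _
    rw [ih]

variable {α : Type} [Primcodable α] {S : Set (Set ℕ)}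

/-- Emptiness is semidecidable. -/
theorem sig_empty (hS : Ideal S) {T : α × List Bool → Prop} (hT : Dec S T) :
    Sig S (fun a => ¬ ∃ Z : ℕ → Bool, ∀ n, T (a, pfx Z n)) := by
  have h1 : Dec S (fun y : ((α × ℕ) × List Bool) × ℕ => ¬ T (y.1.1.1, y.1.2.take y.2)) := by
    refine Dec.not hS (hT.comp hS (f := fun y : ((α × ℕ) × List Bool) × ℕ =>
      (y.1.1.1, y.1.2.take y.2)) ?_)
    exact Primrec.pair (Primrec.fst.comp (Primrec.fst.comp Primrec.fst))
      (Primrec.list_take.comp Primrec.snd (Primrec.snd.comp Primrec.fst))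
  have h2 : Dec S (fun y : (α × ℕ) × List Bool => ∃ m < y.1.2 + 1, ¬ T (y.1.1, y.2.take m)) :=
    Dec.bex hS (p := fun (y : (α × ℕ) × List Bool) m => ¬ T (y.1.1, y.2.take m))
      (Primrec.succ.comp (Primrec.snd.comp Primrec.fst)) h1
  have h3 : Dec S (fun x : α × ℕ => ∀ τ ∈ allStr x.2, ∃ m < x.2 + 1, ¬ T (x.1, τ.take m)) :=
    Dec.ballList hS (p := fun (x : α × ℕ) (τ : List Bool) => ∃ m < x.2 + 1, ¬ T (x.1, τ.take m))
      (primrec_allStr.comp Primrec.snd) h2
  refine ⟨fun a n => ∀ τ ∈ allStr n, ∃ m < n + 1, ¬ T (a, τ.take m), h3, fun a => ?_⟩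
  show (¬ ∃ Z : ℕ → Bool, ∀ n, T (a, pfx Z n)) ↔
    ∃ n, ∀ τ ∈ allStr n, ∃ m < n + 1, ¬ T (a, τ.take m)
  rw [exists_path_iff (fun τ => T (a, τ))]
  push Not
  refine exists_congr fun n => ?_
  constructor
  · intro h τ hτ
    exact h τ ((mem_allStr n τ).1 hτ)
  · intro h τ hτ
    exact h τ ((mem_allStr n τ).2 hτ)

variable {Kst : ℕ → ℕ → Prop}

/-- The key step of cone avoidance. -/
theorem key (hS : Ideal S) (ha : Av Kst S) {U : ℕ × List Bool → Prop} (hU : Dec S U)
    (h : ∀ k, KK Kst k → ∃ Z : ℕ → Bool, ∀ n, U (k, pfx Z n)) :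
    ∃ k, ¬ KK Kst k ∧ ∃ Z : ℕ → Bool, ∀ n, U (k, pfx Z n) := by
  by_contra hcon
  apply ha
  refine (sig_empty hS hU).congr fun k => ?_
  constructor
  · intro h1 h2
    exact h1 (h k h2)
  · intro h1 h2
    exact hcon ⟨k, h1, h2⟩

/-- Conditions: nonempty classes of paths of decidable trees. -/
def Cond (S : Set (Set ℕ)) : Type :=
  {C : Set (ℕ → Bool) // ∃ T : List Bool → Prop, Dec S T ∧ C = paths T ∧ C.Nonempty}

instance : Preorder (Cond S) where
  le p q := q.1 ⊆ p.1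
  le_refl _ := subset_rfl
  le_trans _ _ _ h1 h2 := h2.trans h1

/-- The predicate coded by a set. -/
def cd (X : Set ℕ) (k : ℕ) (s : List Bool) : Prop := encode ((k, s) : ℕ × List Bool) ∈ X

/-- The class `p` decides that `X` does not define the complement. -/
def Done (Kst : ℕ → ℕ → Prop) (X : Set ℕ) (p : Cond S) : Prop :=
  ∃ k, (KK Kst k ∧ ∀ Z ∈ p.1, ∃ n, cd X k (pfx Z n)) ∨
    (¬ KK Kst k ∧ ∀ Z ∈ p.1, ∀ n, ¬ cd X k (pfx Z n))

theorem step (hS : Ideal S) (ha : Av Kst S) (p : Cond S) (X : Set ℕ) (hX : X ∈ S) :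
    ∃ p' : Cond S, p ≤ p' ∧ Done Kst X p' := by
  obtain ⟨C, T, hT, rfl, hne⟩ := p
  by_cases h : ∃ k, KK Kst k ∧ ∃ Z ∈ paths T, ∃ n, cd X k (pfx Z n)
  · obtain ⟨k, hk, Z, hZ, n, hn⟩ := h
    have hT' : Dec S (fun τ : List Bool => T τ ∧ τ.take n = (pfx Z n).take τ.length) := by
      refine hT.and hS (Dec.eq hS ?_ ?_)
      · exact Primrec.list_take.comp (Primrec.const n) Primrec.id
      · exact Primrec.list_take.comp Primrec.list_length (Primrec.const (pfx Z n))
    have hZ' : Z ∈ paths (fun τ : List Bool => T τ ∧ τ.take n = (pfx Z n).take τ.length) := by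
      intro m
      refine ⟨hZ m, ?_⟩
      rw [pfx_length]
      rcases Nat.le_total n m with h1 | h1
      · rw [pfx_take _ _ _ h1, List.take_of_length_le (by simpa using h1)]
      · rw [pfx_take _ _ _ h1, List.take_of_length_le (by simpa using h1)]
    refine ⟨⟨_, _, hT', rfl, Z, hZ'⟩, ?_, k, Or.inl ⟨hk, ?_⟩⟩
    · intro W hW m
      exact (hW m).1
    · intro W hW
      refine ⟨n, ?_⟩
      have h1 := (hW n).2
      rw [pfx_length, List.take_of_length_le (by simp), List.take_of_length_le (by simp)] at h1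
      rw [h1]
      exact hn
  · have hU : Dec S (fun x : ℕ × List Bool => T x.2 ∧ ¬ cd X x.1 x.2) := by
      refine (hT.comp hS Primrec.snd).and hS (Dec.not hS ?_)
      exact ⟨X, hX, fun a => Iff.rfl⟩
    obtain ⟨Z0, hZ0⟩ := hne
    obtain ⟨k, hk, Z, hZ⟩ := key hS ha hU (by
      intro k hk
      refine ⟨Z0, fun n => ⟨hZ0 n, fun h1 => ?_⟩⟩
      exact h ⟨k, hk, Z0, hZ0, n, h1⟩)
    have hT' : Dec S (fun τ : List Bool => T τ ∧ ¬ cd X k τ) :=
      hU.comp hS (f := fun τ : List Bool => (k, τ)) (Primrec.pair (Primrec.const k) Primrec.id)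
    refine ⟨⟨_, _, hT', rfl, Z, hZ⟩, ?_, k, Or.inr ⟨hk, ?_⟩⟩
    · intro W hW m
      exact (hW m).1
    · intro W hW m
      exact (hW m).2

/-- The path lemma. -/
theorem path_lemma (hS : Ideal S) (hc : S.Countable) (ha : Av Kst S) {T : List Bool → Prop}
    (hT : Dec S T) (h : ∃ Z : ℕ → Bool, ∀ n, T (pfx Z n)) :
    ∃ Z : ℕ → Bool, (∀ n, T (pfx Z n)) ∧ ¬ SigO S Z (fun k : ℕ => ¬ KK Kst k) := by
  obtain ⟨Z0, hZ0⟩ := h
  obtain ⟨s, hs0, hsm, hst⟩ := sched (P := Cond S) (fun _ => S) (fun _ => hc)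
    (fun _ _ _ => subset_rfl) (fun X p => Done Kst X p) (fun p X hX => step hS ha p X hX)
    ⟨paths T, T, hT, rfl, Z0, hZ0⟩
  have hcl : ∀ n, IsClosed (s n).1 := by
    intro n
    obtain ⟨T', _, h2, _⟩ := (s n).2
    rw [h2]
    exact isClosed_paths T'
  have hne : (⋂ n, (s n).1).Nonempty := by
    apply IsCompact.nonempty_iInter_of_sequence_nonempty_isCompact_isClosed
    · intro n
      exact hsm (Nat.le_succ n)
    · intro n
      obtain ⟨T', _, _, h3⟩ := (s n).2
      exact h3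
    · exact (hcl 0).isCompact
    · exact hcl
  obtain ⟨Z, hZ⟩ := hne
  have hZn : ∀ n, Z ∈ (s n).1 := fun n => Set.mem_iInter.1 hZ n
  refine ⟨Z, ?_, ?_⟩
  · have h1 := hZn 0
    rw [hs0] at h1
    exact h1
  · rintro ⟨q, ⟨X, hX, hXq⟩, hq⟩
    obtain ⟨m, _, k, hk⟩ := hst 0 X hX
    have hcd : ∀ n, cd X k (pfx Z n) ↔ q k (pfx Z n) := fun n => hXq (k, pfx Z n)
    rcases hk with ⟨h1, h2⟩ | ⟨h1, h2⟩
    · obtain ⟨n, hn⟩ := h2 Z (hZn m)
      exact (hq k).2 ⟨n, (hcd n).1 hn⟩ h1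
    · obtain ⟨n, hn⟩ := (hq k).1 h1
      exact h2 Z (hZn m) n ((hcd n).2 hn)

/-- Countable ideals which avoid the complement. -/
def Ids (Kst : ℕ → ℕ → Prop) : Type := {S : Set (Set ℕ) // Ideal S ∧ S.Countable ∧ Av Kst S}

instance : Preorder (Ids Kst) where
  le p q := p.1 ⊆ q.1
  le_refl _ := subset_rfl
  le_trans _ _ _ h1 h2 := h1.trans h2

/-- The tree coded by a set. -/
def tr (X : Set ℕ) (τ : List Bool) : Prop := encode τ ∈ X

theorem step2 (p : Ids Kst) (X : Set ℕ) (hX : X ∈ p.1) : ∃ p' : Ids Kst, p ≤ p' ∧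
    ((∃ Z : ℕ → Bool, ∀ n, tr X (pfx Z n)) →
      ∃ Z : ℕ → Bool, {n | Z n = true} ∈ p'.1 ∧ ∀ n, tr X (pfx Z n)) := by
  obtain ⟨S, hS, hc, ha⟩ := p
  by_cases h : ∃ Z : ℕ → Bool, ∀ n, tr X (pfx Z n)
  · have hT : Dec S (tr X) := ⟨X, hX, fun _ => Iff.rfl⟩
    obtain ⟨Z, h1, h2⟩ := path_lemma hS hc ha hT h
    refine ⟨⟨ext S Z, ideal_ext hS Z, countable_ext hc Z, fun h3 => h2 (sigO_of_sig_ext hS h3)⟩,
      subset_ext hS Z, fun _ => ⟨Z, ?_, h1⟩⟩
    have h4 := (dec_graph_ext hS Z).comp (ideal_ext hS Z) (f := fun n : ℕ => (n, true))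
      (Primrec.pair Primrec.id (Primrec.const true))
    exact dec_set.1 h4
  · exact ⟨⟨S, hS, hc, ha⟩, le_rfl, fun h' => absurd h' h⟩

end ScottC

open ScottC

theorem su {Kst : ℕ → ℕ → Prop} {S : Set (Set ℕ)} (hS : Good Kst S)
    {T : ℕ × List Bool → Prop} (hT : Dec S T)
    (h : ∀ k, KK Kst k → ∃ Z : ℕ → Bool, ∀ n, T (k, pfx Z n)) :
    ∃ k, ¬ KK Kst k ∧ ∃ Z : ℕ → Bool, {n | Z n = true} ∈ S ∧ ∀ n, T (k, pfx Z n) := by
  obtain ⟨k, hk, h1⟩ := key hS.ideal hS.av hT h
  have hT' : Dec S (fun τ : List Bool => T (k, τ)) :=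
    hT.comp hS.ideal (f := fun τ : List Bool => (k, τ))
      (Primrec.pair (Primrec.const k) Primrec.id)
  exact ⟨k, hk, hS.scott _ hT' h1⟩

theorem scott_closure {Kst : ℕ → ℕ → Prop} {S : Set (Set ℕ)} (hS : Ideal S)
    (hc : S.Countable) (ha : Av Kst S) : ∃ S', Good Kst S' ∧ S ⊆ S' := by
  obtain ⟨s, hs0, hsm, hst⟩ := sched (P := Ids Kst) (fun p => p.1) (fun p => p.2.2.1)
    (fun _ _ h => h) (fun X p => (∃ Z : ℕ → Bool, ∀ n, tr X (pfx Z n)) →
      ∃ Z : ℕ → Bool, {n | Z n = true} ∈ p.1 ∧ ∀ n, tr X (pfx Z n))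
    (fun p X hX => step2 p X hX) ⟨S, hS, hc, ha⟩
  have hm : Monotone fun n => (s n).1 := fun a b h => hsm h
  refine ⟨⋃ n, (s n).1, ⟨ideal_iUnion (fun n => (s n).2.1) hm,
    Set.countable_iUnion fun n => (s n).2.2.1, ?_, ?_⟩, ?_⟩
  · intro h
    obtain ⟨n, hn⟩ := sig_iUnion h
    exact (s n).2.2.2 hn
  · intro T hT hZ
    obtain ⟨n, X, hX, hXT⟩ := dec_iUnion hT
    obtain ⟨m, _, hd⟩ := hst n X hX
    obtain ⟨Z, h1, h2⟩ := hd (by
      obtain ⟨Z, hZ⟩ := hZ
      exact ⟨Z, fun i => (hXT _).2 (hZ i)⟩)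
    exact ⟨Z, Set.mem_iUnion.2 ⟨m, h1⟩, fun i => (hXT _).1 (h2 i)⟩
  · have h0 : (s 0).1 = S := by rw [hs0]
    intro X hX
    refine Set.mem_iUnion.2 ⟨0, ?_⟩
    rw [h0]
    exact hX

end Pool.Agent.H654
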