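import Pool.Agent.H654.Cond

/-!
Strings compatible with a condition, and the statement of the requirements.
-/

namespace Pool.Agent.H654

open Encodable

variable {Kst : ℕ → ℕ → Prop} {r : ℕ → ℕ → Prop} {N : Set (Set ℕ)} {Q : Set ℕ} {W : ℕ → Prop}

/-- the relation coded by a Boolean string -/
def rel (s : List Bool) (x y : ℕ) : Prop := s.getI (Nat.pair x y) = true

/-- `s` codes a linear extension of `r` on `Q ∩ [0, m)` compatible with the condition. -/
structure Compat (p : BC Kst r N Q W) (m : ℕ) (s : List Bool) : Prop where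
  len : s.length = m * m
  out : ∀ x < m, ∀ y < m, rel s x y → x ∈ Q ∧ y ∈ Q
  lin : LinExt r {x | x ∈ Q ∧ x < m} (rel s)
  agree : ∀ x < m, ∀ y < m, x ∈ Q → y ∈ Q → ¬ (x ∈ p.O ∧ y ∈ p.O) → (rel s x y ↔ p.lp x y)

/-- the tree of approximations of the class of upward closed sets `H` disjoint from `V k` (of
which `v` is an enumeration) such that each compatible string satisfying `q k` puts an element of
`H` below an element outside `H` -/
def HTree (p : BC Kst r N Q W) (v : ℕ × ℕ → ℕ → Prop) (q : ℕ → List Bool → Prop)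
    (x : ℕ × List Bool) : Prop :=
  (∀ a < x.2.length, x.2.getI a = true → a ∈ Q) ∧
  (∀ a < x.2.length, ∀ b < x.2.length, x.2.getI a = true → b ∈ Q → r a b → x.2.getI b = true) ∧
  (∀ a < x.2.length, ∀ t < x.2.length, v (x.1, a) t → ¬ x.2.getI a = true) ∧
  (∀ c < x.2.length, ∀ s ∈ (decode c : Option (List Bool)), ∀ m < x.2.length,
    Compat p m s → q x.1 s →
    ∃ a < m, ∃ b < m, a ∈ p.O ∧ b ∈ p.O ∧ rel s a b ∧ x.2.getI a = true ∧ ¬ x.2.getI b = true)

/-- the requirement given by the code `X` is met -/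
def Met (X : Set ℕ) (p : BC Kst r N Q W) : Prop :=
  (∃ k, KK Kst k ∧ ∃ m, ∀ s, Compat p m s →
    monoCl (fun (k : ℕ) (s : List Bool) => encode (k, s) ∈ X) k s) ∨
  (∃ k, ¬ KK Kst k ∧ ∀ m s, Compat p m s →
    ¬ monoCl (fun (k : ℕ) (s : List Bool) => encode (k, s) ∈ X) k s)

end Pool.Agent.H654
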