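import Pool.Agent.H654.Spec

/-!
Sums of coding linear extensions and the conditions of the forcing for the main lemma.
-/

namespace Pool.Agent.H654

open Encodable

variable {Kst : ℕ → ℕ → Prop} {r : ℕ → ℕ → Prop}

/-! ### basic closure facts -/

theorem Ideal.union {S : Set (Set ℕ)} (hS : Ideal S) {X Y : Set ℕ} (hX : X ∈ S) (hY : Y ∈ S) :
    X ∪ Y ∈ S :=
  dec_set.1 ((dec_set.2 hX).or hS (dec_set.2 hY))

theorem Ideal.diff {S : Set (Set ℕ)} (hS : Ideal S) {X Y : Set ℕ} (hX : X ∈ S) (hY : Y ∈ S) :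
    X \ Y ∈ S :=
  dec_set.1 ((dec_set.2 hX).and hS ((dec_set.2 hY).not hS))

theorem Ideal.sep {S : Set (Set ℕ)} {p : ℕ → Prop} (h : Dec S p) :
    {n | p n} ∈ S := dec_set.1 h

theorem Ideal.empty {S : Set (Set ℕ)} (hS : Ideal S) : (∅ : Set ℕ) ∈ S :=
  dec_set.1 ((Dec.const hS False).congr fun n => by simp)

theorem Sol.mono {N N' : Set (Set ℕ)} {A : Set ℕ} (h : Sol Kst r N A) (hN : N ⊆ N') :
    Sol Kst r N' A := fun N'' hg hs => h N'' hg (hN.trans hs)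

theorem LinExt.subset {A B : Set ℕ} {L : ℕ → ℕ → Prop} (h : LinExt r A L) (hB : B ⊆ A) :
    LinExt r B L :=
  ⟨fun x hx => h.irrefl x (hB hx),
    fun x hx y hy z hz => h.trans x (hB hx) y (hB hy) z (hB hz),
    fun x hx y hy => h.total x (hB hx) y (hB hy),
    fun x hx y hy => h.ext x (hB hx) y (hB hy)⟩

theorem Codes.mono {I I' : Set (Set ℕ)} {A : Set ℕ} {L : ℕ → ℕ → Prop} (h : Codes Kst I A L)
    (hI : I ⊆ I') : Codes Kst I' A L := fun D hD => (h D hD).mono hI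

theorem Codes.subset {I : Set (Set ℕ)} {A B : Set ℕ} {L : ℕ → ℕ → Prop} (h : Codes Kst I A L)
    (hB : B ⊆ A) : Codes Kst I B L := fun D hD => h D ⟨fun i => hB (hD.1 i), hD.2⟩

theorem Sol.subset {N : Set (Set ℕ)} {A B : Set ℕ} (h : Sol Kst r N A) (hB : B ⊆ A) :
    Sol Kst r N B := by
  intro N' hg hs
  obtain ⟨N'', hg'', hs'', L, hL, hlin, hcod⟩ := h N' hg hs
  exact ⟨N'', hg'', hs'', L, hL, hlin.subset hB, hcod.subset hB⟩

/-- `L1` on `C`, followed by `L2` -/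
def sumRel (C : Set ℕ) (L1 L2 : ℕ → ℕ → Prop) (x y : ℕ) : Prop :=
  (x ∈ C ∧ y ∈ C ∧ L1 x y) ∨ (x ∈ C ∧ y ∉ C) ∨ (x ∉ C ∧ y ∉ C ∧ L2 x y)

theorem dec_sumRel {S : Set (Set ℕ)} (hS : Ideal S) {C : Set ℕ} (hC : C ∈ S)
    {L1 L2 : ℕ → ℕ → Prop} (h1 : Dec S (fun x : ℕ × ℕ => L1 x.1 x.2))
    (h2 : Dec S (fun x : ℕ × ℕ => L2 x.1 x.2)) :
    Dec S (fun x : ℕ × ℕ => sumRel C L1 L2 x.1 x.2) := by
  have hx := Dec.mem hS hC (Primrec.fst (α := ℕ) (β := ℕ))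
  have hy := Dec.mem hS hC (Primrec.snd (α := ℕ) (β := ℕ))
  exact (hx.and hS (hy.and hS h1)).or hS ((hx.and hS (hy.not hS)).or hS
    ((hx.not hS).and hS ((hy.not hS).and hS h2)))

theorem LinExt.sum {C T : Set ℕ} {L1 L2 : ℕ → ℕ → Prop} (h1 : LinExt r C L1)
    (h2 : LinExt r T L2) (_hd : ∀ x ∈ T, x ∉ C) (hno : ∀ x ∈ C, ∀ y ∈ T, ¬ r y x) :
    LinExt r (C ∪ T) (sumRel C L1 L2) := by
  refine ⟨?_, ?_, ?_, ?_⟩
  · rintro x hx (⟨ha, _, hb⟩ | ⟨ha, hb⟩ | ⟨ha, _, hb⟩)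
    · exact h1.irrefl x ha hb
    · exact hb ha
    · exact h2.irrefl x (hx.resolve_left ha) hb
  · rintro x hx y hy z hz (⟨ha, hb, hc⟩ | ⟨ha, hb⟩ | ⟨ha, hb, hc⟩)
      (⟨ha', hb', hc'⟩ | ⟨ha', hb'⟩ | ⟨ha', hb', hc'⟩)
    · exact Or.inl ⟨ha, hb', h1.trans x ha y hb z hb' hc hc'⟩
    · exact Or.inr (Or.inl ⟨ha, hb'⟩)
    · exact absurd hb ha'
    · exact absurd ha' hb
    · exact absurd ha' hb
    · exact Or.inr (Or.inl ⟨ha, hb'⟩)
    · exact absurd ha' hb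
    · exact absurd ha' hb
    · exact Or.inr (Or.inr ⟨ha, hb', h2.trans x (hx.resolve_left ha) y (hy.resolve_left hb) z
        (hz.resolve_left hb') hc hc'⟩)
  · intro x hx y hy hxy
    by_cases ha : x ∈ C
    · by_cases hb : y ∈ C
      · rcases h1.total x ha y hb hxy with h | h
        · exact Or.inl (Or.inl ⟨ha, hb, h⟩)
        · exact Or.inr (Or.inl ⟨hb, ha, h⟩)
      · exact Or.inl (Or.inr (Or.inl ⟨ha, hb⟩))
    · by_cases hb : y ∈ C
      · exact Or.inr (Or.inr (Or.inl ⟨hb, ha⟩))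
      · rcases h2.total x (hx.resolve_left ha) y (hy.resolve_left hb) hxy with h | h
        · exact Or.inl (Or.inr (Or.inr ⟨ha, hb, h⟩))
        · exact Or.inr (Or.inr (Or.inr ⟨hb, ha, h⟩))
  · intro x hx y hy hxy
    by_cases ha : x ∈ C
    · by_cases hb : y ∈ C
      · exact Or.inl ⟨ha, hb, h1.ext x ha y hb hxy⟩
      · exact Or.inr (Or.inl ⟨ha, hb⟩)
    · by_cases hb : y ∈ C
      · exact absurd hxy (hno y hb x (hx.resolve_left ha))
      · exact Or.inr (Or.inr ⟨ha, hb, h2.ext x (hx.resolve_left ha) y (hy.resolve_left hb) hxy⟩)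

theorem desc_tail {A : Set ℕ} {L : ℕ → ℕ → Prop} {D : ℕ → ℕ} (h : Desc A L D) (N : ℕ) :
    Desc A L (fun i => D (N + i)) := ⟨fun _ => h.1 _, fun _ => h.2 _⟩

theorem Codes.sum {I : Set (Set ℕ)} (hI : Ideal I) {C T : Set ℕ} {L1 L2 : ℕ → ℕ → Prop}
    (h1 : Codes Kst I C L1) (h2 : Codes Kst I T L2) : Codes Kst I (C ∪ T) (sumRel C L1 L2) := by
  intro D hD
  by_cases h : ∃ i, D i ∈ C
  · obtain ⟨i, hi⟩ := h
    have hall : ∀ j, D (i + j) ∈ C := by
      intro j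
      induction j with
      | zero => exact hi
      | succ j ih =>
        rcases hD.2 (i + j) with ⟨h, _⟩ | ⟨h, _⟩ | ⟨_, h, _⟩
        · exact h
        · exact h
        · exact absurd ih h
    refine SigO.of_tail hI (N := i) (h1 _ ⟨hall, fun j => ?_⟩)
    rcases hD.2 (i + j) with ⟨_, _, h⟩ | ⟨_, h⟩ | ⟨_, h, _⟩
    · exact h
    · exact absurd (hall j) h
    · exact absurd (hall j) h
  · push Not at h
    refine h2 _ ⟨fun i => (hD.1 i).resolve_left (h i), fun j => ?_⟩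
    rcases hD.2 j with ⟨_, h', _⟩ | ⟨h', _⟩ | ⟨_, _, h'⟩
    · exact absurd h' (h _)
    · exact absurd h' (h _)
    · exact h'

theorem linExt_empty (L : ℕ → ℕ → Prop) : LinExt r ∅ L :=
  ⟨fun _ h => h.elim, fun _ h => h.elim, fun _ h => h.elim, fun _ h => h.elim⟩

theorem codes_empty (I : Set (Set ℕ)) (L : ℕ → ℕ → Prop) : Codes Kst I ∅ L :=
  fun _ hD => (hD.1 0).elim

theorem sol_empty {N : Set (Set ℕ)} : Sol Kst r N ∅ := fun N' hg _ =>
  ⟨N', hg, subset_rfl, fun _ _ => False, Dec.const hg.ideal False, linExt_empty _, codes_empty _ _⟩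

/-- adding a top element -/
theorem Sol.insert_top {N : Set (Set ℕ)} {B : Set ℕ} {x : ℕ} (h : Sol Kst r N B)
    (hr : ∀ z, ¬ r z z) (hB : B ∈ N) (hx : x ∉ B) (hmax : ∀ y ∈ B, ¬ r x y) :
    Sol Kst r N (B ∪ {x}) := by
  intro N' hg hs
  obtain ⟨N'', hg'', hs'', L, hL, hlin, hcod⟩ := h N' hg hs
  have hB' : B ∈ N'' := hs'' (hs hB)
  refine ⟨N'', hg'', hs'', sumRel B L (fun _ _ => False),
    dec_sumRel hg''.ideal hB' hL (Dec.const hg''.ideal False), ?_, ?_⟩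
  · refine LinExt.sum hlin ⟨?_, ?_, ?_, ?_⟩ ?_ ?_
    · exact fun _ _ h => h
    · exact fun _ _ _ _ _ _ h => h.elim
    · intro y hy z hz h
      exact absurd (hy.trans hz.symm) h
    · intro y hy z hz h
      rw [Set.mem_singleton_iff] at hy hz
      subst hy; subst hz
      exact absurd h (hr _)
    · intro y hy; rw [Set.mem_singleton_iff] at hy; subst hy; exact hx
    · intro y hy z hz; rw [Set.mem_singleton_iff] at hz; subst hz; exact hmax y hy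
  · exact Codes.sum hg''.ideal hcod (fun D hD => (hD.2 0).elim)

/-! ### conditions -/

/-- Conditions: a coding linear extension on a downward closed part `C` and on an upward closed
part `U` disjoint from `W`. -/
structure BC (Kst : ℕ → ℕ → Prop) (r : ℕ → ℕ → Prop) (N : Set (Set ℕ)) (Q : Set ℕ)
    (W : ℕ → Prop) where
  I : Set (Set ℕ)
  C : Set ℕ
  U : Set ℕ
  LC : ℕ → ℕ → Prop
  LU : ℕ → ℕ → Prop
  good : Good Kst I
  sub : N ⊆ I
  hC : C ∈ I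
  hU : U ∈ I
  dC : Dec I (fun x : ℕ × ℕ => LC x.1 x.2)
  dU : Dec I (fun x : ℕ × ℕ => LU x.1 x.2)
  CQ : C ⊆ Q
  UQ : U ⊆ Q
  down : ∀ x ∈ C, ∀ y ∈ Q, r y x → y ∈ C
  up : ∀ x ∈ U, ∀ y ∈ Q, r x y → y ∈ U
  disj : ∀ x ∈ C, x ∉ U
  UW : ∀ x ∈ U, ¬ W x
  lC : LinExt r C LC
  lU : LinExt r U LU
  cC : Codes Kst I C LC
  cU : Codes Kst I U LU

variable {N : Set (Set ℕ)} {Q : Set ℕ} {W : ℕ → Prop}

/-- the open part -/
def BC.O (p : BC Kst r N Q W) : Set ℕ := {x | x ∈ Q ∧ x ∉ p.C ∧ x ∉ p.U}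

/-- the relation decided by the condition -/
def BC.lp (p : BC Kst r N Q W) (x y : ℕ) : Prop :=
  (x ∈ p.C ∧ y ∈ p.C ∧ p.LC x y) ∨ (x ∈ p.C ∧ y ∉ p.C) ∨ (x ∉ p.C ∧ x ∉ p.U ∧ y ∈ p.U) ∨
    (x ∈ p.U ∧ y ∈ p.U ∧ p.LU x y)

theorem BC.O_anti {p p' : BC Kst r N Q W} (hC : p.C ⊆ p'.C) (hU : p.U ⊆ p'.U) :
    p'.O ⊆ p.O := fun _ hx => ⟨hx.1, fun h => hx.2.1 (hC h), fun h => hx.2.2 (hU h)⟩

instance : Preorder (BC Kst r N Q W) where
  le p p' := p.I ⊆ p'.I ∧ p.C ⊆ p'.C ∧ p.U ⊆ p'.U ∧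
    ∀ x ∈ Q, ∀ y ∈ Q, ¬ (x ∈ p.O ∧ y ∈ p.O) → (p'.lp x y ↔ p.lp x y)
  le_refl p := ⟨subset_rfl, subset_rfl, subset_rfl, fun _ _ _ _ _ => Iff.rfl⟩
  le_trans p p' p'' h h' := ⟨h.1.trans h'.1, h.2.1.trans h'.2.1, h.2.2.1.trans h'.2.2.1,
    fun x hx y hy hxy => (h'.2.2.2 x hx y hy fun hh => hxy
      ⟨BC.O_anti h.2.1 h.2.2.1 hh.1, BC.O_anti h.2.1 h.2.2.1 hh.2⟩).trans
      (h.2.2.2 x hx y hy hxy)⟩

theorem BC.O_mem (p : BC Kst r N Q W) (hQ : Q ∈ N) : p.O ∈ p.I :=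
  dec_set.1 (((dec_set.2 (p.sub hQ)).and p.good.ideal
    (((dec_set.2 p.hC).not p.good.ideal).and p.good.ideal
      ((dec_set.2 p.hU).not p.good.ideal))).congr fun _ => Iff.rfl)

theorem BC.le_O {p p' : BC Kst r N Q W} (h : p ≤ p') : p'.O ⊆ p.O := BC.O_anti h.2.1 h.2.2.1

/-- adding a block above `C` -/
theorem BC.bottomStep (p : BC Kst r N Q W) (T : Set ℕ) (hT : T ∈ p.I) (hTO : T ⊆ p.O)
    (hd : ∀ x ∈ T, ∀ y ∈ Q, r y x → y ∈ p.C ∨ y ∈ T) (hs : Sol Kst r p.I T) :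
    ∃ p' : BC Kst r N Q W, p ≤ p' ∧ p'.C = p.C ∪ T ∧ p'.U = p.U := by
  obtain ⟨I', hg, hsub, L', hL', hlin, hcod⟩ := hs p.I p.good subset_rfl
  have hTC : ∀ x ∈ T, x ∉ p.C := fun x hx => (hTO hx).2.1
  have hTU : ∀ x ∈ T, x ∉ p.U := fun x hx => (hTO hx).2.2
  refine ⟨{ I := I', C := p.C ∪ T, U := p.U, LC := sumRel p.C p.LC L', LU := p.LU,
            good := hg, sub := p.sub.trans hsub,
            hC := hg.ideal.union (hsub p.hC) (hsub hT), hU := hsub p.hU,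
            dC := dec_sumRel hg.ideal (hsub p.hC) (p.dC.mono hsub) hL',
            dU := p.dU.mono hsub,
            CQ := Set.union_subset p.CQ fun x hx => (hTO hx).1,
            UQ := p.UQ, down := ?_, up := p.up, disj := ?_, UW := p.UW,
            lC := LinExt.sum p.lC hlin hTC ?_, lU := p.lU,
            cC := Codes.sum hg.ideal (p.cC.mono hsub) hcod, cU := p.cU.mono hsub }, ?_, rfl, rfl⟩
  · rintro x (hx | hx) y hy hxy
    · exact Or.inl (p.down x hx y hy hxy)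
    · exact hd x hx y hy hxy
  · rintro x (hx | hx)
    · exact p.disj x hx
    · exact hTU x hx
  · intro x hx y hy hxy
    exact hTC y hy (p.down x hx y (hTO hy).1 hxy)
  · refine ⟨hsub, Set.subset_union_left, subset_rfl, ?_⟩
    intro x hx y hy hxy
    have d1 := p.disj x
    have d2 := p.disj y
    have e1 := hTC x
    have e2 := hTC y
    have f1 := hTU x
    have f2 := hTU y
    simp only [BC.O, Set.mem_ofPred_eq] at hxy
    simp only [BC.lp, sumRel, Set.mem_union]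
    by_cases a1 : x ∈ p.C <;> by_cases a2 : y ∈ p.C <;> by_cases b1 : x ∈ p.U <;>
      by_cases b2 : y ∈ p.U <;> by_cases c1 : x ∈ T <;> by_cases c2 : y ∈ T <;> simp_all

/-- adding a block below `U` -/
theorem BC.topStep (p : BC Kst r N Q W) (T : Set ℕ) (hT : T ∈ p.I) (hTO : T ⊆ p.O)
    (hu : ∀ x ∈ T, ∀ y ∈ Q, r x y → y ∈ p.U ∨ y ∈ T) (hw : ∀ x ∈ T, ¬ W x)
    (hs : Sol Kst r p.I T) :
    ∃ p' : BC Kst r N Q W, p ≤ p' ∧ p'.C = p.C ∧ p'.U = T ∪ p.U := by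
  obtain ⟨I', hg, hsub, L', hL', hlin, hcod⟩ := hs p.I p.good subset_rfl
  have hTC : ∀ x ∈ T, x ∉ p.C := fun x hx => (hTO hx).2.1
  have hTU : ∀ x ∈ T, x ∉ p.U := fun x hx => (hTO hx).2.2
  refine ⟨{ I := I', C := p.C, U := T ∪ p.U, LC := p.LC, LU := sumRel T L' p.LU,
            good := hg, sub := p.sub.trans hsub,
            hC := hsub p.hC, hU := hg.ideal.union (hsub hT) (hsub p.hU),
            dC := p.dC.mono hsub,
            dU := dec_sumRel hg.ideal (hsub hT) hL' (p.dU.mono hsub),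
            CQ := p.CQ, UQ := Set.union_subset (fun x hx => (hTO hx).1) p.UQ,
            down := p.down, up := ?_, disj := ?_, UW := ?_,
            lC := p.lC, lU := LinExt.sum hlin p.lU (fun x hx hxT => hTU x hxT hx) ?_,
            cC := p.cC.mono hsub, cU := Codes.sum hg.ideal hcod (p.cU.mono hsub) }, ?_, rfl, rfl⟩
  · rintro x (hx | hx) y hy hxy
    · exact (hu x hx y hy hxy).symm
    · exact Or.inr (p.up x hx y hy hxy)
  · rintro x hx (h | h)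
    · exact hTC x h hx
    · exact p.disj x hx h
  · rintro x (hx | hx)
    · exact hw x hx
    · exact p.UW x hx
  · intro x hx y hy hxy
    exact hTU x hx (p.up y hy x (hTO hx).1 hxy)
  · refine ⟨hsub, subset_rfl, Set.subset_union_right, ?_⟩
    intro x hx y hy hxy
    have d1 := p.disj x
    have d2 := p.disj y
    have e1 := hTC x
    have e2 := hTC y
    have f1 := hTU x
    have f2 := hTU y
    simp only [BC.O, Set.mem_ofPred_eq] at hxy
    simp only [BC.lp, sumRel, Set.mem_union]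
    by_cases a1 : x ∈ p.C <;> by_cases a2 : y ∈ p.C <;> by_cases b1 : x ∈ p.U <;>
      by_cases b2 : y ∈ p.U <;> by_cases c1 : x ∈ T <;> by_cases c2 : y ∈ T <;> simp_all

/-- the decided relation is a linear order on the decided part -/
theorem BC.lin (p : BC Kst r N Q W) : LinExt r (p.C ∪ p.U) p.lp := by
  have h := LinExt.sum p.lC p.lU (fun x hx hxC => p.disj x hxC hx)
    (fun x hx y hy hxy => p.disj y (p.down x hx y (p.UQ hy) hxy) hy)
  have e : ∀ x ∈ p.C ∪ p.U, ∀ y ∈ p.C ∪ p.U, (p.lp x y ↔ sumRel p.C p.LC p.LU x y) := by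
    intro x hx y hy
    have d1 := p.disj x
    have d2 := p.disj y
    simp only [Set.mem_union] at hx hy
    simp only [BC.lp, sumRel]
    by_cases a1 : x ∈ p.C <;> by_cases a2 : y ∈ p.C <;> by_cases b1 : x ∈ p.U <;>
      by_cases b2 : y ∈ p.U <;> simp_all
  refine ⟨fun x hx => ?_, fun x hx y hy z hz => ?_, fun x hx y hy => ?_, fun x hx y hy => ?_⟩
  · rw [e x hx x hx]; exact h.irrefl x hx
  · rw [e x hx y hy, e y hy z hz, e x hx z hz]; exact h.trans x hx y hy z hz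
  · rw [e x hx y hy, e y hy x hx]; exact h.total x hx y hy
  · rw [e x hx y hy]; exact h.ext x hx y hy

end Pool.Agent.H654
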