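import Pool.Agent.H654.Compat

/-!
Routine decidability (subtask G of helper654).
-/

namespace Pool.Agent.H654

open Encodable

variable {α β : Type} [Primcodable α] [Primcodable β]

theorem Dec.allDecode {S : Set (Set ℕ)} (hS : Ideal S) {p : α → β → Prop}
    (h : Dec S (fun x : α × β => p x.1 x.2)) :
    Dec S (fun x : α × ℕ => ∀ b ∈ (decode x.2 : Option β), p x.1 b) := by
  obtain ⟨X, hX, hXq⟩ := h
  have e : Primrec (fun x : α × ℕ =>
      ((decode (α := β) x.2).map fun b => encode ((x.1, b) : α × β) + 1).getD 0) := by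
    refine Primrec.option_getD.comp (Primrec.option_map
      (Primrec.decode.comp Primrec.snd) ?_) (Primrec.const 0)
    exact Primrec.succ.comp (Primrec.encode.comp
      (Primrec.pair (Primrec.fst.comp Primrec.fst) Primrec.snd))
  have hX' : Dec S (fun n : ℕ => n = 0 ∨ n - 1 ∈ X) :=
    (Dec.eq hS Primrec.id (Primrec.const 0)).or hS (Dec.mem hS hX Primrec.pred)
  refine (hX'.comp hS e).congr ?_
  rintro ⟨a, c⟩
  rcases hd : (decode (α := β) c) with _ | b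
  · simp
  · have := hXq (a, b)
    simpa [hd] using this

namespace DecG

variable {S : Set (Set ℕ)}

theorem dec_rel (hS : Ideal S) {f : α → List Bool} {g h : α → ℕ} (hf : Primrec f)
    (hg : Primrec g) (hh : Primrec h) : Dec S (fun a => rel (f a) (g a) (h a)) :=
  Dec.eq hS (Primrec.list_getI.comp hf (Primrec₂.natPair.comp hg hh)) (Primrec.const true)

theorem dec_get (hS : Ideal S) {f : α → List Bool} {g : α → ℕ} (hf : Primrec f)
    (hg : Primrec g) : Dec S (fun a => (f a).getI (g a) = true) :=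
  Dec.eq hS (Primrec.list_getI.comp hf hg) (Primrec.const true)

theorem dec_comp2 (hS : Ideal S) {p : ℕ → ℕ → Prop} (h : Dec S (fun x : ℕ × ℕ => p x.1 x.2))
    {f g : α → ℕ} (hf : Primrec f) (hg : Primrec g) : Dec S (fun a => p (f a) (g a)) :=
  h.comp₂ hS hf hg

end DecG

open DecG

variable {Kst : ℕ → ℕ → Prop} {r : ℕ → ℕ → Prop} {N : Set (Set ℕ)} {Q : Set ℕ} {W : ℕ → Prop}

theorem DecG.dec_lp (p : BC Kst r N Q W) {f g : α → ℕ} (hf : Primrec f) (hg : Primrec g) :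
    Dec p.I (fun a => p.lp (f a) (g a)) := by
  have hS := p.good.ideal
  have c1 := Dec.mem hS p.hC hf
  have c2 := Dec.mem hS p.hC hg
  have u1 := Dec.mem hS p.hU hf
  have u2 := Dec.mem hS p.hU hg
  have l1 := dec_comp2 hS p.dC hf hg
  have l2 := dec_comp2 hS p.dU hf hg
  exact (c1.and hS (c2.and hS l1)).or hS ((c1.and hS (c2.not hS)).or hS
    (((c1.not hS).and hS ((u1.not hS).and hS u2)).or hS (u1.and hS (u2.and hS l2))))

theorem dec_compat (hr : PO N r) (hQ : Q ∈ N) (p : BC Kst r N Q W) :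
    Dec p.I (fun x : ℕ × List Bool => Compat p x.1 x.2) := by
  have hS := p.good.ideal
  have hQI : Q ∈ p.I := p.sub hQ
  have hrI : Dec p.I (fun x : ℕ × ℕ => r x.1 x.2) := hr.dec.mono p.sub
  have hO := p.O_mem hQ
  -- length
  have d1 : Dec p.I (fun x : ℕ × List Bool => x.2.length = x.1 * x.1) :=
    Dec.eq hS (Primrec.list_length.comp Primrec.snd)
      (Primrec.nat_mul.comp Primrec.fst Primrec.fst)
  -- projections for one, two and three bounded variables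
  have m1 : Primrec (fun z : (ℕ × List Bool) × ℕ => z.1.1) := Primrec.fst.comp Primrec.fst
  have s1 : Primrec (fun z : (ℕ × List Bool) × ℕ => z.1.2) := Primrec.snd.comp Primrec.fst
  have x1 : Primrec (fun z : (ℕ × List Bool) × ℕ => z.2) := Primrec.snd
  have m2 : Primrec (fun z : ((ℕ × List Bool) × ℕ) × ℕ => z.1.1.1) := m1.comp Primrec.fst
  have s2 : Primrec (fun z : ((ℕ × List Bool) × ℕ) × ℕ => z.1.1.2) := s1.comp Primrec.fst
  have x2 : Primrec (fun z : ((ℕ × List Bool) × ℕ) × ℕ => z.1.2) := x1.comp Primrec.fst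
  have y2 : Primrec (fun z : ((ℕ × List Bool) × ℕ) × ℕ => z.2) := Primrec.snd
  have s3 : Primrec (fun z : (((ℕ × List Bool) × ℕ) × ℕ) × ℕ => z.1.1.1.2) := s2.comp Primrec.fst
  have x3 : Primrec (fun z : (((ℕ × List Bool) × ℕ) × ℕ) × ℕ => z.1.1.2) := x2.comp Primrec.fst
  have y3 : Primrec (fun z : (((ℕ × List Bool) × ℕ) × ℕ) × ℕ => z.1.2) := y2.comp Primrec.fst
  have z3 : Primrec (fun z : (((ℕ × List Bool) × ℕ) × ℕ) × ℕ => z.2) := Primrec.snd
  have ball1 : ∀ {P : (ℕ × List Bool) → ℕ → Prop},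
      Dec p.I (fun z : (ℕ × List Bool) × ℕ => P z.1 z.2) →
      Dec p.I (fun x : ℕ × List Bool => ∀ a < x.1, P x a) := fun h =>
    Dec.ball hS (b := fun x : ℕ × List Bool => x.1) Primrec.fst h
  have ball2 : ∀ {P : (ℕ × List Bool) → ℕ → ℕ → Prop},
      Dec p.I (fun z : ((ℕ × List Bool) × ℕ) × ℕ => P z.1.1 z.1.2 z.2) →
      Dec p.I (fun x : ℕ × List Bool => ∀ a < x.1, ∀ b < x.1, P x a b) := fun {P} h =>
    ball1 (P := fun x a => ∀ b < x.1, P x a b)
      (Dec.ball hS (p := fun (z : (ℕ × List Bool) × ℕ) b => P z.1 z.2 b)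
        (b := fun z : (ℕ × List Bool) × ℕ => z.1.1) m1 h)
  have ball3 : ∀ {P : (ℕ × List Bool) → ℕ → ℕ → ℕ → Prop},
      Dec p.I (fun z : (((ℕ × List Bool) × ℕ) × ℕ) × ℕ => P z.1.1.1 z.1.1.2 z.1.2 z.2) →
      Dec p.I (fun x : ℕ × List Bool => ∀ a < x.1, ∀ b < x.1, ∀ c < x.1, P x a b c) :=
    fun {P} h => ball2 (P := fun x a b => ∀ c < x.1, P x a b c)
      (Dec.ball hS (p := fun (z : ((ℕ × List Bool) × ℕ) × ℕ) c => P z.1.1 z.1.2 z.2 c)
        (b := fun z : ((ℕ × List Bool) × ℕ) × ℕ => z.1.1.1) m2 h)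
  -- the range
  have d2 : Dec p.I (fun x : ℕ × List Bool => ∀ a < x.1, ∀ b < x.1, rel x.2 a b →
      a ∈ Q ∧ b ∈ Q) :=
    ball2 (P := fun x a b => rel x.2 a b → a ∈ Q ∧ b ∈ Q)
      ((dec_rel hS s2 x2 y2).imp hS ((Dec.mem hS hQI x2).and hS (Dec.mem hS hQI y2)))
  -- linear order
  have e1 : Dec p.I (fun x : ℕ × List Bool => ∀ a < x.1, a ∈ Q → ¬ rel x.2 a a) :=
    ball1 (P := fun x a => a ∈ Q → ¬ rel x.2 a a)
      ((Dec.mem hS hQI x1).imp hS ((dec_rel hS s1 x1 x1).not hS))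
  have e2 : Dec p.I (fun x : ℕ × List Bool => ∀ a < x.1, ∀ b < x.1, ∀ c < x.1,
      a ∈ Q → b ∈ Q → c ∈ Q → rel x.2 a b → rel x.2 b c → rel x.2 a c) :=
    ball3 (P := fun x a b c => a ∈ Q → b ∈ Q → c ∈ Q → rel x.2 a b → rel x.2 b c → rel x.2 a c)
      ((Dec.mem hS hQI x3).imp hS ((Dec.mem hS hQI y3).imp hS ((Dec.mem hS hQI z3).imp hS
        ((dec_rel hS s3 x3 y3).imp hS ((dec_rel hS s3 y3 z3).imp hS (dec_rel hS s3 x3 z3))))))
  have e3 : Dec p.I (fun x : ℕ × List Bool => ∀ a < x.1, ∀ b < x.1,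
      a ∈ Q → b ∈ Q → ¬ a = b → rel x.2 a b ∨ rel x.2 b a) :=
    ball2 (P := fun x a b => a ∈ Q → b ∈ Q → ¬ a = b → rel x.2 a b ∨ rel x.2 b a)
      ((Dec.mem hS hQI x2).imp hS ((Dec.mem hS hQI y2).imp hS (((Dec.eq hS x2 y2).not hS).imp hS
        ((dec_rel hS s2 x2 y2).or hS (dec_rel hS s2 y2 x2)))))
  have e4 : Dec p.I (fun x : ℕ × List Bool => ∀ a < x.1, ∀ b < x.1,
      a ∈ Q → b ∈ Q → r a b → rel x.2 a b) :=
    ball2 (P := fun x a b => a ∈ Q → b ∈ Q → r a b → rel x.2 a b)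
      ((Dec.mem hS hQI x2).imp hS ((Dec.mem hS hQI y2).imp hS ((dec_comp2 hS hrI x2 y2).imp hS
        (dec_rel hS s2 x2 y2))))
  -- agreement
  have d3 : Dec p.I (fun x : ℕ × List Bool => ∀ a < x.1, ∀ b < x.1,
      a ∈ Q → b ∈ Q → ¬ (a ∈ p.O ∧ b ∈ p.O) → (rel x.2 a b ↔ p.lp a b)) :=
    ball2 (P := fun x a b => a ∈ Q → b ∈ Q → ¬ (a ∈ p.O ∧ b ∈ p.O) → (rel x.2 a b ↔ p.lp a b))
      ((Dec.mem hS hQI x2).imp hS ((Dec.mem hS hQI y2).imp hS
        ((((Dec.mem hS hO x2).and hS (Dec.mem hS hO y2)).not hS).imp hS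
          ((dec_rel hS s2 x2 y2).iff hS (dec_lp p x2 y2)))))
  refine (d1.and hS (d2.and hS (e1.and hS (e2.and hS (e3.and hS (e4.and hS d3)))))).congr ?_
  rintro ⟨m, s⟩
  constructor
  · rintro ⟨h1, h2, h3, h4, h5, h6, h7⟩
    exact ⟨h1, h2, ⟨fun x hx => h3 x hx.2 hx.1,
      fun x hx y hy z hz => h4 x hx.2 y hy.2 z hz.2 hx.1 hy.1 hz.1,
      fun x hx y hy => h5 x hx.2 y hy.2 hx.1 hy.1,
      fun x hx y hy => h6 x hx.2 y hy.2 hx.1 hy.1⟩,
      fun x hx y hy => h7 x hx y hy⟩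
  · rintro ⟨h1, h2, h3, h4⟩
    exact ⟨h1, h2, fun a ha hq => h3.irrefl a ⟨hq, ha⟩,
      fun a ha b hb c hc qa qb qc => h3.trans a ⟨qa, ha⟩ b ⟨qb, hb⟩ c ⟨qc, hc⟩,
      fun a ha b hb qa qb => h3.total a ⟨qa, ha⟩ b ⟨qb, hb⟩,
      fun a ha b hb qa qb => h3.ext a ⟨qa, ha⟩ b ⟨qb, hb⟩,
      fun a ha b hb => h4 a ha b hb⟩

theorem dec_hTree (hr : PO N r) (hQ : Q ∈ N) (p : BC Kst r N Q W) {v : ℕ × ℕ → ℕ → Prop}
    (hv : Dec p.I (fun x : (ℕ × ℕ) × ℕ => v x.1 x.2)) {q : ℕ → List Bool → Prop}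
    (hq : Dec p.I (fun x : ℕ × List Bool => q x.1 x.2)) : Dec p.I (HTree p v q) := by
  have hS := p.good.ideal
  have hQI : Q ∈ p.I := p.sub hQ
  have hrI : Dec p.I (fun x : ℕ × ℕ => r x.1 x.2) := hr.dec.mono p.sub
  have hO := p.O_mem hQ
  have len : Primrec (fun x : ℕ × List Bool => x.2.length) :=
    Primrec.list_length.comp Primrec.snd
  have k1 : Primrec (fun z : (ℕ × List Bool) × ℕ => z.1.1) := Primrec.fst.comp Primrec.fst
  have t1 : Primrec (fun z : (ℕ × List Bool) × ℕ => z.1.2) := Primrec.snd.comp Primrec.fst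
  have a1 : Primrec (fun z : (ℕ × List Bool) × ℕ => z.2) := Primrec.snd
  have k2 : Primrec (fun z : ((ℕ × List Bool) × ℕ) × ℕ => z.1.1.1) := k1.comp Primrec.fst
  have t2 : Primrec (fun z : ((ℕ × List Bool) × ℕ) × ℕ => z.1.1.2) := t1.comp Primrec.fst
  have a2 : Primrec (fun z : ((ℕ × List Bool) × ℕ) × ℕ => z.1.2) := a1.comp Primrec.fst
  have b2 : Primrec (fun z : ((ℕ × List Bool) × ℕ) × ℕ => z.2) := Primrec.snd
  have ball1 : ∀ {P : (ℕ × List Bool) → ℕ → Prop},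
      Dec p.I (fun z : (ℕ × List Bool) × ℕ => P z.1 z.2) →
      Dec p.I (fun x : ℕ × List Bool => ∀ a < x.2.length, P x a) := fun h =>
    Dec.ball hS (b := fun x : ℕ × List Bool => x.2.length) len h
  have ball2 : ∀ {P : (ℕ × List Bool) → ℕ → ℕ → Prop},
      Dec p.I (fun z : ((ℕ × List Bool) × ℕ) × ℕ => P z.1.1 z.1.2 z.2) →
      Dec p.I (fun x : ℕ × List Bool => ∀ a < x.2.length, ∀ b < x.2.length, P x a b) :=
    fun {P} h => ball1 (P := fun x a => ∀ b < x.2.length, P x a b)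
      (Dec.ball hS (p := fun (z : (ℕ × List Bool) × ℕ) b => P z.1 z.2 b)
        (b := fun z : (ℕ × List Bool) × ℕ => z.1.2.length) (len.comp Primrec.fst) h)
  have c1 : Dec p.I (fun x : ℕ × List Bool =>
      ∀ a < x.2.length, x.2.getI a = true → a ∈ Q) :=
    ball1 (P := fun x a => x.2.getI a = true → a ∈ Q)
      ((dec_get hS t1 a1).imp hS (Dec.mem hS hQI a1))
  have c2 : Dec p.I (fun x : ℕ × List Bool => ∀ a < x.2.length, ∀ b < x.2.length,
      x.2.getI a = true → b ∈ Q → r a b → x.2.getI b = true) :=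
    ball2 (P := fun x a b => x.2.getI a = true → b ∈ Q → r a b → x.2.getI b = true)
      ((dec_get hS t2 a2).imp hS ((Dec.mem hS hQI b2).imp hS
        ((dec_comp2 hS hrI a2 b2).imp hS (dec_get hS t2 b2))))
  have c3 : Dec p.I (fun x : ℕ × List Bool => ∀ a < x.2.length, ∀ t < x.2.length,
      v (x.1, a) t → ¬ x.2.getI a = true) :=
    ball2 (P := fun x a t => v (x.1, a) t → ¬ x.2.getI a = true)
      ((hv.comp₂ hS (p := fun (y : ℕ × ℕ) (t : ℕ) => v y t) (k2.pair a2) b2).imp hS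
        ((dec_get hS t2 a2).not hS))
  -- the last clause, first for a given string and a given size
  have c4 : Dec p.I (fun y : (ℕ × List Bool) × List Bool =>
      ∀ m < y.1.2.length, Compat p m y.2 → q y.1.1 y.2 →
      ∃ a < m, ∃ b < m, a ∈ p.O ∧ b ∈ p.O ∧ rel y.2 a b ∧ y.1.2.getI a = true ∧
        ¬ y.1.2.getI b = true) := by
    have g1 : Primrec (fun z : ((ℕ × List Bool) × List Bool) × ℕ => z.1.1.1) :=
      (Primrec.fst.comp Primrec.fst).comp Primrec.fst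
    have g2 : Primrec (fun z : ((ℕ × List Bool) × List Bool) × ℕ => z.1.2) :=
      Primrec.snd.comp Primrec.fst
    have g3 : Primrec (fun z : ((ℕ × List Bool) × List Bool) × ℕ => z.2) := Primrec.snd
    have f1 : Primrec (fun z : ((((ℕ × List Bool) × List Bool) × ℕ) × ℕ) × ℕ => z.1.1.1.1.2) :=
      ((((Primrec.snd.comp Primrec.fst).comp Primrec.fst).comp Primrec.fst).comp Primrec.fst)
    have f2 : Primrec (fun z : ((((ℕ × List Bool) × List Bool) × ℕ) × ℕ) × ℕ => z.1.1.1.2) :=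
      (((Primrec.snd.comp Primrec.fst).comp Primrec.fst).comp Primrec.fst)
    have f3 : Primrec (fun z : ((((ℕ × List Bool) × List Bool) × ℕ) × ℕ) × ℕ => z.1.2) :=
      Primrec.snd.comp Primrec.fst
    have f4 : Primrec (fun z : ((((ℕ × List Bool) × List Bool) × ℕ) × ℕ) × ℕ => z.2) :=
      Primrec.snd
    refine Dec.ball hS (p := fun (y : (ℕ × List Bool) × List Bool) m =>
      Compat p m y.2 → q y.1.1 y.2 →
      ∃ a < m, ∃ b < m, a ∈ p.O ∧ b ∈ p.O ∧ rel y.2 a b ∧ y.1.2.getI a = true ∧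
        ¬ y.1.2.getI b = true) (b := fun y : (ℕ × List Bool) × List Bool => y.1.2.length)
      (len.comp Primrec.fst) ?_
    refine ((dec_compat hr hQ p).comp₂ hS (p := fun m s => Compat p m s) g3 g2).imp hS
      ((hq.comp₂ hS (p := fun k s => q k s) g1 g2).imp hS ?_)
    refine Dec.bex hS (p := fun (z : ((ℕ × List Bool) × List Bool) × ℕ) a =>
      ∃ b < z.2, a ∈ p.O ∧ b ∈ p.O ∧ rel z.1.2 a b ∧ z.1.1.2.getI a = true ∧
        ¬ z.1.1.2.getI b = true) (b := fun z => z.2) Primrec.snd ?_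
    refine Dec.bex hS (p := fun (z : (((ℕ × List Bool) × List Bool) × ℕ) × ℕ) b =>
      z.2 ∈ p.O ∧ b ∈ p.O ∧ rel z.1.1.2 z.2 b ∧ z.1.1.1.2.getI z.2 = true ∧
        ¬ z.1.1.1.2.getI b = true) (b := fun z => z.1.2) (Primrec.snd.comp Primrec.fst) ?_
    exact (Dec.mem hS hO f3).and hS ((Dec.mem hS hO f4).and hS ((dec_rel hS f2 f3 f4).and hS
      ((dec_get hS f1 f3).and hS ((dec_get hS f1 f4).not hS))))
  have c5 : Dec p.I (fun x : ℕ × List Bool => ∀ c < x.2.length,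
      ∀ s ∈ (decode c : Option (List Bool)), ∀ m < x.2.length,
      Compat p m s → q x.1 s →
      ∃ a < m, ∃ b < m, a ∈ p.O ∧ b ∈ p.O ∧ rel s a b ∧ x.2.getI a = true ∧
        ¬ x.2.getI b = true) :=
    ball1 (P := fun x c => ∀ s ∈ (decode c : Option (List Bool)), ∀ m < x.2.length,
      Compat p m s → q x.1 s →
      ∃ a < m, ∃ b < m, a ∈ p.O ∧ b ∈ p.O ∧ rel s a b ∧ x.2.getI a = true ∧
        ¬ x.2.getI b = true)
      (Dec.allDecode hS (p := fun (x : ℕ × List Bool) (s : List Bool) =>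
        ∀ m < x.2.length, Compat p m s → q x.1 s →
        ∃ a < m, ∃ b < m, a ∈ p.O ∧ b ∈ p.O ∧ rel s a b ∧ x.2.getI a = true ∧
        ¬ x.2.getI b = true) c4)
  exact (c1.and hS (c2.and hS (c3.and hS c5)))

end Pool.Agent.H654
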