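import Pool.Agent.H654.Spec

/-!
Forcing a descending sequence which does not semidecide the complement of the enumerated set.
-/

namespace Pool.Agent.H654

open Encodable

variable {Kst : ℕ → ℕ → Prop} {r : ℕ → ℕ → Prop} {N N' : Set (Set ℕ)} {A B : Set ℕ}

theorem Sol.monoD (h : Sol Kst r N A) (hN : N ⊆ N') : Sol Kst r N' A :=
  fun M hM hM' => h M hM (hN.trans hM')

theorem Sol.subsetD (h : Sol Kst r N A) (hB : B ⊆ A) : Sol Kst r N B := by
  intro M hM hM'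
  obtain ⟨M', h1, h2, L, h3, h4, h5⟩ := h M hM hM'
  refine ⟨M', h1, h2, L, h3, ⟨fun x hx => h4.irrefl x (hB hx),
    fun x hx y hy z hz => h4.trans x (hB hx) y (hB hy) z (hB hz),
    fun x hx y hy => h4.total x (hB hx) y (hB hy), fun x hx y hy => h4.ext x (hB hx) y (hB hy)⟩, ?_⟩
  intro D hD
  exact h5 D ⟨fun i => hB (hD.1 i), hD.2⟩

theorem Sol.emptyD : Sol Kst r N ∅ := by
  intro M hM hM'
  refine ⟨M, hM, subset_rfl, fun _ _ => False, Dec.const hM.ideal False,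
    ⟨fun x hx => hx.elim, fun x hx => hx.elim, fun x hx => hx.elim, fun x hx => hx.elim⟩, ?_⟩
  intro D hD
  exact (hD.1 0).elim

theorem PO.monoD (hr : PO N r) (h : N ⊆ N') : PO N' r := ⟨hr.dec.mono h, hr.irrefl, hr.trans⟩

/-- the initial segment below a point -/
theorem below_mem (hN : Ideal N) (hr : PO N r) {Q : Set ℕ} (hQ : Q ∈ N) (x : ℕ) :
    {y | y ∈ Q ∧ r y x} ∈ N := by
  refine dec_set.1 ?_
  refine (((dec_set.2 hQ)).and hN (hr.dec.comp₂ hN (f := fun y : ℕ => y) (g := fun _ : ℕ => x)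
    Primrec.id (Primrec.const x))).congr fun y => Iff.rfl

theorem lemmaA (hB : LemmaB Kst) (hN : Good Kst N) (hr : PO N r) {Q : Set ℕ} (hQ : Q ∈ N)
    (h : ∀ x ∈ Q, Sol Kst r N {y | y ∈ Q ∧ r y x}) : Sol Kst r N Q := by
  have hd : Dec N (fun x : ℕ × ℕ => x.2 ∈ Q) := Dec.mem hN.ideal hQ Primrec.snd
  refine hB N hN r hr Q hQ (fun _ x => x ∈ Q) (hd.sig hN.ideal) (fun _ _ h => h)
    (fun _ _ _ _ h _ => h) (fun x => x ∈ Q) (fun _ _ h => h) (fun _ _ _ h => h) h ?_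
    (fun _ x => x ∈ Q) hd (fun _ _ h => h) (fun _ _ _ _ h _ => h) (fun _ _ _ h => h)
    (fun _ _ _ h => h)
  intro M _ _ k _ A _ _ _ hA
  have : Q \ A = ∅ := by
    ext x
    simp only [Set.mem_sdiff, Set.mem_empty_iff_false, iff_false, not_and, not_not]
    exact hA x
  rw [this]
  exact Sol.emptyD

/-- A forcing condition: an ideal, a finite descending sequence and a reservoir. -/
structure DCond (Kst : ℕ → ℕ → Prop) (r : ℕ → ℕ → Prop) (N : Set (Set ℕ)) (P : Set ℕ) where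
  I : Set (Set ℕ)
  σ : List ℕ
  Q : Set ℕ
  good : Good Kst I
  sub : N ⊆ I
  pw : σ.Pairwise (fun a b => r b a)
  inP : ∀ x ∈ σ, x ∈ P
  QI : Q ∈ I
  QP : Q ⊆ P
  below : ∀ x ∈ Q, ∀ y ∈ σ, r x y
  nsol : ¬ Sol Kst r I Q

variable {P : Set ℕ}

instance : Preorder (DCond Kst r N P) where
  le c c' := c.I ⊆ c'.I ∧ c'.Q ⊆ c.Q ∧ ∃ ρ, c'.σ = c.σ ++ ρ ∧ ∀ x ∈ ρ, x ∈ c.Q
  le_refl c := ⟨subset_rfl, subset_rfl, [], by simp, by simp⟩
  le_trans := by
    rintro a b c ⟨h1, h2, ρ, h3, h4⟩ ⟨h5, h6, ρ', h7, h8⟩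
    refine ⟨h1.trans h5, h6.trans h2, ρ ++ ρ', by rw [h7, h3, List.append_assoc], ?_⟩
    intro x hx
    rcases List.mem_append.1 hx with hx | hx
    · exact h4 x hx
    · exact h2 (h8 x hx)

theorem DCond.le_def {c c' : DCond Kst r N P} : c ≤ c' ↔
    c.I ⊆ c'.I ∧ c'.Q ⊆ c.Q ∧ ∃ ρ, c'.σ = c.σ ++ ρ ∧ ∀ x ∈ ρ, x ∈ c.Q := Iff.rfl

theorem DCond.isPfx {c c' : DCond Kst r N P} (h : c ≤ c') : c.σ <+: c'.σ := by
  obtain ⟨_, _, ρ, h, _⟩ := h
  exact ⟨ρ, h.symm⟩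

/-- extend a condition by a nonempty descending sequence `ρ ++ [z]` of elements of the reservoir -/
theorem DCond.extend (hr : PO N r) (c : DCond Kst r N P) (ρ : List ℕ) (z : ℕ)
    (hpw : (ρ ++ [z]).Pairwise (fun a b => r b a)) (hQ : ∀ x ∈ ρ ++ [z], x ∈ c.Q)
    (hs : ¬ Sol Kst r c.I {y | y ∈ c.Q ∧ r y z}) :
    ∃ c' : DCond Kst r N P, c ≤ c' ∧ c'.σ = c.σ ++ (ρ ++ [z]) := by
  refine ⟨⟨c.I, c.σ ++ (ρ ++ [z]), {y | y ∈ c.Q ∧ r y z}, c.good, c.sub, ?_, ?_,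
    below_mem c.good.ideal (hr.monoD c.sub) c.QI z, fun x hx => c.QP hx.1, ?_, hs⟩, ?_, rfl⟩
  · rw [List.pairwise_append]
    exact ⟨c.pw, hpw, fun a ha b hb => c.below b (hQ b hb) a ha⟩
  · intro x hx
    rcases List.mem_append.1 hx with hx | hx
    · exact c.inP x hx
    · exact c.QP (hQ x hx)
  · rintro x ⟨hx, hxz⟩ y hy
    rcases List.mem_append.1 hy with hy | hy
    · exact c.below x hx y hy
    · rcases List.mem_append.1 hy with hy | hy
      · rw [List.pairwise_append] at hpw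
        exact hr.trans _ _ _ hxz (hpw.2.2 y hy z (by simp))
      · rw [List.mem_singleton] at hy
        rw [hy]; exact hxz
  · exact ⟨subset_rfl, fun x hx => hx.1, ρ ++ [z], rfl, hQ⟩

theorem DCond.exists_length (hB : LemmaB Kst) (hr : PO N r) (c : DCond Kst r N P) (n : ℕ) :
    ∃ c' : DCond Kst r N P, c ≤ c' ∧ n ≤ c'.σ.length := by
  induction n with
  | zero => exact ⟨c, le_rfl, Nat.zero_le _⟩
  | succ n ih =>
    obtain ⟨c₁, h1, h2⟩ := ih
    by_contra hcon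
    refine c₁.nsol (lemmaA hB c₁.good (hr.monoD c₁.sub) c₁.QI fun x hx => ?_)
    by_contra hs
    obtain ⟨c₂, h3, h4⟩ := c₁.extend hr [] x (by simp) (by simpa using hx) hs
    refine hcon ⟨c₂, h1.trans h3, ?_⟩
    rw [h4]
    simp
    omega

/-- the requirement given by `q` is met -/
def DoneQ (q : ℕ → List ℕ → Prop) (c : DCond Kst r N P) : Prop :=
  (∃ k, KK Kst k ∧ q k c.σ) ∨
    ∃ k, ¬ KK Kst k ∧ ∀ ρ : List ℕ, (∀ x ∈ ρ, x ∈ c.Q) →
      (c.σ ++ ρ).Pairwise (fun a b => r b a) → ¬ q k (c.σ ++ ρ)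

/-- `ρ ++ [z]` is a descending sequence of the reservoir forcing `q k` -/
def GG (r : ℕ → ℕ → Prop) (Q : Set ℕ) (σ : List ℕ) (q : ℕ → List ℕ → Prop) (k : ℕ)
    (p : List ℕ × ℕ) : Prop :=
  (p.1 ++ [p.2]).Pairwise (fun a b => r b a) ∧ (∀ x ∈ p.1 ++ [p.2], x ∈ Q) ∧
    q k (σ ++ (p.1 ++ [p.2]))

theorem dec_pairwise (hN : Ideal N) (hr : PO N r) :
    Dec N (fun l : List ℕ => l.Pairwise (fun a b => r b a)) := by
  have h1 : Dec N (fun x : (List ℕ × ℕ) × ℕ => x.1.2 < x.2 → r (x.1.1.getI x.2) (x.1.1.getI x.1.2)) :=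
    (Dec.lt hN (Primrec.snd.comp Primrec.fst) Primrec.snd).imp hN
      (hr.dec.comp₂ hN (Primrec.list_getI.comp (Primrec.fst.comp Primrec.fst) Primrec.snd)
        (Primrec.list_getI.comp (Primrec.fst.comp Primrec.fst) (Primrec.snd.comp Primrec.fst)))
  have h2 : Dec N (fun x : List ℕ × ℕ => ∀ j < x.1.length, x.2 < j → r (x.1.getI j) (x.1.getI x.2)) :=
    Dec.ball hN (p := fun (x : List ℕ × ℕ) j => x.2 < j → r (x.1.getI j) (x.1.getI x.2))
      (Primrec.list_length.comp Primrec.fst) h1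
  refine (Dec.ball hN (p := fun (x : List ℕ) i => ∀ j < x.length, i < j → r (x.getI j) (x.getI i))
    Primrec.list_length h2).congr fun l => ?_
  rw [List.pairwise_iff_getElem]
  constructor
  · intro h i j hi hj hij
    have := h i hi j hj hij
    rwa [List.getI_eq_getElem _ hi, List.getI_eq_getElem _ hj] at this
  · intro h i hi j hj hij
    rw [List.getI_eq_getElem _ hi, List.getI_eq_getElem _ hj]
    exact h i j hi hj hij

theorem dec_GG (hN : Ideal N) (hr : PO N r) {Q : Set ℕ} (hQ : Q ∈ N) (σ : List ℕ)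
    {q : ℕ → List ℕ → Prop} (hq : Dec N (fun x : ℕ × List ℕ => q x.1 x.2)) :
    Dec N (fun x : ℕ × (List ℕ × ℕ) => GG r Q σ q x.1 x.2) := by
  have hp : Primrec (fun x : ℕ × (List ℕ × ℕ) => x.2.1 ++ [x.2.2]) :=
    Primrec.list_append.comp (Primrec.fst.comp Primrec.snd)
      (Primrec.list_cons.comp (Primrec.snd.comp Primrec.snd) (Primrec.const []))
  refine Dec.and hN ((dec_pairwise hN hr).comp hN hp) (Dec.and hN ?_ ?_)
  · exact Dec.ballList hN (p := fun (_ : ℕ × (List ℕ × ℕ)) x => x ∈ Q) hp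
      (Dec.mem hN hQ Primrec.snd)
  · exact hq.comp₂ hN Primrec.fst (Primrec.list_append.comp (Primrec.const σ) hp)

section
variable {α β : Type} [Primcodable α] [Primcodable β]

theorem Dec.exDecode (hS : Ideal N) {p : α → β → Prop}
    (h : Dec N (fun x : α × β => p x.1 x.2)) {f : α → ℕ} (hf : Primrec f) :
    Dec N (fun a => ∃ b ∈ (decode (α := β) (f a)), p a b) := by
  obtain ⟨X, hX, hXq⟩ := h
  have e : Primrec (fun a : α =>
      ((decode (α := β) (f a)).map fun b => encode ((a, b) : α × β) + 1).getD 0) := by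
    refine Primrec.option_getD.comp (Primrec.option_map
      (Primrec.decode.comp hf) ?_) (Primrec.const 0)
    exact Primrec.succ.comp (Primrec.encode.comp Primrec.id)
  have hX' : Dec N (fun n : ℕ => n ≠ 0 ∧ n - 1 ∈ X) :=
    ((Dec.eq hS Primrec.id (Primrec.const 0)).not hS).and hS (Dec.mem hS hX Primrec.pred)
  refine (hX'.comp hS e).congr ?_
  intro a
  rcases hd : (decode (α := β) (f a)) with _ | b
  · simp
  · have := hXq (a, b)
    simpa using this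

/-- a class given by decidable conditions with primitive recursive use has a member in a
Scott ideal -/
theorem Scott.exists_class (hN : Ideal N) (hs : Scott N) {u : β → ℕ} (hu : Primrec u)
    {Φ : List Bool → β → Prop} (hΦ : Dec N (fun x : List Bool × β => Φ x.1 x.2))
    {Φ' : (ℕ → Bool) → β → Prop} (hΦ' : ∀ Z d n, u d ≤ n → (Φ (pfx Z n) d ↔ Φ' Z d))
    (h : ∃ Z, ∀ d, Φ' Z d) : ∃ Z : ℕ → Bool, {n | Z n = true} ∈ N ∧ ∀ d, Φ' Z d := by
  have h1 : Dec N (fun x : (List Bool × ℕ) × β => u x.2 ≤ x.1.1.length ∧ ¬ Φ x.1.1 x.2) :=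
    (Dec.le hN (hu.comp Primrec.snd) (Primrec.list_length.comp (Primrec.fst.comp Primrec.fst))).and
      hN ((hΦ.comp₂ hN (Primrec.fst.comp Primrec.fst) Primrec.snd).not hN)
  have h2 : Dec N (fun x : List Bool × ℕ =>
      ¬ ∃ d ∈ decode (α := β) x.2, u d ≤ x.1.length ∧ ¬ Φ x.1 d) :=
    (Dec.exDecode hN (p := fun (x : List Bool × ℕ) d => u d ≤ x.1.length ∧ ¬ Φ x.1 d) h1
      (f := fun x => x.2) Primrec.snd).not hN
  have h3 : Dec N (fun τ : List Bool => ∀ i < τ.length,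
      ¬ ∃ d ∈ decode (α := β) i, u d ≤ τ.length ∧ ¬ Φ τ d) :=
    Dec.ball hN (p := fun (τ : List Bool) i =>
      ¬ ∃ d ∈ decode (α := β) i, u d ≤ τ.length ∧ ¬ Φ τ d) Primrec.list_length h2
  have key : ∀ Z : ℕ → Bool, (∀ n, ∀ i < (pfx Z n).length,
      ¬ ∃ d ∈ decode (α := β) i, u d ≤ (pfx Z n).length ∧ ¬ Φ (pfx Z n) d) ↔ ∀ d, Φ' Z d := by
    intro Z
    constructor
    · intro H d
      by_contra hd
      refine H (max (encode d) (u d) + 1) (encode d) ?_ ⟨d, by simp, ?_, ?_⟩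
      · simp only [pfx_length]; omega
      · simp only [pfx_length]; omega
      · rw [hΦ' Z d _ (by omega)]
        exact hd
    · rintro H n i - ⟨d, -, hd, hd'⟩
      rw [pfx_length] at hd
      rw [hΦ' Z d n hd] at hd'
      exact hd' (H d)
  obtain ⟨Z, hZ⟩ := h
  obtain ⟨Z', hZ', hp⟩ := hs _ h3 ⟨Z, (key Z).2 hZ⟩
  exact ⟨Z', hZ', (key Z').1 hp⟩

end

theorem prim_Kst (hK : Enum Kst) (hN : Ideal N) : Dec N (fun x : ℕ × ℕ => Kst x.1 x.2) :=
  Dec.of_prim hN hK.prim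

/-- `x` is in the downward closure of the elements generated by stage `s` -/
def Down (Kst : ℕ → ℕ → Prop) (r : ℕ → ℕ → Prop) (G : ℕ → List ℕ × ℕ → Prop) (k s x : ℕ) : Prop :=
  ∃ c < s, ∃ p ∈ decode (α := List ℕ × ℕ) c,
    (x = p.2 ∨ r x p.2) ∧ (G k p ∨ ∃ j < s, Kst s j ∧ G j p)

theorem dec_Down (hK : Enum Kst) (hN : Ideal N) (hr : PO N r) {G : ℕ → List ℕ × ℕ → Prop}
    (hG : Dec N (fun x : ℕ × (List ℕ × ℕ) => G x.1 x.2)) :
    Dec N (fun x : ℕ × ℕ × ℕ => Down Kst r G x.1 x.2.1 x.2.2) := by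
  -- variables: a = (((k, s, x), c), p)
  have pk : Primrec (fun a : ((ℕ × ℕ × ℕ) × ℕ) × (List ℕ × ℕ) => a.1.1.1) :=
    Primrec.fst.comp (Primrec.fst.comp Primrec.fst)
  have ps : Primrec (fun a : ((ℕ × ℕ × ℕ) × ℕ) × (List ℕ × ℕ) => a.1.1.2.1) :=
    Primrec.fst.comp (Primrec.snd.comp (Primrec.fst.comp Primrec.fst))
  have px : Primrec (fun a : ((ℕ × ℕ × ℕ) × ℕ) × (List ℕ × ℕ) => a.1.1.2.2) :=
    Primrec.snd.comp (Primrec.snd.comp (Primrec.fst.comp Primrec.fst))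
  have pz : Primrec (fun a : ((ℕ × ℕ × ℕ) × ℕ) × (List ℕ × ℕ) => a.2.2) :=
    Primrec.snd.comp Primrec.snd
  have h1 : Dec N (fun a : ((ℕ × ℕ × ℕ) × ℕ) × (List ℕ × ℕ) =>
      (a.1.1.2.2 = a.2.2 ∨ r a.1.1.2.2 a.2.2)) :=
    (Dec.eq hN px pz).or hN (hr.dec.comp₂ hN px pz)
  have h2 : Dec N (fun a : ((ℕ × ℕ × ℕ) × ℕ) × (List ℕ × ℕ) =>
      ∃ j < a.1.1.2.1, Kst a.1.1.2.1 j ∧ G j a.2) := by
    refine Dec.bex hN (p := fun (a : ((ℕ × ℕ × ℕ) × ℕ) × (List ℕ × ℕ)) j =>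
      Kst a.1.1.2.1 j ∧ G j a.2) ps ?_
    exact ((prim_Kst hK hN).comp₂ hN (ps.comp Primrec.fst) Primrec.snd).and hN
      (hG.comp₂ hN Primrec.snd (Primrec.snd.comp Primrec.fst))
  have h3 : Dec N (fun a : ((ℕ × ℕ × ℕ) × ℕ) × (List ℕ × ℕ) =>
      (a.1.1.2.2 = a.2.2 ∨ r a.1.1.2.2 a.2.2) ∧
        (G a.1.1.1 a.2 ∨ ∃ j < a.1.1.2.1, Kst a.1.1.2.1 j ∧ G j a.2)) :=
    h1.and hN ((hG.comp₂ hN pk Primrec.snd).or hN h2)
  have h4 := Dec.exDecode hN (p := fun (a : (ℕ × ℕ × ℕ) × ℕ) (p : List ℕ × ℕ) =>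
    (a.1.2.2 = p.2 ∨ r a.1.2.2 p.2) ∧ (G a.1.1 p ∨ ∃ j < a.1.2.1, Kst a.1.2.1 j ∧ G j p)) h3
    (f := fun a => a.2) Primrec.snd
  exact Dec.bex hN (p := fun (a : ℕ × ℕ × ℕ) c => ∃ p ∈ decode (α := List ℕ × ℕ) c,
    (a.2.2 = p.2 ∨ r a.2.2 p.2) ∧ (G a.1 p ∨ ∃ j < a.2.1, Kst a.2.1 j ∧ G j p))
    (b := fun a : ℕ × ℕ × ℕ => a.2.1) (Primrec.fst.comp Primrec.snd) h4

theorem Down.below {G : ℕ → List ℕ × ℕ → Prop} (hr : PO N r) {k s x y : ℕ}
    (h : Down Kst r G k s x) (hyx : r y x) : Down Kst r G k s y := by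
  obtain ⟨c, hc, p, hp, h1, h2⟩ := h
  refine ⟨c, hc, p, hp, Or.inr ?_, h2⟩
  rcases h1 with rfl | h1
  · exact hyx
  · exact hr.trans _ _ _ hyx h1

theorem Down.stage (hK : Enum Kst) {G : ℕ → List ℕ × ℕ → Prop} {k s t x : ℕ} (hst : s ≤ t)
    (h : Down Kst r G k s x) : Down Kst r G k t x := by
  obtain ⟨c, hc, p, hp, h1, h2⟩ := h
  refine ⟨c, lt_of_lt_of_le hc hst, p, hp, h1, ?_⟩
  rcases h2 with h2 | ⟨j, hj, h3, h4⟩
  · exact Or.inl h2
  · exact Or.inr ⟨j, lt_of_lt_of_le hj hst, hK.mono s t j hst h3, h4⟩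

/-- conditions describing the set `Z` of pairs `(k, x)` -/
def Phi (Kst : ℕ → ℕ → Prop) (r : ℕ → ℕ → Prop) (Q : Set ℕ) (G : ℕ → List ℕ × ℕ → Prop)
    (z : ℕ → Bool) (d : ℕ × ℕ × ℕ × ℕ) : Prop :=
  (z (Nat.pair d.1 d.2.2.1) = true → d.2.2.1 ∈ Q) ∧
  (z (Nat.pair d.1 d.2.2.1) = true → d.2.2.2 ∈ Q → r d.2.2.2 d.2.2.1 →
    z (Nat.pair d.1 d.2.2.2) = true) ∧
  (¬ Kst d.2.1 d.1 → d.2.2.1 ∈ Q → Down Kst r G d.1 d.2.1 d.2.2.1 →
    z (Nat.pair d.1 d.2.2.1) = true) ∧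
  (Kst d.2.1 d.1 → z (Nat.pair d.1 d.2.2.1) = true → Down Kst r G d.1 d.2.1 d.2.2.1)

theorem dec_Phi (hK : Enum Kst) (hN : Ideal N) (hr : PO N r) {Q : Set ℕ} (hQ : Q ∈ N)
    {G : ℕ → List ℕ × ℕ → Prop}
    (hG : Dec N (fun x : ℕ × (List ℕ × ℕ) => G x.1 x.2)) :
    Dec N (fun a : List Bool × (ℕ × ℕ × ℕ × ℕ) =>
      Phi Kst r Q G (fun i => a.1.getI i) a.2) := by
  have pk : Primrec (fun a : List Bool × (ℕ × ℕ × ℕ × ℕ) => a.2.1) :=
    Primrec.fst.comp Primrec.snd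
  have ps : Primrec (fun a : List Bool × (ℕ × ℕ × ℕ × ℕ) => a.2.2.1) :=
    Primrec.fst.comp (Primrec.snd.comp Primrec.snd)
  have px : Primrec (fun a : List Bool × (ℕ × ℕ × ℕ × ℕ) => a.2.2.2.1) :=
    Primrec.fst.comp (Primrec.snd.comp (Primrec.snd.comp Primrec.snd))
  have py : Primrec (fun a : List Bool × (ℕ × ℕ × ℕ × ℕ) => a.2.2.2.2) :=
    Primrec.snd.comp (Primrec.snd.comp (Primrec.snd.comp Primrec.snd))
  have zx : Dec N (fun a : List Bool × (ℕ × ℕ × ℕ × ℕ) =>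
      a.1.getI (Nat.pair a.2.1 a.2.2.2.1) = true) :=
    Dec.eq hN (Primrec.list_getI.comp Primrec.fst (Primrec₂.natPair.comp pk px))
      (Primrec.const true)
  have zy : Dec N (fun a : List Bool × (ℕ × ℕ × ℕ × ℕ) =>
      a.1.getI (Nat.pair a.2.1 a.2.2.2.2) = true) :=
    Dec.eq hN (Primrec.list_getI.comp Primrec.fst (Primrec₂.natPair.comp pk py))
      (Primrec.const true)
  have Qx : Dec N (fun a : List Bool × (ℕ × ℕ × ℕ × ℕ) => a.2.2.2.1 ∈ Q) := Dec.mem hN hQ px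
  have Qy : Dec N (fun a : List Bool × (ℕ × ℕ × ℕ × ℕ) => a.2.2.2.2 ∈ Q) := Dec.mem hN hQ py
  have ryx : Dec N (fun a : List Bool × (ℕ × ℕ × ℕ × ℕ) => r a.2.2.2.2 a.2.2.2.1) :=
    hr.dec.comp₂ hN py px
  have dK : Dec N (fun a : List Bool × (ℕ × ℕ × ℕ × ℕ) => Kst a.2.2.1 a.2.1) :=
    (prim_Kst hK hN).comp₂ hN ps pk
  have dD : Dec N (fun a : List Bool × (ℕ × ℕ × ℕ × ℕ) =>
      Down Kst r G a.2.1 a.2.2.1 a.2.2.2.1) :=
    (dec_Down hK hN hr hG).comp hN (f := fun a : List Bool × (ℕ × ℕ × ℕ × ℕ) =>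
      (a.2.1, a.2.2.1, a.2.2.2.1)) (pk.pair (ps.pair px))
  exact (zx.imp hN Qx).and hN ((zx.imp hN (Qy.imp hN (ryx.imp hN zy))).and hN
    (((dK.not hN).imp hN (Qx.imp hN (dD.imp hN zx))).and hN (dK.imp hN (zx.imp hN dD))))

/-- existence of the separating family -/
theorem exists_sep (hK : Enum Kst) (hN : Good Kst N) (hr : PO N r) {Q : Set ℕ} (hQ : Q ∈ N)
    {G : ℕ → List ℕ × ℕ → Prop}
    (hG : Dec N (fun x : ℕ × (List ℕ × ℕ) => G x.1 x.2)) :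
    ∃ Z : ℕ → Bool, {n | Z n = true} ∈ N ∧ ∀ d, Phi Kst r Q G Z d := by
  classical
  have hu : Primrec (fun d : ℕ × ℕ × ℕ × ℕ =>
      Nat.pair d.1 d.2.2.1 + Nat.pair d.1 d.2.2.2 + 1) := by
    have px : Primrec (fun a : ℕ × ℕ × ℕ × ℕ => a.2.2.1) :=
      Primrec.fst.comp (Primrec.snd.comp Primrec.snd)
    have py : Primrec (fun a : ℕ × ℕ × ℕ × ℕ => a.2.2.2) :=
      Primrec.snd.comp (Primrec.snd.comp Primrec.snd)
    exact Primrec.succ.comp (Primrec.nat_add.comp (Primrec₂.natPair.comp Primrec.fst px)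
      (Primrec₂.natPair.comp Primrec.fst py))
  refine Scott.exists_class hN.ideal hN.scott hu
    (Φ := fun τ d => Phi Kst r Q G (fun i => τ.getI i) d)
    (dec_Phi hK hN.ideal hr hQ hG) (Φ' := fun Z d => Phi Kst r Q G Z d) ?_ ?_
  · rintro Z ⟨k, s, x, y⟩ n hn
    simp only at hn
    have h1 : (pfx Z n).getI (Nat.pair k x) = Z (Nat.pair k x) := pfx_getI _ _ _ (by omega)
    have h2 : (pfx Z n).getI (Nat.pair k y) = Z (Nat.pair k y) := pfx_getI _ _ _ (by omega)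
    simp only [Phi, h1, h2]
  · -- the intended set
    let ZP : ℕ → ℕ → Prop := fun k x => x ∈ Q ∧
      ((¬ KK Kst k ∧ ∃ s, Down Kst r G k s x) ∨
        (∃ t, Kst t k ∧ (∀ s < t, ¬ Kst s k) ∧ Down Kst r G k t x))
    refine ⟨fun n => decide (ZP n.unpair.1 n.unpair.2), ?_⟩
    rintro ⟨k, s, x, y⟩
    simp only [Phi, decide_eq_true_eq, Nat.unpair_pair]
    refine ⟨fun h => h.1, ?_, ?_, ?_⟩
    · rintro ⟨_, h⟩ hy hyx
      refine ⟨hy, ?_⟩
      rcases h with ⟨h1, s, h2⟩ | ⟨t, h1, h2, h3⟩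
      · exact Or.inl ⟨h1, s, h2.below hr hyx⟩
      · exact Or.inr ⟨t, h1, h2, h3.below hr hyx⟩
    · intro h1 h2 h3
      refine ⟨h2, ?_⟩
      by_cases hk : KK Kst k
      · right
        have hk' : ∃ t, Kst t k := hk
        refine ⟨Nat.find hk', Nat.find_spec hk', fun s hs => Nat.find_min hk' hs, ?_⟩
        refine h3.stage hK ?_
        by_contra hlt
        exact h1 (hK.mono _ _ _ (by omega) (Nat.find_spec hk'))
      · exact Or.inl ⟨hk, s, h3⟩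
    · rintro h1 ⟨_, h⟩
      rcases h with ⟨h2, _⟩ | ⟨t, h2, h3, h4⟩
      · exact absurd ⟨s, h1⟩ h2
      · refine h4.stage hK ?_
        by_contra hlt
        exact h3 s (by omega) h1

theorem DCond.exists_doneQ (hK : Enum Kst) (hB : LemmaB Kst) (hr : PO N r) (c : DCond Kst r N P)
    {q : ℕ → List ℕ → Prop} (hq : Dec c.I (fun x : ℕ × List ℕ => q x.1 x.2))
    (hqm : ∀ k s t, s <+: t → q k s → q k t) :
    ∃ c' : DCond Kst r N P, c ≤ c' ∧ DoneQ q c' := by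
  by_contra hcon
  have hrI : PO c.I r := hr.monoD c.sub
  have hI : Ideal c.I := c.good.ideal
  let G : ℕ → List ℕ × ℕ → Prop := GG r c.Q c.σ q
  have hG : Dec c.I (fun x : ℕ × (List ℕ × ℕ) => G x.1 x.2) := dec_GG hI hrI c.QI c.σ hq
  have hGQ : ∀ k p, G k p → p.2 ∈ c.Q := fun k p h => h.2.1 p.2 (by simp)
  let B : ℕ → ℕ → Prop := fun k x => x ∈ c.Q ∧ ∃ p, G k p ∧ (x = p.2 ∨ r x p.2)
  let W : ℕ → Prop := fun x => ∃ j, KK Kst j ∧ B j x
  let V : ℕ → ℕ → Prop := fun k x => B k x ∨ W x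
  have sB : Sig c.I (fun x : ℕ × ℕ => B x.1 x.2) := by
    refine ((Dec.mem hI c.QI Primrec.snd).sig hI).and hI ?_
    refine Sig.exEnc hI (p := fun (x : ℕ × ℕ) p => G x.1 p ∧ (x.2 = p.2 ∨ r x.2 p.2))
      (Dec.sig hI ?_)
    have px : Primrec (fun a : (ℕ × ℕ) × (List ℕ × ℕ) => a.1.2) :=
      Primrec.snd.comp Primrec.fst
    have pz : Primrec (fun a : (ℕ × ℕ) × (List ℕ × ℕ) => a.2.2) :=
      Primrec.snd.comp Primrec.snd
    exact (hG.comp₂ hI (Primrec.fst.comp Primrec.fst) Primrec.snd).and hI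
      ((Dec.eq hI px pz).or hI (hrI.dec.comp₂ hI px pz))
  have sW : Sig c.I (fun x : ℕ => W x) := by
    refine Sig.ex hI (p := fun (x : ℕ) j => KK Kst j ∧ B j x) (Sig.and hI ?_ ?_)
    · refine Sig.ex hI (p := fun (x : ℕ × ℕ) s => Kst s x.2) (Dec.sig hI ?_)
      exact (prim_Kst hK hI).comp₂ hI Primrec.snd (Primrec.snd.comp Primrec.fst)
    · exact sB.comp hI (f := fun x : ℕ × ℕ => (x.2, x.1)) (Primrec.snd.pair Primrec.fst)
  have sV : Sig c.I (fun x : ℕ × ℕ => V x.1 x.2) := sB.or hI (sW.comp hI Primrec.snd)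
  have Bdown : ∀ k x y, B k x → y ∈ c.Q → r y x → B k y := by
    rintro k x y ⟨_, p, h1, h2⟩ hy hyx
    refine ⟨hy, p, h1, Or.inr ?_⟩
    rcases h2 with rfl | h2
    · exact hyx
    · exact hr.trans _ _ _ hyx h2
  have VQ : ∀ k x, V k x → x ∈ c.Q := by
    rintro k x (h | ⟨j, _, h⟩) <;> exact h.1
  have Vdown : ∀ k x y, V k x → y ∈ c.Q → r y x → V k y := by
    rintro k x y (h | ⟨j, hj, h⟩) hy hyx
    · exact Or.inl (Bdown _ _ _ h hy hyx)
    · exact Or.inr ⟨j, hj, Bdown _ _ _ h hy hyx⟩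
  have KVW : ∀ k x, KK Kst k → V k x → W x := by
    rintro k x hk (h | h)
    · exact ⟨k, hk, h⟩
    · exact h
  -- (i)
  have h1 : ∀ x, W x → Sol Kst r c.I {y | y ∈ c.Q ∧ r y x} := by
    rintro x ⟨j, hj, _, p, hp, hx⟩
    have hs : Sol Kst r c.I {y | y ∈ c.Q ∧ r y p.2} := by
      by_contra hs
      obtain ⟨c', hc', hσ⟩ := c.extend hr p.1 p.2 hp.1 hp.2.1 hs
      refine hcon ⟨c', hc', Or.inl ⟨j, hj, ?_⟩⟩
      rw [hσ]
      exact hp.2.2
    refine hs.subsetD ?_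
    rintro y ⟨hy, hyx⟩
    refine ⟨hy, ?_⟩
    rcases hx with rfl | hx
    · exact hyx
    · exact hr.trans _ _ _ hyx hx
  -- (ii)
  have h2 : ∀ N', Good Kst N' → c.I ⊆ N' → ∀ k, ¬ KK Kst k → ∀ A ∈ N', A ⊆ c.Q →
      (∀ x ∈ A, ∀ y ∈ c.Q, r y x → y ∈ A) → (∀ x, V k x → x ∈ A) → Sol Kst r N' (c.Q \ A) := by
    intro M hM hIM k hk A hA hAQ _ hVA
    by_contra hs
    have hQA : c.Q \ A ∈ M := by
      have := hM.ideal.inter c.Q (hIM c.QI) Aᶜ (hM.ideal.compl A hA)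
      rwa [← Set.sdiff_eq] at this
    refine hcon ⟨⟨M, c.σ, c.Q \ A, hM, c.sub.trans hIM, c.pw, c.inP, hQA,
      fun x hx => c.QP hx.1, fun x hx => c.below x hx.1, hs⟩,
      ⟨hIM, fun x hx => hx.1, [], by simp, by simp⟩, Or.inr ⟨k, hk, ?_⟩⟩
    intro ρ hρ hpw hqk
    rcases List.eq_nil_or_concat ρ with rfl | ⟨ρ', z, rfl⟩
    · apply hs
      have : c.Q \ A = ∅ := by
        ext x
        simp only [Set.mem_sdiff, Set.mem_empty_iff_false, iff_false, not_and, not_not]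
        intro hx
        refine hVA x (Or.inl ⟨hx, ([], x), ⟨by simp, by simpa using hx, ?_⟩, Or.inl rfl⟩)
        refine hqm k _ _ ?_ hqk
        simp
      rw [this]
      exact Sol.emptyD
    · rw [List.concat_eq_append] at hρ hpw hqk
      have hz : z ∈ c.Q \ A := hρ z (by simp)
      refine hz.2 (hVA z (Or.inl ⟨hz.1, (ρ', z), ⟨?_, fun x hx => (hρ x hx).1, hqk⟩, Or.inl rfl⟩))
      rw [List.pairwise_append] at hpw
      exact hpw.2.1
  obtain ⟨Z, hZ, hΦ⟩ := exists_sep hK c.good hrI c.QI hG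
  refine c.nsol (hB c.I c.good r hrI c.Q c.QI V sV VQ Vdown W (fun k x h => Or.inr h) KVW h1 h2
    (fun k x => Z (Nat.pair k x) = true) (Dec.mem hI hZ (f := fun x : ℕ × ℕ => Nat.pair x.1 x.2)
      Primrec₂.natPair) (fun k x h => (hΦ (k, 0, x, 0)).1 h)
    (fun k x y h hy hyx => (hΦ (k, 0, x, y)).2.1 h hy hyx) ?_ ?_)
  · -- V k ⊆ A k for k ∉ K
    rintro k x hk hV
    have hns : ∀ s, ¬ Kst s k := fun s hs => hk ⟨s, hs⟩
    rcases hV with ⟨hx, p, hp, hxp⟩ | ⟨j, ⟨t, ht⟩, hx, p, hp, hxp⟩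
    · exact (hΦ (k, encode p + 1, x, 0)).2.2.1 (hns _) hx
        ⟨encode p, Nat.lt_succ_self _, p, encodek p, hxp, Or.inl hp⟩
    · refine (hΦ (k, max (encode p) (max t j) + 1, x, 0)).2.2.1 (hns _) hx
        ⟨encode p, ?_, p, encodek p, hxp, Or.inr ⟨j, ?_, hK.mono t _ j ?_ ht, hp⟩⟩
      · show encode p < max (encode p) (max t j) + 1
        omega
      · show j < max (encode p) (max t j) + 1
        omega
      · show t ≤ max (encode p) (max t j) + 1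
        omega
  · rintro k x ⟨s, hs⟩ hA
    obtain ⟨e, _, p, _, h3, h4⟩ := (hΦ (k, s, x, 0)).2.2.2 hs hA
    have hx : x ∈ c.Q := (hΦ (k, s, x, 0)).1 hA
    rcases h4 with h4 | ⟨j, _, h5, h6⟩
    · exact ⟨k, ⟨s, hs⟩, hx, p, h4, h3⟩
    · exact ⟨j, ⟨s, h5⟩, hx, p, h6, h3⟩

theorem lemmaD {Kst : ℕ → ℕ → Prop} (hK : Enum Kst) (hB : LemmaB Kst)
    (hC : ∀ S, Ideal S → S.Countable → Av Kst S → ∃ S', Good Kst S' ∧ S ⊆ S') :
    LemmaD Kst := by
  intro N hN r hr P hP hns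
  let Q : Set ℕ → ℕ → List ℕ → Prop := fun X k s => encode ((k, s) : ℕ × List ℕ) ∈ X
  have hQd : ∀ {I : Set (Set ℕ)} (_ : Ideal I) {X} (_ : X ∈ I),
      Dec I (fun x : ℕ × List ℕ => monoCl (Q X) x.1 x.2) := by
    intro I hI X hX
    exact dec_monoCl hI (q := Q X) ⟨X, hX, fun _ => Iff.rfl⟩
  let Task : DCond Kst r N P → Set (Set ℕ × ℕ) := fun c => c.I ×ˢ Set.univ
  let Done : Set ℕ × ℕ → DCond Kst r N P → Prop := fun t c =>
    DoneQ (monoCl (Q t.1)) c ∧ t.2 ≤ c.σ.length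
  let c0 : DCond Kst r N P := ⟨N, [], P, hN, subset_rfl, by simp, by simp, hP, subset_rfl,
    by simp, hns⟩
  obtain ⟨s, hs0, hsm, hs⟩ := sched Task (fun c => c.good.countable.prod Set.countable_univ)
    (fun c c' h t ht => ⟨(DCond.le_def.1 h).1 ht.1, ht.2⟩) Done (by
      rintro c ⟨X, n⟩ ⟨hX, _⟩
      obtain ⟨c₁, h1, h2⟩ := c.exists_length hB hr n
      obtain ⟨c₂, h3, h4⟩ := c₁.exists_doneQ hK hB hr (hQd c₁.good.ideal (h1.1 hX))
        (fun k s t hst => monoCl_mono hst)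
      exact ⟨c₂, h1.trans h3, h4, h2.trans (DCond.isPfx h3).length_le⟩) c0
  -- lengths
  have hemp : ∀ n, (∅ : Set ℕ) ∈ (s n).I := fun n => by
    have := (s n).good.ideal.prim (fun _ => False)
      (PrimrecPred.of_eq (p := fun _ : ℕ => (0:ℕ) = 1)
      (Primrec.eq.comp (Primrec.const 0) (Primrec.const 1)) (fun _ => by simp))
    simpa using this
  have hlen : ∀ n, ∃ m, n ≤ (s m).σ.length := fun n => by
    obtain ⟨m, _, h⟩ := hs 0 (∅, n) ⟨hemp 0, trivial⟩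
    exact ⟨m, h.2⟩
  choose f hf using hlen
  let D : ℕ → ℕ := fun i => (s (f (i + 1))).σ.getI i
  have hD : ∀ m, (s m).σ = pfx D (s m).σ.length := by
    intro m
    rw [pfx_eq_iff]
    refine ⟨rfl, fun i hi => ?_⟩
    have h1 : i < (s (f (i + 1))).σ.length := hf (i + 1)
    show _ = (s (f (i + 1))).σ.getI i
    rw [List.getI_eq_getElem _ h1]
    rcases le_total m (f (i + 1)) with h | h
    · exact (DCond.isPfx (hsm h)).getElem hi
    · exact ((DCond.isPfx (hsm h)).getElem h1).symm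
  have hDP : Desc P r D := by
    constructor
    · intro i
      have h1 : i < (s (f (i + 1))).σ.length := hf (i + 1)
      refine (s (f (i + 1))).inP _ ?_
      show (s (f (i + 1))).σ.getI i ∈ _
      rw [List.getI_eq_getElem _ h1]
      exact List.getElem_mem h1
    · intro i
      have h1 : i + 1 < (s (f (i + 2))).σ.length := hf (i + 2)
      have h2 := (List.pairwise_iff_getElem.1 (s (f (i + 2))).pw) i (i + 1) (by omega) h1
        (Nat.lt_succ_self i)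
      have h3 := pfx_eq_iff.1 (hD (f (i + 2)))
      rwa [h3.2 i (by omega), h3.2 (i + 1) h1] at h2
  let J : Set (Set ℕ) := ⋃ n, (s n).I
  have hJmono : Monotone fun n => (s n).I := fun n m h => (hsm h).1
  have hJ : Ideal J := ideal_iUnion (fun n => (s n).good.ideal) hJmono
  have hJc : J.Countable := Set.countable_iUnion fun n => (s n).good.countable
  have hav : Av Kst (ext J D) := by
    intro hsig
    obtain ⟨n, hn⟩ := sigO_iUnion (sigO_of_sig_ext hJ hsig)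
    obtain ⟨q, ⟨X, hX, hXq⟩, hq⟩ := hn
    have hqQ : ∀ k l, Q X k l ↔ q k l := fun k l => hXq (k, l)
    have hq' : ∀ k, ¬ KK Kst k ↔ ∃ n, monoCl (Q X) k (pfx D n) := by
      intro k
      rw [monoCl_pfx]
      exact (hq k).trans (exists_congr fun n => (hqQ k _).symm)
    obtain ⟨m, _, hdone, _⟩ := hs n (X, 0) ⟨hX, trivial⟩
    rcases hdone with ⟨k, hk, h1⟩ | ⟨k, hk, h1⟩
    · rw [hD m] at h1
      exact (hq' k).2 ⟨_, h1⟩ hk
    · obtain ⟨i, hi⟩ := (hq' k).1 hk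
      -- a late stage
      let l := max m (f i)
      have hl1 : m ≤ l := le_max_left _ _
      have hl2 : i ≤ (s l).σ.length :=
        (hf i).trans (DCond.isPfx (hsm (le_max_right m (f i)))).length_le
      obtain ⟨_, _, ρ, h3, h4⟩ := hsm hl1
      have h5 : monoCl (Q X) k (s l).σ := by
        refine monoCl_mono ?_ hi
        rw [hD l]
        exact pfx_prefix _ hl2
      rw [h3] at h5
      refine h1 ρ h4 ?_ h5
      rw [← h3]
      exact (s l).pw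
  obtain ⟨S', hS', hsub⟩ := hC (ext J D) (ideal_ext hJ D) (countable_ext hJc D) hav
  have hNJ : N ⊆ J := by
    have : N = (s 0).I := by rw [hs0]
    rw [this]
    exact Set.subset_iUnion (fun n => (s n).I) 0
  exact ⟨S', hS', (hNJ.trans (subset_ext hJ D)).trans hsub, D, hDP,
    (dec_graph_ext hJ D).mono hsub⟩

end Pool.Agent.H654
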