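import Pool.Agent.H654.Oracle

/-!
Avoidance of the complement of a computably enumerable set, Scott sets, and the basic notions
about linear extensions without descending sequences.
-/

namespace Pool.Agent.H654

open Encodable

/-- An enumeration: `Kst s k` says that `k` is enumerated by stage `s`. -/
structure Enum (Kst : ℕ → ℕ → Prop) : Prop where
  prim : PrimrecPred (fun x : ℕ × ℕ => Kst x.1 x.2)
  mono : ∀ s t k, s ≤ t → Kst s k → Kst t k

/-- the enumerated set -/
def KK (Kst : ℕ → ℕ → Prop) (k : ℕ) : Prop := ∃ s, Kst s k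

/-- the complement of the enumerated set is not semidecidable over `S` -/
def Av (Kst : ℕ → ℕ → Prop) (S : Set (Set ℕ)) : Prop := ¬ Sig S (fun k : ℕ => ¬ KK Kst k)

/-- every tree of `S` with a path has a path in `S` -/
def Scott (S : Set (Set ℕ)) : Prop :=
  ∀ T : List Bool → Prop, Dec S T → (∃ Z : ℕ → Bool, ∀ n, T (pfx Z n)) →
    ∃ Z : ℕ → Bool, {n | Z n = true} ∈ S ∧ ∀ n, T (pfx Z n)

/-- countable Scott ideals avoiding the complement of the enumerated set -/
structure Good (Kst : ℕ → ℕ → Prop) (S : Set (Set ℕ)) : Prop where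
  ideal : Ideal S
  countable : S.Countable
  av : Av Kst S
  scott : Scott S

/-- `L` is a strict linear order on `A` extending `r` on `A`. -/
structure LinExt (r : ℕ → ℕ → Prop) (A : Set ℕ) (L : ℕ → ℕ → Prop) : Prop where
  irrefl : ∀ x ∈ A, ¬ L x x
  trans : ∀ x ∈ A, ∀ y ∈ A, ∀ z ∈ A, L x y → L y z → L x z
  total : ∀ x ∈ A, ∀ y ∈ A, x ≠ y → L x y ∨ L y x
  ext : ∀ x ∈ A, ∀ y ∈ A, r x y → L x y

/-- `D` is an infinite `L`-descending sequence in `A`. -/
def Desc (A : Set ℕ) (L : ℕ → ℕ → Prop) (D : ℕ → ℕ) : Prop :=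
  (∀ i, D i ∈ A) ∧ ∀ i, L (D (i + 1)) (D i)

/-- Every infinite `L`-descending sequence in `A` semidecides the complement of the enumerated
set over `I`. -/
def Codes (Kst : ℕ → ℕ → Prop) (I : Set (Set ℕ)) (A : Set ℕ) (L : ℕ → ℕ → Prop) : Prop :=
  ∀ D : ℕ → ℕ, Desc A L D → SigO I D (fun k : ℕ => ¬ KK Kst k)

/-- Every good ideal above `N` has a good extension containing a linear extension of `r` on `A`
whose descending sequences are all coding. -/
def Sol (Kst : ℕ → ℕ → Prop) (r : ℕ → ℕ → Prop) (N : Set (Set ℕ)) (A : Set ℕ) : Prop :=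
  ∀ N', Good Kst N' → N ⊆ N' → ∃ N'', Good Kst N'' ∧ N' ⊆ N'' ∧
    ∃ L : ℕ → ℕ → Prop, Dec N'' (fun x : ℕ × ℕ => L x.1 x.2) ∧ LinExt r A L ∧ Codes Kst N'' A L

/-- `r` is a strict order relation of the ideal -/
structure PO (N : Set (Set ℕ)) (r : ℕ → ℕ → Prop) : Prop where
  dec : Dec N (fun x : ℕ × ℕ => r x.1 x.2)
  irrefl : ∀ x, ¬ r x x
  trans : ∀ x y z, r x y → r y z → r x z

end Pool.Agent.H654
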