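import Mathlib

/-!
Countable ideals of sets of natural numbers, closed under relative computability in the sense
of second-order arithmetic, with the classes of decidable and semidecidable predicates over an
ideal.
-/

namespace Pool.Agent.H654

open Encodable

/-- A collection of sets of numbers which contains the primitive recursive sets and is closed
under Boolean operations, primitive recursive preimages, bounded quantification and `Δ₁`
definability. -/
structure Ideal (S : Set (Set ℕ)) : Prop where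
  prim : ∀ p : ℕ → Prop, PrimrecPred p → {n | p n} ∈ S
  compl : ∀ X ∈ S, Xᶜ ∈ S
  inter : ∀ X ∈ S, ∀ Y ∈ S, X ∩ Y ∈ S
  pre : ∀ X ∈ S, ∀ f : ℕ → ℕ, Primrec f → f ⁻¹' X ∈ S
  ball : ∀ X ∈ S, {n | ∀ m < n.unpair.2, Nat.pair n.unpair.1 m ∈ X} ∈ S
  delta : ∀ X ∈ S, ∀ Y ∈ S,
    (∀ n, (∃ m, Nat.pair n m ∈ X) ↔ ¬ ∃ m, Nat.pair n m ∈ Y) → {n | ∃ m, Nat.pair n m ∈ X} ∈ S

variable {α β γ : Type} [Primcodable α] [Primcodable β] [Primcodable γ]
variable {S S' : Set (Set ℕ)}

/-- decidable over `S` -/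
def Dec (S : Set (Set ℕ)) (p : α → Prop) : Prop := ∃ X ∈ S, ∀ a, encode a ∈ X ↔ p a

/-- semidecidable over `S` -/
def Sig (S : Set (Set ℕ)) (p : α → Prop) : Prop :=
  ∃ q : α → ℕ → Prop, Dec S (fun x : α × ℕ => q x.1 x.2) ∧ ∀ a, p a ↔ ∃ n, q a n

theorem Dec.congr {p q : α → Prop} (h : Dec S p) (e : ∀ a, p a ↔ q a) : Dec S q := by
  obtain ⟨X, hX, h⟩ := h
  exact ⟨X, hX, fun a => (h a).trans (e a)⟩

theorem Dec.mono {p : α → Prop} (hS : S ⊆ S') (h : Dec S p) : Dec S' p := by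
  obtain ⟨X, hX, h⟩ := h
  exact ⟨X, hS hX, h⟩

theorem Sig.congr {p q : α → Prop} (h : Sig S p) (e : ∀ a, p a ↔ q a) : Sig S q := by
  obtain ⟨X, hX, h⟩ := h
  exact ⟨X, hX, fun a => (e a).symm.trans (h a)⟩

theorem Sig.mono {p : α → Prop} (hS : S ⊆ S') (h : Sig S p) : Sig S' p := by
  obtain ⟨X, hX, h⟩ := h
  exact ⟨X, hX.mono hS, h⟩

theorem dec_set {X : Set ℕ} : Dec S (fun n : ℕ => n ∈ X) ↔ X ∈ S := by
  constructor
  · rintro ⟨Y, hY, h⟩
    have : X = Y := by ext n; exact (h n).symm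
    rwa [this]
  · intro h; exact ⟨X, h, fun _ => Iff.rfl⟩

theorem Dec.not (hS : Ideal S) {p : α → Prop} (h : Dec S p) : Dec S (fun a => ¬ p a) := by
  obtain ⟨X, hX, h⟩ := h
  exact ⟨Xᶜ, hS.compl X hX, fun a => not_congr (h a)⟩

theorem Dec.and (hS : Ideal S) {p q : α → Prop} (h : Dec S p) (h' : Dec S q) :
    Dec S (fun a => p a ∧ q a) := by
  obtain ⟨X, hX, h⟩ := h
  obtain ⟨Y, hY, h'⟩ := h'
  exact ⟨X ∩ Y, hS.inter X hX Y hY, fun a => and_congr (h a) (h' a)⟩

theorem Dec.or (hS : Ideal S) {p q : α → Prop} (h : Dec S p) (h' : Dec S q) :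
    Dec S (fun a => p a ∨ q a) :=
  ((h.not hS).and hS (h'.not hS)).not hS |>.congr fun a => by tauto

theorem Dec.imp (hS : Ideal S) {p q : α → Prop} (h : Dec S p) (h' : Dec S q) :
    Dec S (fun a => p a → q a) :=
  (h.and hS (h'.not hS)).not hS |>.congr fun a => by tauto

theorem Dec.iff (hS : Ideal S) {p q : α → Prop} (h : Dec S p) (h' : Dec S q) :
    Dec S (fun a => (p a ↔ q a)) :=
  ((h.imp hS h').and hS (h'.imp hS h)).congr fun a => by tauto

theorem Dec.comp (hS : Ideal S) {p : β → Prop} (h : Dec S p) {f : α → β} (hf : Primrec f) :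
    Dec S (fun a => p (f a)) := by
  obtain ⟨X, hX, h⟩ := h
  refine ⟨(fun n => ((decode (α := α) n).map fun a => encode (f a)).getD 0) ⁻¹' X,
    hS.pre X hX _ ?_, fun a => ?_⟩
  · exact Primrec.option_getD.comp (Primrec.option_map Primrec.decode
      (Primrec.encode.comp (hf.comp Primrec.snd))) (Primrec.const 0)
  · simp [h]

theorem Dec.of_prim (hS : Ideal S) {p : α → Prop} (h : PrimrecPred p) : Dec S p := by
  classical
  have h1 : Dec S (fun n : ℕ => n = 1) :=
    dec_set.2 (hS.prim (fun n => n = 1) (Primrec.eq.comp Primrec.id (Primrec.const 1)))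
  have h2 : Primrec (fun a => if p a then 1 else 0 : α → ℕ) :=
    Primrec.ite h (Primrec.const 1) (Primrec.const 0)
  refine (h1.comp hS h2).congr fun a => ?_
  by_cases hp : p a <;> simp [hp]

theorem Dec.const (hS : Ideal S) (p : Prop) : Dec S (fun _ : α => p) := by
  classical
  by_cases h : p
  · exact (Dec.of_prim hS (PrimrecPred.of_eq (p := fun _ : α => (0:ℕ) = 0)
      (Primrec.eq.comp (Primrec.const 0) (Primrec.const 0)) (fun _ => by simp [h])))
  · exact (Dec.of_prim hS (PrimrecPred.of_eq (p := fun _ : α => (0:ℕ) = 1)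
      (Primrec.eq.comp (Primrec.const 0) (Primrec.const 1)) (fun _ => by simp [h])))

theorem Dec.eq (hS : Ideal S) [DecidableEq β] {f g : α → β} (hf : Primrec f) (hg : Primrec g) :
    Dec S (fun a => f a = g a) :=
  Dec.of_prim hS (Primrec.eq.comp hf hg)

theorem Dec.lt (hS : Ideal S) {f g : α → ℕ} (hf : Primrec f) (hg : Primrec g) :
    Dec S (fun a => f a < g a) :=
  Dec.of_prim hS (Primrec.nat_lt.comp hf hg)

theorem Dec.le (hS : Ideal S) {f g : α → ℕ} (hf : Primrec f) (hg : Primrec g) :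
    Dec S (fun a => f a ≤ g a) :=
  Dec.of_prim hS (Primrec.nat_le.comp hf hg)

theorem Dec.mem (hS : Ideal S) {X : Set ℕ} (hX : X ∈ S) {f : α → ℕ} (hf : Primrec f) :
    Dec S (fun a => f a ∈ X) := (dec_set.2 hX).comp hS hf

theorem Dec.comp₂ (hS : Ideal S) {p : β → γ → Prop} (h : Dec S (fun x : β × γ => p x.1 x.2))
    {f : α → β} (hf : Primrec f) {g : α → γ} (hg : Primrec g) :
    Dec S (fun a => p (f a) (g a)) := h.comp hS (hf.pair hg)

/-- bounded quantification -/
theorem Dec.ball (hS : Ideal S) {p : α → ℕ → Prop} {b : α → ℕ} (hb : Primrec b)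
    (h : Dec S (fun x : α × ℕ => p x.1 x.2)) : Dec S (fun a => ∀ n < b a, p a n) := by
  obtain ⟨X, hX, h⟩ := h
  have hY := hS.ball X hX
  refine ((dec_set.2 hY).comp hS (f := fun a : α => Nat.pair (encode a) (b a)) ?_).congr ?_
  · exact Primrec₂.natPair.comp Primrec.encode hb
  · intro a
    simp only [Set.mem_ofPred_eq, Nat.unpair_pair]
    exact forall_congr' fun n => imp_congr Iff.rfl (h (a, n))

theorem Dec.bex (hS : Ideal S) {p : α → ℕ → Prop} {b : α → ℕ} (hb : Primrec b)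
    (h : Dec S (fun x : α × ℕ => p x.1 x.2)) : Dec S (fun a => ∃ n < b a, p a n) :=
  ((Dec.ball hS (p := fun a n => ¬ p a n) hb (h.not hS)).not hS).congr fun a => by
    push Not; rfl

theorem Dec.ballList (hS : Ideal S) [Inhabited β] {p : α → β → Prop} {l : α → List β}
    (hl : Primrec l) (h : Dec S (fun x : α × β => p x.1 x.2)) :
    Dec S (fun a => ∀ b ∈ l a, p a b) := by
  have h1 : Primrec (fun x : α × ℕ => (l x.1).getI x.2) :=
    Primrec.list_getI.comp (hl.comp Primrec.fst) Primrec.snd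
  refine (Dec.ball hS (b := fun a => (l a).length) (p := fun a i => p a ((l a).getI i))
    (Primrec.list_length.comp hl) (h.comp₂ hS Primrec.fst h1)).congr fun a => ?_
  constructor
  · intro h b hb
    obtain ⟨i, hi, rfl⟩ := List.getElem_of_mem hb
    have := h i hi
    rwa [List.getI_eq_getElem _ hi] at this
  · intro h i hi
    rw [List.getI_eq_getElem _ hi]
    exact h _ (List.getElem_mem hi)

theorem Dec.bexList (hS : Ideal S) [Inhabited β] {p : α → β → Prop} {l : α → List β}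
    (hl : Primrec l) (h : Dec S (fun x : α × β => p x.1 x.2)) :
    Dec S (fun a => ∃ b ∈ l a, p a b) :=
  ((Dec.ballList hS (p := fun a n => ¬ p a n) hl (h.not hS)).not hS).congr fun a => by
    push Not; rfl

/-! ### semidecidable predicates -/

theorem Dec.sig (hS : Ideal S) {p : α → Prop} (h : Dec S p) : Sig S p :=
  ⟨fun a _ => p a, h.comp hS Primrec.fst, fun a => by simp⟩

theorem Sig.comp (hS : Ideal S) {p : β → Prop} (h : Sig S p) {f : α → β} (hf : Primrec f) :
    Sig S (fun a => p (f a)) := by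
  obtain ⟨q, hq, h⟩ := h
  exact ⟨fun a n => q (f a) n, hq.comp₂ hS (hf.comp Primrec.fst) Primrec.snd, fun a => h _⟩

/-- monotone form -/
theorem Sig.exists_mono (hS : Ideal S) {p : α → Prop} (h : Sig S p) :
    ∃ q : α → ℕ → Prop, Dec S (fun x : α × ℕ => q x.1 x.2) ∧ (∀ a n m, n ≤ m → q a n → q a m) ∧
      ∀ a, p a ↔ ∃ n, q a n := by
  obtain ⟨q, hq, h⟩ := h
  refine ⟨fun a n => ∃ m < n, q a m, ?_, ?_, ?_⟩
  · exact Dec.bex hS (p := fun (x : α × ℕ) m => q x.1 m) Primrec.snd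
      (hq.comp₂ hS (Primrec.fst.comp Primrec.fst) Primrec.snd)
  · rintro a n m hnm ⟨k, hk, hk'⟩
    exact ⟨k, lt_of_lt_of_le hk hnm, hk'⟩
  · intro a
    rw [h]
    constructor
    · rintro ⟨n, hn⟩; exact ⟨n + 1, n, Nat.lt_succ_self n, hn⟩
    · rintro ⟨_, n, _, hn⟩; exact ⟨n, hn⟩

theorem Sig.ex (hS : Ideal S) {p : α → ℕ → Prop} (h : Sig S (fun x : α × ℕ => p x.1 x.2)) :
    Sig S (fun a => ∃ n, p a n) := by
  obtain ⟨q, hq, h⟩ := h
  refine ⟨fun a n => q (a, n.unpair.1) n.unpair.2, ?_, ?_⟩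
  · refine hq.comp₂ hS (f := fun x : α × ℕ => (x.1, x.2.unpair.1)) ?_ ?_
    · exact Primrec.fst.pair (Primrec.fst.comp (Primrec.unpair.comp Primrec.snd))
    · exact Primrec.snd.comp (Primrec.unpair.comp Primrec.snd)
  · intro a
    constructor
    · rintro ⟨n, hn⟩
      obtain ⟨m, hm⟩ := (h (a, n)).1 hn
      exact ⟨Nat.pair n m, by simpa using hm⟩
    · rintro ⟨n, hn⟩
      exact ⟨n.unpair.1, (h (a, n.unpair.1)).2 ⟨_, hn⟩⟩

theorem Sig.and (hS : Ideal S) {p q : α → Prop} (h : Sig S p) (h' : Sig S q) :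
    Sig S (fun a => p a ∧ q a) := by
  obtain ⟨u, hu, um, h⟩ := h.exists_mono hS
  obtain ⟨v, hv, vm, h'⟩ := h'.exists_mono hS
  refine ⟨fun a n => u a n ∧ v a n, hu.and hS hv, fun a => ?_⟩
  show (p a ∧ q a) ↔ ∃ n, (u a n ∧ v a n)
  rw [h, h']
  constructor
  · rintro ⟨⟨n, hn⟩, ⟨m, hm⟩⟩
    exact ⟨max n m, um _ _ _ (le_max_left _ _) hn, vm _ _ _ (le_max_right _ _) hm⟩
  · rintro ⟨n, hn, hm⟩
    exact ⟨⟨n, hn⟩, ⟨n, hm⟩⟩

theorem Sig.or (hS : Ideal S) {p q : α → Prop} (h : Sig S p) (h' : Sig S q) :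
    Sig S (fun a => p a ∨ q a) := by
  obtain ⟨u, hu, h⟩ := h
  obtain ⟨v, hv, h'⟩ := h'
  refine ⟨fun a n => u a n ∨ v a n, hu.or hS hv, fun a => ?_⟩
  show (p a ∨ q a) ↔ ∃ n, (u a n ∨ v a n)
  rw [h, h', exists_or]

theorem Sig.exEnc (hS : Ideal S) {p : α → β → Prop} (h : Sig S (fun x : α × β => p x.1 x.2)) :
    Sig S (fun a => ∃ b, p a b) := by
  obtain ⟨q, hq, h⟩ := h
  have h1 : Dec S (fun x : (α × ℕ) × ℕ => ∃ b ∈ (decode (α := β) x.1.2), q (x.1.1, b) x.2) := by
    obtain ⟨X, hX, hXq⟩ := hq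
    have e : Primrec (fun x : (α × ℕ) × ℕ =>
        ((decode (α := β) x.1.2).map fun b => encode (((x.1.1, b), x.2) : (α × β) × ℕ) + 1).getD 0) := by
      refine Primrec.option_getD.comp (Primrec.option_map
        (Primrec.decode.comp (Primrec.snd.comp Primrec.fst)) ?_) (Primrec.const 0)
      exact Primrec.succ.comp (Primrec.encode.comp
        (Primrec.pair (Primrec.pair (Primrec.fst.comp (Primrec.fst.comp Primrec.fst)) Primrec.snd)
          (Primrec.snd.comp Primrec.fst)))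
    have hX' : Dec S (fun n : ℕ => n ≠ 0 ∧ n - 1 ∈ X) :=
      ((Dec.eq hS Primrec.id (Primrec.const 0)).not hS).and hS (Dec.mem hS hX Primrec.pred)
    refine (hX'.comp hS e).congr ?_
    rintro ⟨⟨a, c⟩, n⟩
    rcases hd : (decode (α := β) c) with _ | b
    · simp
    · have := hXq ((a, b), n)
      simpa using this
  refine (Sig.ex hS (p := fun (a : α) c => ∃ b ∈ (decode (α := β) c), p a b) ?_).congr ?_
  · refine ⟨fun x n => ∃ b ∈ (decode (α := β) x.2), q (x.1, b) n, h1, ?_⟩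
    rintro ⟨a, c⟩
    constructor
    · rintro ⟨b, hb, hp⟩
      obtain ⟨n, hn⟩ := (h (a, b)).1 hp
      exact ⟨n, b, hb, hn⟩
    · rintro ⟨n, b, hb, hn⟩
      exact ⟨b, hb, (h (a, b)).2 ⟨n, hn⟩⟩
  · intro a
    constructor
    · rintro ⟨c, b, _, hb⟩; exact ⟨b, hb⟩
    · rintro ⟨b, hb⟩; exact ⟨encode b, b, by simp, hb⟩

/-- `Δ₁` predicates are decidable -/
theorem Dec.of_delta (hS : Ideal S) {p : α → Prop} (h : Sig S p) (h' : Sig S (fun a => ¬ p a)) :
    Dec S p := by
  obtain ⟨u, hu, h⟩ := h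
  obtain ⟨v, hv, h'⟩ := h'
  -- extend by junk values
  have mk : ∀ {w : α → ℕ → Prop} (d : Prop), Dec S (fun x : α × ℕ => w x.1 x.2) →
      {n : ℕ | (∃ a ∈ decode (α := α) n.unpair.1, w a n.unpair.2) ∨
        (decode (α := α) n.unpair.1 = none ∧ d)} ∈ S := by
    intro w d hw
    obtain ⟨X, hX, hXw⟩ := hw
    have e : Primrec (fun n : ℕ => ((decode (α := α) n.unpair.1).map
        fun a => encode ((a, n.unpair.2) : α × ℕ) + 1).getD 0) := by
      refine Primrec.option_getD.comp (Primrec.option_map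
        (Primrec.decode.comp (Primrec.fst.comp Primrec.unpair)) ?_) (Primrec.const 0)
      exact Primrec.succ.comp (Primrec.encode.comp
        (Primrec.pair Primrec.snd (Primrec.snd.comp (Primrec.unpair.comp Primrec.fst))))
    have hX' : Dec S (fun n : ℕ => (n ≠ 0 ∧ n - 1 ∈ X) ∨ (n = 0 ∧ d)) :=
      ((((Dec.eq hS Primrec.id (Primrec.const 0)).not hS)).and hS
        (Dec.mem hS hX Primrec.pred)).or hS
        ((Dec.eq hS Primrec.id (Primrec.const 0)).and hS (Dec.const hS d))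
    refine dec_set.1 ((hX'.comp hS e).congr ?_)
    intro n
    rw [Set.mem_ofPred_eq]
    rcases hd : (decode (α := α) n.unpair.1) with _ | b
    · simp
    · have := hXw (b, n.unpair.2)
      simpa using this
  have h1 := mk True hu
  have h2 := mk False hv
  refine ⟨_, hS.delta _ h1 _ h2 ?_, ?_⟩
  · intro n
    rcases hd : (decode (α := α) n) with _ | a
    · simp [hd]
    · simp only [Set.mem_ofPred_eq, Nat.unpair_pair, hd, Option.mem_def, Option.some.injEq,
        exists_eq_left', reduceCtorEq, false_and, or_false]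
      rw [← h a, ← h' a, not_not]
  · intro a
    simp only [Set.mem_ofPred_eq, Nat.unpair_pair, encodek, Option.mem_def, Option.some.injEq,
        exists_eq_left', reduceCtorEq, false_and, or_false]
    exact (h a).symm

end Pool.Agent.H654
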