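import Pool.Agent.H654.Spec

/-!
The final iteration (subtask E of helper654).
-/

namespace Pool.Agent.H654

open Encodable

theorem final {Kst : ℕ → ℕ → Prop} (hD : LemmaD Kst) (h0 : ∃ N, Good Kst N) :
    ∃ S : Set (Set ℕ), Ideal S ∧ Av Kst S ∧ ∀ X ∈ S, ∀ r : ℕ → ℕ → Prop, PO S r →
      (∃ D, Desc X r D ∧ Dec S (fun x : ℕ × ℕ => D x.1 = x.2)) ∨
      ∃ L : ℕ → ℕ → Prop, Dec S (fun x : ℕ × ℕ => L x.1 x.2) ∧ LinExt r X L ∧
        ∀ D, Desc X L D → ¬ Dec S (fun x : ℕ × ℕ => D x.1 = x.2) := by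
  obtain ⟨N0, hN0⟩ := h0
  let P := {S : Set (Set ℕ) // Good Kst S}
  let Task : P → Set (Set ℕ × Set ℕ) := fun p => p.1 ×ˢ p.1
  let rel : Set ℕ → ℕ → ℕ → Prop := fun E x y => encode ((x, y) : ℕ × ℕ) ∈ E
  let Done : Set ℕ × Set ℕ → P → Prop := fun t p =>
    PO p.1 (rel t.2) → (∃ D, Desc t.1 (rel t.2) D ∧ Dec p.1 (fun x : ℕ × ℕ => D x.1 = x.2)) ∨
      ∃ L : ℕ → ℕ → Prop, Dec p.1 (fun x : ℕ × ℕ => L x.1 x.2) ∧ LinExt (rel t.2) t.1 L ∧
        Codes Kst p.1 t.1 L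
  have hc : ∀ p, (Task p).Countable := fun p => p.2.countable.prod p.2.countable
  have hm : Monotone Task := fun p q hpq => Set.prod_mono hpq hpq
  have hstep : ∀ p, ∀ t ∈ Task p, ∃ p', p ≤ p' ∧ Done t p' := by
    rintro ⟨S, hS⟩ ⟨X, E⟩ ht
    by_cases hPO : PO S (rel E)
    · by_cases hSol : Sol Kst (rel E) S X
      · obtain ⟨N, hN, hSN, L, h1, h2, h3⟩ := hSol S hS subset_rfl
        exact ⟨⟨N, hN⟩, hSN, fun _ => Or.inr ⟨L, h1, h2, h3⟩⟩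
      · obtain ⟨N, hN, hSN, D, h1, h2⟩ := hD S hS (rel E) hPO X ht.1 hSol
        exact ⟨⟨N, hN⟩, hSN, fun _ => Or.inl ⟨D, h1, h2⟩⟩
    · exact ⟨⟨S, hS⟩, le_rfl, fun h => absurd h hPO⟩
  obtain ⟨s, -, hs, hdone⟩ := sched Task hc hm Done hstep ⟨N0, hN0⟩
  let T : ℕ → Set (Set ℕ) := fun n => (s n).1
  have hT : Monotone T := fun n m h => hs h
  have sub : ∀ n, T n ⊆ ⋃ n, T n := fun n => Set.subset_iUnion T n
  refine ⟨⋃ n, T n, ideal_iUnion (fun n => (s n).2.ideal) hT, ?_, ?_⟩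
  · intro h
    obtain ⟨n, hn⟩ := sig_iUnion h
    exact (s n).2.av hn
  · intro X hX r hr
    obtain ⟨E, hE, hEr⟩ := hr.dec
    obtain ⟨n1, hn1⟩ := Set.mem_iUnion.1 hX
    obtain ⟨n2, hn2⟩ := Set.mem_iUnion.1 hE
    have hrel : rel E = r := by
      funext x y
      exact propext (hEr (x, y))
    obtain ⟨m, hnm, hdn⟩ := hdone (max n1 n2) (X, E)
      ⟨hT (le_max_left n1 n2) hn1, hT (le_max_right n1 n2) hn2⟩
    have hPO : PO (T m) (rel E) := by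
      refine ⟨⟨E, hT ((le_max_right n1 n2).trans hnm) hn2, fun a => Iff.rfl⟩, ?_, ?_⟩
      · rw [hrel]; exact hr.irrefl
      · rw [hrel]; exact hr.trans
    rcases hdn hPO with ⟨D, h1, h2⟩ | ⟨L, h1, h2, h3⟩
    · left
      refine ⟨D, ?_, Dec.mono (sub m) h2⟩
      rw [← hrel]; exact h1
    · right
      refine ⟨L, Dec.mono (sub m) h1, ?_, ?_⟩
      · rw [← hrel]; exact h2
      · intro D hDL hdec
        obtain ⟨j, hj⟩ := dec_iUnion hdec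
        have h4 : SigO (T (max j m)) D (fun k : ℕ => ¬ KK Kst k) :=
          SigO.mono (hT (le_max_right j m)) (h3 D hDL)
        have h5 : Dec (T (max j m)) (fun x : ℕ × ℕ => D x.1 = x.2) :=
          Dec.mono (hT (le_max_left j m)) hj
        exact (s (max j m)).2.av (sig_of_sigO (s (max j m)).2.ideal h5 h4)

end Pool.Agent.H654
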