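import Pool.Agent.H654.Omega

/-!
The structure `omega S` for an ideal `S` is a model of `RCA₀`; conversions between the notions of
second-order arithmetic in `omega S` and decidability over `S`.
-/

namespace Pool.Agent.H654

open Pool.Agent.Helper617.RM Pool.Agent.Helper617.EX Encodable

/-- the value of a term, as a number -/
def amTv {S : Set (Set ℕ)} (t : Term (omega S)) (v : ℕ → ℕ) : ℕ := t.val v

/-- truth of a bounded formula, under an assignment of numbers -/
def amHv {S : Set (Set ℕ)} (θ : Delta0 (omega S)) (v : ℕ → ℕ) : Prop := θ.Holds v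

theorem amTv_prim {S : Set (Set ℕ)} {α : Type} [Primcodable α] {g : α → ℕ → ℕ}
    (hg : ∀ i, Primrec (fun a => g a i)) (t : Term (omega S)) :
    Primrec (fun a => amTv t (g a)) := by
  induction t with
  | var i => exact hg i
  | const a => exact Primrec.const (show ℕ from a)
  | zero => exact Primrec.const 0
  | one => exact Primrec.const 1
  | add s t ih1 ih2 => exact Primrec.nat_add.comp ih1 ih2
  | mul s t ih1 ih2 => exact Primrec.nat_mul.comp ih1 ih2

theorem am_prim_cons {α : Type} [Primcodable α] {g : α → ℕ → ℕ} {f : α → ℕ} (hf : Primrec f)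
    (hg : ∀ i, Primrec (fun a => g a i)) :
    ∀ i, Primrec (fun a => (cons (f a) (g a) : ℕ → ℕ) i)
  | 0 => hf
  | i + 1 => hg i

theorem amHv_dec {S : Set (Set ℕ)} (hS : Ideal S) (θ : Delta0 (omega S)) :
    ∀ {α : Type} [Primcodable α] (g : α → ℕ → ℕ), (∀ i, Primrec (fun a => g a i)) →
      Dec S (fun a => amHv θ (g a)) := by
  induction θ with
  | eq s t =>
    intro α _ g hg
    exact Dec.eq (β := ℕ) hS (amTv_prim hg s) (amTv_prim hg t)
  | lt s t =>
    intro α _ g hg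
    exact Dec.lt hS (amTv_prim hg s) (amTv_prim hg t)
  | mem t X =>
    intro α _ g hg
    exact Dec.mem hS X.2 (amTv_prim hg t)
  | neg φ ih =>
    intro α _ g hg
    exact (ih g hg).not hS
  | and φ ψ ih1 ih2 =>
    intro α _ g hg
    exact (ih1 g hg).and hS (ih2 g hg)
  | ball t φ ih =>
    intro α _ g hg
    exact Dec.ball hS (p := fun a n => amHv φ (cons n (g a))) (amTv_prim hg t)
      (ih (fun x : α × ℕ => cons x.2 (g x.1))
        (am_prim_cons Primrec.snd fun i => (hg i).comp Primrec.fst))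

theorem isModelRCA0_omega {S : Set (Set ℕ)} (hS : Ideal S) : IsModelRCA0 (omega S) where
  ax_succ_ne_zero := fun n => Nat.succ_ne_zero n
  ax_succ_inj := fun m n h => Nat.succ.inj h
  ax_add_zero := fun m => rfl
  ax_add_succ := fun m n => rfl
  ax_mul_zero := fun m => rfl
  ax_mul_succ := fun m n => rfl
  ax_not_lt_zero := fun m => Nat.not_lt_zero m
  ax_lt_succ := fun m n => Nat.lt_succ_iff_lt_or_eq
  sigma1_induction := fun θ v h0 hs n => Nat.rec h0 (fun n ih => hs n ih) n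
  delta1_comprehension := by
    intro θ ψ v h
    have hg : ∀ i, Primrec (fun x : ℕ × ℕ => (cons x.2 (cons x.1 v) : ℕ → ℕ) i) :=
      am_prim_cons Primrec.snd (am_prim_cons Primrec.fst fun i => Primrec.const (show ℕ from v i))
    have h1 : Sig S (fun n : ℕ => ∃ k : ℕ, amHv θ (cons k (cons n v))) :=
      ⟨fun (n k : ℕ) => amHv θ (cons k (cons n v)), amHv_dec hS θ _ hg, fun _ => Iff.rfl⟩
    have h2 : Sig S (fun n : ℕ => ¬ ∃ k : ℕ, amHv θ (cons k (cons n v))) := by
      refine ⟨fun (n k : ℕ) => ¬ amHv ψ (cons k (cons n v)), (amHv_dec hS ψ _ hg).not hS,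
        fun n => ?_⟩
      rw [← not_forall]
      exact not_congr (h n)
    exact dec_set.1 (Dec.of_delta hS h1 h2)

theorem am_pair_inj {x y x' y' : ℕ} (h : (x + y) * (x + y) + x = (x' + y') * (x' + y') + x') :
    x = x' ∧ y = y' := by
  have key : ∀ a b a' b' : ℕ, a + b < a' + b' →
      (a + b) * (a + b) + a < (a' + b') * (a' + b') + a' := by
    intro a b a' b' hlt
    have h1 : (a + b + 1) * (a + b + 1) ≤ (a' + b') * (a' + b') := Nat.mul_le_mul hlt hlt
    nlinarith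
  rcases lt_trichotomy (x + y) (x' + y') with h1 | h1 | h1
  · exact absurd h (key _ _ _ _ h1).ne
  · rw [h1] at h
    omega
  · exact absurd h (key _ _ _ _ h1).ne'

theorem relIn_iff {S : Set (Set ℕ)} (hS : Ideal S) (R : ℕ → ℕ → Prop) :
    RelIn (omega S) R ↔ Dec S (fun x : ℕ × ℕ => R x.1 x.2) := by
  have hp : Primrec (fun x : ℕ × ℕ => (x.1 + x.2) * (x.1 + x.2) + x.1) :=
    Primrec.nat_add.comp (Primrec.nat_mul.comp (Primrec.nat_add.comp Primrec.fst Primrec.snd)
      (Primrec.nat_add.comp Primrec.fst Primrec.snd)) Primrec.fst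
  constructor
  · intro h
    have h' : {p : ℕ | ∃ x y : ℕ, R x y ∧ p = (x + y) * (x + y) + x} ∈ S := h
    refine (Dec.mem hS h' hp).congr fun x => ?_
    constructor
    · rintro ⟨x', y', h1, h2⟩
      obtain ⟨h3, h4⟩ := am_pair_inj h2
      rw [h3, h4]
      exact h1
    · intro h1
      exact ⟨x.1, x.2, h1, rfl⟩
  · intro h
    have h1 : Dec S (fun p : ℕ => ∃ x < p + 1, ∃ y < p + 1,
        R x y ∧ p = (x + y) * (x + y) + x) := by
      refine Dec.bex hS (p := fun p x => ∃ y < p + 1, R x y ∧ p = (x + y) * (x + y) + x)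
        Primrec.succ ?_
      refine Dec.bex hS (α := ℕ × ℕ) (p := fun z y => R z.2 y ∧ z.1 = (z.2 + y) * (z.2 + y) + z.2)
        (Primrec.succ.comp Primrec.fst) ?_
      refine (h.comp₂ hS (p := R) (Primrec.snd.comp Primrec.fst) Primrec.snd).and hS ?_
      exact Dec.eq hS (Primrec.fst.comp Primrec.fst)
        (hp.comp ((Primrec.snd.comp Primrec.fst).pair Primrec.snd))
    have h2 : {p : ℕ | ∃ x y : ℕ, R x y ∧ p = (x + y) * (x + y) + x} ∈ S := by
      refine dec_set.1 (h1.congr fun p => ?_)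
      constructor
      · rintro ⟨x, _, y, _, h3⟩
        exact ⟨x, y, h3⟩
      · rintro ⟨x, y, h3, h4⟩
        refine ⟨x, ?_, y, ?_, h3, h4⟩
        · rw [h4]
          exact Nat.lt_succ_of_le (Nat.le_add_left _ _)
        · have h5 : y ≤ (x + y) * (x + y) := by nlinarith [Nat.zero_le x, Nat.zero_le y]
          omega
    exact h2

theorem funIn_iff {S : Set (Set ℕ)} (hS : Ideal S) (f : ℕ → ℕ) :
    FunIn (omega S) f ↔ Dec S (fun x : ℕ × ℕ => f x.1 = x.2) := by
  refine (relIn_iff hS (fun x y => y = f x)).trans ?_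
  constructor
  · intro h
    exact h.congr fun x => eq_comm
  · intro h
    exact h.congr fun x => eq_comm

theorem extOmegaStar_omega {S : Set (Set ℕ)} (hS : Ideal S)
    (H : ∀ X ∈ S, ∀ r : ℕ → ℕ → Prop, PO S r →
      (∃ D, Desc X r D ∧ Dec S (fun x : ℕ × ℕ => D x.1 = x.2)) ∨
      ∃ L : ℕ → ℕ → Prop, Dec S (fun x : ℕ × ℕ => L x.1 x.2) ∧ LinExt r X L ∧
        ∀ D, Desc X L D → ¬ Dec S (fun x : ℕ × ℕ => D x.1 = x.2)) :
    ExtOmegaStar (omega S) := by
  intro X hX R hR hpo hnd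
  have hR' : ∀ x y : ℕ, R x y → x ∈ X ∧ y ∈ X := fun x y h => hpo.dom x y h
  have hanti : ∀ x y : ℕ, R x y → R y x → x = y := fun x y h h' => hpo.antisymm x y h h'
  have htr : ∀ x y z : ℕ, R x y → R y z → R x z := fun x y z h h' => hpo.trans x y z h h'
  have hne : Dec S (fun x : ℕ × ℕ => x.1 = x.2) := Dec.eq hS Primrec.fst Primrec.snd
  have hpo' : PO S (fun x y : ℕ => R x y ∧ x ≠ y) := by
    refine ⟨((relIn_iff hS R).1 hR).and hS (hne.not hS), fun x h => h.2 rfl, ?_⟩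
    rintro x y z ⟨h1, h2⟩ ⟨h3, h4⟩
    refine ⟨htr _ _ _ h1 h3, fun h5 => ?_⟩
    subst h5
    exact h2 (hanti _ _ h1 h3)
  rcases H X hX _ hpo' with ⟨D, hD, hdec⟩ | ⟨L, hL, hLE, hno⟩
  · exact absurd ⟨D, (funIn_iff hS D).2 hdec, fun i => ⟨hD.1 i, hD.2 i⟩⟩ hnd
  · refine ⟨fun x y : ℕ => x ∈ X ∧ y ∈ X ∧ (x = y ∨ L x y), ?_, ⟨⟨?_, ?_, ?_, ?_⟩, ?_⟩, ?_, ?_⟩
    · refine (relIn_iff hS _).2 ?_
      exact (Dec.mem hS hX Primrec.fst).and hS ((Dec.mem hS hX Primrec.snd).and hS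
        (hne.or hS hL))
    · rintro x y ⟨h1, h2, _⟩
      exact ⟨h1, h2⟩
    · intro x hx
      exact ⟨hx, hx, Or.inl rfl⟩
    · rintro x y ⟨h1, h2, h3⟩ ⟨_, _, h4⟩
      rcases h3 with h3 | h3
      · exact h3
      · rcases h4 with h4 | h4
        · exact h4.symm
        · exact absurd (hLE.trans x h1 y h2 x h1 h3 h4) (hLE.irrefl x h1)
    · rintro x y z ⟨h1, h2, h3⟩ ⟨_, h4, h5⟩
      refine ⟨h1, h4, ?_⟩
      rcases h3 with rfl | h3
      · exact h5
      · rcases h5 with rfl | h5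
        · exact Or.inr h3
        · exact Or.inr (hLE.trans x h1 y h2 z h4 h3 h5)
    · intro x hx y hy
      by_cases hxy : x = y
      · exact Or.inl ⟨hx, hy, Or.inl hxy⟩
      · rcases hLE.total x hx y hy hxy with h1 | h1
        · exact Or.inl ⟨hx, hy, Or.inr h1⟩
        · exact Or.inr ⟨hy, hx, Or.inr h1⟩
    · intro x y hxy
      obtain ⟨hx, hy⟩ := hR' x y hxy
      by_cases h : x = y
      · exact ⟨hx, hy, Or.inl h⟩
      · exact ⟨hx, hy, Or.inr (hLE.ext x hx y hy ⟨hxy, h⟩)⟩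
    · rintro ⟨f, hf, hf'⟩
      refine hno f ⟨fun i => (hf' i).1, fun i => ?_⟩ ((funIn_iff hS f).1 hf)
      obtain ⟨_, ⟨_, _, h3⟩, h4⟩ := hf' i
      rcases h3 with h3 | h3
      · exact absurd h3 h4
      · exact h3

theorem not_arithComp_omega {Kst : ℕ → ℕ → Prop} (hK : Enum Kst) {S : Set (Set ℕ)}
    (hS : Ideal S) (ha : Av Kst S) : ¬ ArithComp (omega S) := by
  intro hAC
  have hE : {p : ℕ | ∃ s k : ℕ, Kst s k ∧ p = (s + k) * (s + k) + s} ∈ S :=
    (relIn_iff hS Kst).2 (Dec.of_prim hS hK.prim)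
  let t : Term (omega S) :=
    .add (.mul (.add (.var 0) (.var 1)) (.add (.var 0) (.var 1))) (.var 0)
  let φ : AForm (omega S) := .neg (.all (.neg (.mem t ⟨_, hE⟩)))
  have h1 : {n : ℕ | φ.Holds (cons n (fun _ => (0 : ℕ)) : ℕ → ℕ)} ∈ S :=
    hAC φ (fun _ => (0 : ℕ))
  have h2 : ∀ k : ℕ, φ.Holds (cons k (fun _ => (0 : ℕ)) : ℕ → ℕ) ↔ KK Kst k := by
    intro k
    have h3 : φ.Holds (cons k (fun _ => (0 : ℕ)) : ℕ → ℕ) ↔ ¬ ∀ s : ℕ, ¬ (∃ s' k' : ℕ, Kst s' k' ∧
        (s + k) * (s + k) + s = (s' + k') * (s' + k') + s') := Iff.rfl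
    rw [h3]
    constructor
    · intro h4
      push Not at h4
      obtain ⟨s, s', k', h5, h6⟩ := h4
      obtain ⟨h7, h8⟩ := am_pair_inj h6
      rw [← h7, ← h8] at h5
      exact ⟨s, h5⟩
    · rintro ⟨s, h5⟩ h4
      exact h4 s ⟨s, k, h5, rfl⟩
  refine ha (Dec.sig hS ((dec_set.2 (hS.compl _ h1)).congr fun k => ?_))
  exact not_congr (h2 k)

end Pool.Agent.H654
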