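import Pool.Agent.H654.Req
import Pool.Agent.H654.DecTree
import Pool.Agent.H654.Closure
import Pool.Agent.H654.Force
import Pool.Agent.H654.Assembly
import Pool.Agent.H654.Base
import Pool.Agent.H654.Iterate
import Pool.Agent.H654.Model

/-!
The main theorem: ω-models of `RCA₀ + EXT(ω*)` omitting a computably enumerable set.
-/

namespace Pool.Agent.H654

open Encodable Nat.Partrec Nat.Partrec.Code
open Pool.Agent.Helper617.RM Pool.Agent.Helper617.EX

theorem lemmaB (Kst : ℕ → ℕ → Prop) : LemmaB Kst := by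
  intro N hN r hr Q hQ V hV VQ Vd W WV VW h1 h2 A hA AQ Ad A1 A2
  have h : BH Kst r N Q V W A := ⟨hN, hr, hQ, hV, VQ, Vd, WV, VW, h1, h2, hA, AQ, Ad, A1, A2⟩
  exact assembly hr (fun S h1 h2 h3 => scott_closure h1 h2 h3) hA A2 (R1 h) (R2 h)
    (R3 h (fun S hS T hT hk => su hS hT hk) (fun p v q hv hq => dec_hTree hr hQ p hv hq))

theorem exists_model {Kst : ℕ → ℕ → Prop} (hK : Enum Kst) {S₀ : Set (Set ℕ)} (h1 : Ideal S₀)
    (h2 : S₀.Countable) (h3 : Av Kst S₀) :
    ∃ S : Set (Set ℕ), Ideal S ∧ Av Kst S ∧ IsModelRCA0 (omega S) ∧ ExtOmegaStar (omega S) := by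
  have hC : ∀ S, Ideal S → S.Countable → Av Kst S → ∃ S', Good Kst S' ∧ S ⊆ S' :=
    fun S h1 h2 h3 => scott_closure h1 h2 h3
  obtain ⟨N, hN, _⟩ := hC S₀ h1 h2 h3
  obtain ⟨S, hS, ha, H⟩ := final (lemmaD hK (lemmaB Kst) hC) ⟨N, hN⟩
  exact ⟨S, hS, ha, isModelRCA0_omega hS, extOmegaStar_omega hS H⟩

/-- a primitive recursive enumeration of a computably enumerable set -/
theorem exists_enum {E : Set ℕ} (hE : REPred (fun n => n ∈ E)) :
    ∃ Kst : ℕ → ℕ → Prop, Enum Kst ∧ ∀ k, KK Kst k ↔ k ∈ E := by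
  have h1 : Nat.Partrec (fun n => (Part.assert (n ∈ E) fun _ => Part.some ()).map encode) := by
    have := Partrec.nat_iff.1 (Partrec.map hE (Computable.encode.comp Computable.snd).to₂)
    exact this
  obtain ⟨c, hc⟩ := exists_code.1 h1
  refine ⟨fun s k => (evaln s c k).isSome = true, ⟨?_, ?_⟩, fun k => ?_⟩
  · have h : Primrec (fun x : ℕ × ℕ => (evaln x.1 c x.2).isSome) :=
      Primrec.option_isSome.comp (primrec_evaln.comp
        ((Primrec.fst.pair (Primrec.const c)).pair Primrec.snd))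
    exact Primrec.eq.comp h (Primrec.const true)
  · intro s t k hst hs
    simp only [Option.isSome_iff_exists] at *
    obtain ⟨a, ha⟩ := hs
    exact ⟨a, evaln_mono hst ha⟩
  · have : (eval c k).Dom ↔ k ∈ E := by
      rw [hc]
      simp [Part.assert]
    rw [← this, Part.dom_iff_mem]
    unfold KK
    simp only [Option.isSome_iff_exists]
    constructor
    · rintro ⟨s, a, ha⟩
      exact ⟨a, evaln_sound ha⟩
    · rintro ⟨a, ha⟩
      obtain ⟨s, hs⟩ := evaln_complete.1 ha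
      exact ⟨s, a, hs⟩

/-- noncomputable computably enumerable sets are avoided by the computable sets -/
theorem av_of_not_computable {E : Set ℕ} (hE : REPred (fun n => n ∈ E))
    (hn : ¬ ComputablePred (fun n => n ∈ E)) {Kst : ℕ → ℕ → Prop}
    (hK : ∀ k, KK Kst k ↔ k ∈ E) : Av Kst BaseB.S0 := by
  rintro ⟨q, ⟨X, hX, hXq⟩, h⟩
  obtain ⟨f, hf, e⟩ := BaseB.mem_S0.1 hX
  have h1 : REPred (fun k : ℕ => ∃ n : ℕ, f (encode ((k, n) : ℕ × ℕ)) = true) :=
    BaseB.re_ex (f := fun k n : ℕ => f (encode ((k, n) : ℕ × ℕ)))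
      (hf.comp Computable.encode)
  refine hn (ComputablePred.computable_iff_re_compl_re'.2 ⟨hE, h1.of_eq fun k => ?_⟩)
  rw [← hK]
  refine Iff.trans ?_ (h k).symm
  exact exists_congr fun n => ((e _).symm.trans (hXq (k, n)))

theorem not_mem_of_av {Kst : ℕ → ℕ → Prop} {E : Set ℕ} (hK : ∀ k, KK Kst k ↔ k ∈ E)
    {S : Set (Set ℕ)} (hS : Ideal S) (ha : Av Kst S) : E ∉ S := by
  intro hE
  exact ha ((((dec_set.2 hE).not hS).sig hS).congr fun k => not_congr (hK k).symm)

/-- There is an ω-model of `RCA₀ + EXT(ω*)` in which arithmetical comprehension fails. -/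
theorem separation :
    ∃ S : Set (Set ℕ), IsModelRCA0 (omega S) ∧ ExtOmegaStar (omega S) ∧ ¬ ArithComp (omega S) := by
  obtain ⟨Kst, hK, S₀, h1, h2, h3⟩ := exists_base
  obtain ⟨S, hS, ha, h4, h5⟩ := exists_model hK h1 h2 h3
  exact ⟨S, h4, h5, not_arithComp_omega hK hS ha⟩

/-- For every computably enumerable set there is an ω-model of `RCA₀ + EXT(ω*)` without
arithmetical comprehension which contains this set only if the set is computable. -/
theorem omitting (E : Set ℕ) (hE : REPred (fun n => n ∈ E)) :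
    ∃ S : Set (Set ℕ), IsModelRCA0 (omega S) ∧ ExtOmegaStar (omega S) ∧
      ¬ ArithComp (omega S) ∧ (E ∈ S → ComputablePred (fun n => n ∈ E)) := by
  by_cases hn : ComputablePred (fun n => n ∈ E)
  · obtain ⟨S, h1, h2, h3⟩ := separation
    exact ⟨S, h1, h2, h3, fun _ => hn⟩
  · obtain ⟨Kst, hK, hKE⟩ := exists_enum hE
    obtain ⟨S, hS, ha, h1, h2⟩ := exists_model hK BaseB.ideal_S0 BaseB.countable_S0
      (av_of_not_computable hE hn hKE)
    exact ⟨S, h1, h2, not_arithComp_omega hK hS ha, fun h => absurd h (not_mem_of_av hKE hS ha)⟩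

end Pool.Agent.H654
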