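import Pool.Graph.R_seed8.Helper617.EX.Defs
import Pool.Agent.H654.Good

/-!
The structure for second-order arithmetic with the standard natural numbers and a given
collection of sets.
-/

namespace Pool.Agent.H654

open Pool.Agent.Helper617.RM Pool.Agent.Helper617.EX

/-- The structure for second-order arithmetic whose numbers are the standard natural numbers
with their arithmetic and whose sets are the members of `S`. -/
def omega (S : Set (Set ℕ)) : L2Structure.{0} where
  M := ℕ
  zero := 0
  one := 1
  add := fun x y => x + y
  mul := fun x y => x * y
  lt := fun x y => x < y
  Sets := S

end Pool.Agent.H654
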