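import Pool.Agent.H654.Ideal

/-!
Semidecidability relative to an oracle over an ideal, and the ideal generated by an oracle.
-/

namespace Pool.Agent.H654

open Encodable

section Pfx

variable {γ : Type}

/-- the first `n` values of `G` -/
def pfx (G : ℕ → γ) (n : ℕ) : List γ := (List.range n).map G

@[simp] theorem pfx_length (G : ℕ → γ) (n : ℕ) : (pfx G n).length = n := by simp [pfx]

@[simp] theorem pfx_zero (G : ℕ → γ) : pfx G 0 = [] := by simp [pfx]

theorem pfx_getElem (G : ℕ → γ) (n i : ℕ) (h : i < (pfx G n).length) : (pfx G n)[i] = G i := by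
  simp [pfx]

theorem pfx_succ (G : ℕ → γ) (n : ℕ) : pfx G (n + 1) = pfx G n ++ [G n] := by
  simp [pfx, List.range_succ]

theorem pfx_take (G : ℕ → γ) (n m : ℕ) (h : m ≤ n) : (pfx G n).take m = pfx G m := by
  apply List.ext_getElem
  · simp [h]
  · intro i h1 h2
    simp [pfx]

theorem pfx_getI [Inhabited γ] (G : ℕ → γ) (n i : ℕ) (h : i < n) : (pfx G n).getI i = G i := by
  rw [List.getI_eq_getElem _ (by simpa using h), pfx_getElem]

theorem pfx_eq_iff {G : ℕ → γ} {n : ℕ} {l : List γ} :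
    l = pfx G n ↔ l.length = n ∧ ∀ i (h : i < l.length), l[i] = G i := by
  constructor
  · rintro rfl
    exact ⟨by simp, fun i h => pfx_getElem _ _ _ h⟩
  · rintro ⟨rfl, h⟩
    apply List.ext_getElem
    · simp
    · intro i h1 h2
      rw [h i h1, pfx_getElem]

theorem pfx_congr {G H : ℕ → γ} {n : ℕ} (h : ∀ i < n, G i = H i) : pfx G n = pfx H n := by
  apply List.ext_getElem
  · simp
  · intro i h1 h2
    rw [pfx_getElem, pfx_getElem]
    exact h i (by simpa using h1)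

theorem pfx_prefix (G : ℕ → γ) {n m : ℕ} (h : n ≤ m) : pfx G n <+: pfx G m := by
  rw [← pfx_take G m n h]
  exact List.take_prefix _ _

end Pfx

variable {α β γ : Type} [Primcodable α] [Primcodable β] [Primcodable γ]
variable {S S' : Set (Set ℕ)}

/-- semidecidable over `S` relative to the oracle `G` -/
def SigO (S : Set (Set ℕ)) (G : ℕ → γ) (p : α → Prop) : Prop :=
  ∃ q : α → List γ → Prop, Dec S (fun x : α × List γ => q x.1 x.2) ∧
    ∀ a, p a ↔ ∃ n, q a (pfx G n)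

theorem SigO.congr {G : ℕ → γ} {p q : α → Prop} (h : SigO S G p) (e : ∀ a, p a ↔ q a) :
    SigO S G q := by
  obtain ⟨X, hX, h⟩ := h
  exact ⟨X, hX, fun a => (e a).symm.trans (h a)⟩

theorem SigO.mono {G : ℕ → γ} {p : α → Prop} (hS : S ⊆ S') (h : SigO S G p) : SigO S' G p := by
  obtain ⟨X, hX, h⟩ := h
  exact ⟨X, hX.mono hS, h⟩

/-- the monotone closure of a predicate of strings -/
def monoCl (q : α → List γ → Prop) (a : α) (s : List γ) : Prop :=
  ∃ m < s.length + 1, q a (s.take m)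

theorem dec_monoCl (hS : Ideal S) {q : α → List γ → Prop}
    (hq : Dec S (fun x : α × List γ => q x.1 x.2)) :
    Dec S (fun x : α × List γ => monoCl q x.1 x.2) := by
  refine Dec.bex hS (p := fun (x : α × List γ) m => q x.1 (x.2.take m))
    (Primrec.succ.comp (Primrec.list_length.comp Primrec.snd)) ?_
  exact hq.comp₂ hS (Primrec.fst.comp Primrec.fst)
    (Primrec.list_take.comp Primrec.snd (Primrec.snd.comp Primrec.fst))

omit [Primcodable α] [Primcodable γ] in
theorem monoCl_mono {q : α → List γ → Prop} {a : α} {s t : List γ} (h : s <+: t)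
    (hq : monoCl q a s) : monoCl q a t := by
  obtain ⟨m, hm, hq⟩ := hq
  have hl := h.length_le
  refine ⟨m, by omega, ?_⟩
  obtain ⟨u, rfl⟩ := h
  rwa [List.take_append_of_le_length (by omega)]

omit [Primcodable α] [Primcodable γ] in
theorem monoCl_pfx {q : α → List γ → Prop} {a : α} {G : ℕ → γ} :
    (∃ n, monoCl q a (pfx G n)) ↔ ∃ n, q a (pfx G n) := by
  constructor
  · rintro ⟨n, m, hm, hq⟩
    rw [pfx_length] at hm
    rw [pfx_take _ _ _ (by omega)] at hq
    exact ⟨m, hq⟩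
  · rintro ⟨n, hq⟩
    refine ⟨n, n, by simp, ?_⟩
    rwa [pfx_take _ _ _ le_rfl]

theorem SigO.exists_mono (hS : Ideal S) {G : ℕ → γ} {p : α → Prop} (h : SigO S G p) :
    ∃ q : α → List γ → Prop, Dec S (fun x : α × List γ => q x.1 x.2) ∧
      (∀ a s t, s <+: t → q a s → q a t) ∧ ∀ a, p a ↔ ∃ n, q a (pfx G n) := by
  obtain ⟨q, hq, h⟩ := h
  exact ⟨monoCl q, dec_monoCl hS hq, fun a s t hst => monoCl_mono hst,
    fun a => (h a).trans monoCl_pfx.symm⟩

theorem Dec.sigO (hS : Ideal S) {G : ℕ → γ} {p : α → Prop} (h : Dec S p) : SigO S G p :=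
  ⟨fun a _ => p a, h.comp hS Primrec.fst, fun a => by simp⟩

theorem SigO.comp (hS : Ideal S) {G : ℕ → γ} {p : β → Prop} (h : SigO S G p) {f : α → β}
    (hf : Primrec f) : SigO S G (fun a => p (f a)) := by
  obtain ⟨q, hq, h⟩ := h
  exact ⟨fun a n => q (f a) n, hq.comp₂ hS (hf.comp Primrec.fst) Primrec.snd, fun a => h _⟩

theorem SigO.and (hS : Ideal S) {G : ℕ → γ} {p q : α → Prop} (h : SigO S G p)
    (h' : SigO S G q) : SigO S G (fun a => p a ∧ q a) := by
  obtain ⟨u, hu, um, h⟩ := h.exists_mono hS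
  obtain ⟨v, hv, vm, h'⟩ := h'.exists_mono hS
  refine ⟨fun a n => u a n ∧ v a n, hu.and hS hv, fun a => ?_⟩
  show (p a ∧ q a) ↔ ∃ n, (u a (pfx G n) ∧ v a (pfx G n))
  rw [h, h']
  constructor
  · rintro ⟨⟨n, hn⟩, ⟨m, hm⟩⟩
    exact ⟨max n m, um _ _ _ (pfx_prefix _ (le_max_left _ _)) hn,
      vm _ _ _ (pfx_prefix _ (le_max_right _ _)) hm⟩
  · rintro ⟨n, hn, hm⟩
    exact ⟨⟨n, hn⟩, ⟨n, hm⟩⟩

theorem SigO.or (hS : Ideal S) {G : ℕ → γ} {p q : α → Prop} (h : SigO S G p)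
    (h' : SigO S G q) : SigO S G (fun a => p a ∨ q a) := by
  obtain ⟨u, hu, h⟩ := h
  obtain ⟨v, hv, h'⟩ := h'
  refine ⟨fun a n => u a n ∨ v a n, hu.or hS hv, fun a => ?_⟩
  show (p a ∨ q a) ↔ ∃ n, (u a (pfx G n) ∨ v a (pfx G n))
  rw [h, h', exists_or]

theorem SigO.ex (hS : Ideal S) {G : ℕ → γ} {p : α → ℕ → Prop}
    (h : SigO S G (fun x : α × ℕ => p x.1 x.2)) : SigO S G (fun a => ∃ n, p a n) := by
  obtain ⟨q, hq, hm, h⟩ := h.exists_mono hS
  refine ⟨fun a s => ∃ k < s.length, q (a, k) s, ?_, fun a => ?_⟩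
  · refine Dec.bex hS (p := fun (x : α × List γ) k => q (x.1, k) x.2)
      (Primrec.list_length.comp Primrec.snd) ?_
    exact hq.comp₂ hS ((Primrec.fst.comp Primrec.fst).pair Primrec.snd)
      (Primrec.snd.comp Primrec.fst)
  · constructor
    · rintro ⟨k, hk⟩
      obtain ⟨n, hn⟩ := (h (a, k)).1 hk
      exact ⟨max n (k + 1), k, by simp, hm _ _ _ (pfx_prefix _ (le_max_left _ _)) hn⟩
    · rintro ⟨n, k, _, hk⟩
      exact ⟨k, (h (a, k)).2 ⟨n, hk⟩⟩

theorem SigO.ball (hS : Ideal S) {G : ℕ → γ} {p : α → ℕ → Prop} {b : α → ℕ} (hb : Primrec b)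
    (h : SigO S G (fun x : α × ℕ => p x.1 x.2)) : SigO S G (fun a => ∀ n < b a, p a n) := by
  obtain ⟨q, hq, hm, h⟩ := h.exists_mono hS
  refine ⟨fun a s => ∀ k < b a, q (a, k) s, ?_, fun a => ?_⟩
  · refine Dec.ball hS (p := fun (x : α × List γ) k => q (x.1, k) x.2)
      (hb.comp Primrec.fst) ?_
    exact hq.comp₂ hS ((Primrec.fst.comp Primrec.fst).pair Primrec.snd)
      (Primrec.snd.comp Primrec.fst)
  · constructor
    · intro hp
      have : ∀ N, N ≤ b a → ∃ n, ∀ k < N, q (a, k) (pfx G n) := by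
        intro N
        induction N with
        | zero => intro _; exact ⟨0, fun k hk => absurd hk (Nat.not_lt_zero k)⟩
        | succ N ih =>
          intro hN
          obtain ⟨n, hn⟩ := ih (by omega)
          obtain ⟨m, hm'⟩ := (h (a, N)).1 (hp N (by omega))
          refine ⟨max n m, fun k hk => ?_⟩
          rcases Nat.lt_succ_iff_lt_or_eq.1 hk with hk | rfl
          · exact hm _ _ _ (pfx_prefix _ (le_max_left _ _)) (hn k hk)
          · exact hm _ _ _ (pfx_prefix _ (le_max_right _ _)) hm'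
      exact this (b a) le_rfl
    · rintro ⟨n, hn⟩ k hk
      exact (h (a, k)).2 ⟨n, hn k hk⟩

theorem SigO.bex (hS : Ideal S) {G : ℕ → γ} {p : α → ℕ → Prop} {b : α → ℕ} (hb : Primrec b)
    (h : SigO S G (fun x : α × ℕ => p x.1 x.2)) : SigO S G (fun a => ∃ n < b a, p a n) :=
  SigO.ex hS (p := fun a n => n < b a ∧ p a n)
    (((Dec.lt hS Primrec.snd (hb.comp Primrec.fst)).sigO hS).and hS h)

/-- the oracle itself -/
theorem sigO_pfx (hS : Ideal S) {G : ℕ → γ} {q : α → List γ → Prop}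
    (hq : Dec S (fun x : α × List γ => q x.1 x.2)) :
    SigO S G (fun x : α × ℕ => q x.1 (pfx G x.2)) := by
  refine ⟨fun x s => s.length = x.2 ∧ q x.1 s, ?_, ?_⟩
  · refine Dec.and hS (Dec.eq hS (Primrec.list_length.comp Primrec.snd)
      (Primrec.snd.comp Primrec.fst)) ?_
    exact hq.comp₂ hS (Primrec.fst.comp Primrec.fst) Primrec.snd
  · rintro ⟨a, n⟩
    constructor
    · intro h; exact ⟨n, by simp, h⟩
    · rintro ⟨m, h1, h2⟩
      simp only [pfx_length] at h1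
      subst h1
      exact h2

/-- the ideal generated by `G` over `S` -/
def ext (S : Set (Set ℕ)) (G : ℕ → γ) : Set (Set ℕ) :=
  {Y | SigO S G (fun n : ℕ => n ∈ Y) ∧ SigO S G (fun n : ℕ => n ∉ Y)}

theorem subset_ext (hS : Ideal S) (G : ℕ → γ) : S ⊆ ext S G := fun _ hX =>
  ⟨(dec_set.2 hX).sigO hS, ((dec_set.2 hX).not hS).sigO hS⟩

theorem ideal_ext (hS : Ideal S) (G : ℕ → γ) : Ideal (ext S G) := by
  refine ⟨?_, ?_, ?_, ?_, ?_, ?_⟩
  · intro p hp
    exact subset_ext hS G (hS.prim p hp)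
  · rintro X ⟨h1, h2⟩
    exact ⟨h2.congr fun _ => Iff.rfl, h1.congr fun n => (not_not).symm⟩
  · rintro X ⟨h1, h2⟩ Y ⟨h3, h4⟩
    refine ⟨h1.and hS h3, (h2.or hS h4).congr fun n => ?_⟩
    rw [Set.mem_inter_iff]; tauto
  · rintro X ⟨h1, h2⟩ f hf
    exact ⟨h1.comp hS hf, h2.comp hS hf⟩
  · rintro X ⟨h1, h2⟩
    have hp : Primrec (fun x : ℕ × ℕ => Nat.pair x.1.unpair.1 x.2) :=
      Primrec₂.natPair.comp (Primrec.fst.comp (Primrec.unpair.comp Primrec.fst)) Primrec.snd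
    refine ⟨(SigO.ball hS (p := fun (n : ℕ) (m : ℕ) => Nat.pair n.unpair.1 m ∈ X)
      (b := fun n : ℕ => n.unpair.2)
      (Primrec.snd.comp Primrec.unpair) (h1.comp hS hp)).congr fun n => Iff.rfl, ?_⟩
    refine (SigO.bex hS (p := fun (n : ℕ) (m : ℕ) => Nat.pair n.unpair.1 m ∉ X)
      (b := fun n : ℕ => n.unpair.2)
      (Primrec.snd.comp Primrec.unpair) (h2.comp hS hp)).congr fun n => ?_
    rw [Set.mem_ofPred_eq]
    push Not
    rfl
  · rintro X ⟨h1, h2⟩ Y ⟨h3, h4⟩ hXY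
    refine ⟨SigO.ex hS (p := fun n m => Nat.pair n m ∈ X) (h1.comp hS Primrec₂.natPair), ?_⟩
    refine (SigO.ex hS (p := fun n m => Nat.pair n m ∈ Y)
      (h3.comp hS Primrec₂.natPair)).congr fun n => ?_
    rw [Set.mem_ofPred_eq, hXY, not_not]

theorem dec_ext (hS : Ideal S) {G : ℕ → γ} {p : α → Prop} (h : SigO S G p)
    (h' : SigO S G (fun a => ¬ p a)) : Dec (ext S G) p := by
  have key : ∀ {p : α → Prop}, SigO S G p →
      SigO S G (fun n : ℕ => ∃ a ∈ decode (α := α) n, p a) := by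
    intro p h
    obtain ⟨q, ⟨X, hX, hXq⟩, h⟩ := h
    have e : Primrec (fun x : ℕ × List γ => ((decode (α := α) x.1).map
        fun a => encode ((a, x.2) : α × List γ) + 1).getD 0) := by
      refine Primrec.option_getD.comp (Primrec.option_map
        (Primrec.decode.comp Primrec.fst) ?_) (Primrec.const 0)
      exact Primrec.succ.comp (Primrec.encode.comp
        (Primrec.pair Primrec.snd (Primrec.snd.comp Primrec.fst)))
    have hX' : Dec S (fun n : ℕ => n ≠ 0 ∧ n - 1 ∈ X) :=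
      (((Dec.eq hS Primrec.id (Primrec.const 0)).not hS)).and hS
        (Dec.mem hS hX Primrec.pred)
    refine ⟨fun n s => ∃ a ∈ decode (α := α) n, q a s, ?_, fun n => ?_⟩
    · refine (hX'.comp hS e).congr ?_
      rintro ⟨n, s⟩
      rcases hd : (decode (α := α) n) with _ | b
      · simp [hd]
      · have := hXq (b, s)
        simpa [hd] using this
    · constructor
      · rintro ⟨a, ha, hp⟩
        obtain ⟨n, hn⟩ := (h a).1 hp
        exact ⟨n, a, ha, hn⟩
      · rintro ⟨n, a, ha, hn⟩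
        exact ⟨a, ha, (h a).2 ⟨n, hn⟩⟩
  have hdn : Dec S (fun n : ℕ => decode (α := α) n = none) := by
    have e : Primrec (fun n : ℕ => (decode (α := α) n).isSome) :=
      Primrec.option_isSome.comp Primrec.decode
    refine (Dec.eq hS e (Primrec.const false)).congr fun n => ?_
    simp
  refine ⟨{n | ∃ a ∈ decode (α := α) n, p a}, ⟨key h, ?_⟩, fun a => by simp⟩
  refine ((key h').or hS (hdn.sigO hS)).congr fun n => ?_
  rw [Set.mem_ofPred_eq]
  rcases hd : (decode (α := α) n) with _ | b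
  · simp
  · simp

theorem sig_ext_of_sigO (hS : Ideal S) {G : ℕ → γ} {p : α → Prop} (h : SigO S G p) :
    Sig (ext S G) p := by
  obtain ⟨q, hq, h⟩ := h
  refine ⟨fun a n => q a (pfx G n), dec_ext hS (sigO_pfx hS hq)
    (sigO_pfx (q := fun a s => ¬ q a s) hS (hq.not hS)), h⟩

theorem sigO_of_dec_ext (hS : Ideal S) {G : ℕ → γ} {p : α → Prop} (h : Dec (ext S G) p) :
    SigO S G p := by
  obtain ⟨X, hX, h⟩ := h
  exact (hX.1.comp hS (f := fun a : α => encode a) Primrec.encode).congr h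

theorem sigO_of_sig_ext (hS : Ideal S) {G : ℕ → γ} {p : α → Prop} (h : Sig (ext S G) p) :
    SigO S G p := by
  obtain ⟨q, hq, h⟩ := h
  exact (SigO.ex hS (sigO_of_dec_ext hS hq)).congr fun a => (h a).symm

theorem dec_graph_ext (hS : Ideal S) [Inhabited γ] [DecidableEq γ] (G : ℕ → γ) :
    Dec (ext S G) (fun x : ℕ × γ => G x.1 = x.2) := by
  have h1 : ∀ x : ℕ × γ, G x.1 = x.2 ↔ (pfx G (x.1 + 1)).getI x.1 = x.2 := fun x => by
    rw [pfx_getI _ _ _ (Nat.lt_succ_self _)]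
  have hp : Primrec (fun x : ℕ × γ => (x, x.1 + 1)) :=
    Primrec.id.pair (Primrec.succ.comp Primrec.fst)
  have hq : Dec S (fun x : (ℕ × γ) × List γ => x.2.getI x.1.1 = x.1.2) :=
    Dec.eq hS (Primrec.list_getI.comp Primrec.snd (Primrec.fst.comp Primrec.fst))
      (Primrec.snd.comp Primrec.fst)
  refine dec_ext hS ?_ ?_
  · refine ((sigO_pfx (G := G) (q := fun (x : ℕ × γ) s => s.getI x.1 = x.2) hS hq).comp hS
      hp).congr fun x => (h1 x).symm
  · refine ((sigO_pfx (G := G) (q := fun (x : ℕ × γ) s => ¬ s.getI x.1 = x.2) hS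
      (hq.not hS)).comp hS hp).congr fun x => not_congr (h1 x).symm

theorem countable_ext (hS : S.Countable) (G : ℕ → γ) : (ext S G).Countable := by
  refine (hS.image (fun X : Set ℕ => {a : ℕ | ∃ n, encode ((a, pfx G n) : ℕ × List γ) ∈ X})).mono ?_
  rintro Y ⟨⟨q, ⟨X, hX, hXq⟩, h⟩, _⟩
  refine ⟨X, hX, ?_⟩
  ext a
  exact (exists_congr fun n => hXq (a, pfx G n)).trans (h a).symm

/-- an oracle which belongs to the ideal can be removed -/
theorem sig_of_sigO (hS : Ideal S) [Inhabited γ] [DecidableEq γ] {G : ℕ → γ}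
    (hG : Dec S (fun x : ℕ × γ => G x.1 = x.2)) {p : α → Prop} (h : SigO S G p) : Sig S p := by
  obtain ⟨q, hq, h⟩ := h
  have h1 : Dec S (fun x : α × List γ =>
      (∀ i < x.2.length, G i = x.2.getI i) ∧ q x.1 x.2) := by
    refine Dec.and hS (Dec.ball hS (p := fun (x : α × List γ) i => G i = x.2.getI i)
      (Primrec.list_length.comp Primrec.snd) ?_) hq
    exact hG.comp₂ hS (p := fun (i : ℕ) (y : γ) => G i = y) Primrec.snd
      (Primrec.list_getI.comp (Primrec.snd.comp Primrec.fst) Primrec.snd)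
  refine (Sig.exEnc hS (p := fun (a : α) (s : List γ) =>
    (∀ i < s.length, G i = s.getI i) ∧ q a s) (h1.sig hS)).congr fun a => ?_
  rw [h a]
  constructor
  · rintro ⟨s, h1, h2⟩
    refine ⟨s.length, ?_⟩
    have : s = pfx G s.length := pfx_eq_iff.2 ⟨rfl, fun i hi => by
      rw [h1 i hi, List.getI_eq_getElem _ hi]⟩
    rwa [← this]
  · rintro ⟨n, hn⟩
    refine ⟨pfx G n, fun i hi => ?_, hn⟩
    rw [pfx_getI _ _ _ (by simpa using hi)]

/-- tails of oracles -/
theorem SigO.of_tail (hS : Ideal S) {G : ℕ → γ} {N : ℕ} {p : α → Prop}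
    (h : SigO S (fun i => G (N + i)) p) : SigO S G p := by
  obtain ⟨q, hq, h⟩ := h
  have e : ∀ n, (pfx G (N + n)).drop N = pfx (fun i => G (N + i)) n := by
    intro n
    apply List.ext_getElem
    · simp
    · intro i h1 h2
      simp [pfx]
  refine ⟨fun a s => N ≤ s.length ∧ q a (s.drop N), ?_, fun a => ?_⟩
  · refine Dec.and hS (Dec.le hS (Primrec.const N) (Primrec.list_length.comp Primrec.snd)) ?_
    exact hq.comp₂ hS Primrec.fst (Primrec.list_drop.comp (Primrec.const N) Primrec.snd)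
  · rw [h a]
    constructor
    · rintro ⟨n, hn⟩
      exact ⟨N + n, by simp, by rwa [e]⟩
    · rintro ⟨n, h1, h2⟩
      rw [pfx_length] at h1
      obtain ⟨k, rfl⟩ := Nat.exists_eq_add_of_le h1
      rw [e] at h2
      exact ⟨k, h2⟩

/-! ### unions of chains -/

theorem ideal_iUnion {T : ℕ → Set (Set ℕ)} (hT : ∀ n, Ideal (T n)) (hm : Monotone T) :
    Ideal (⋃ n, T n) := by
  have sub : ∀ n, T n ⊆ ⋃ n, T n := fun n => Set.subset_iUnion T n
  refine ⟨?_, ?_, ?_, ?_, ?_, ?_⟩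
  · intro p hp
    exact sub 0 ((hT 0).prim p hp)
  · intro X hX
    obtain ⟨n, hn⟩ := Set.mem_iUnion.1 hX
    exact sub n ((hT n).compl X hn)
  · intro X hX Y hY
    obtain ⟨n, hn⟩ := Set.mem_iUnion.1 hX
    obtain ⟨m, hm'⟩ := Set.mem_iUnion.1 hY
    exact sub (max n m) ((hT _).inter X (hm (le_max_left _ _) hn) Y (hm (le_max_right _ _) hm'))
  · intro X hX f hf
    obtain ⟨n, hn⟩ := Set.mem_iUnion.1 hX
    exact sub n ((hT n).pre X hn f hf)
  · intro X hX
    obtain ⟨n, hn⟩ := Set.mem_iUnion.1 hX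
    exact sub n ((hT n).ball X hn)
  · intro X hX Y hY h
    obtain ⟨n, hn⟩ := Set.mem_iUnion.1 hX
    obtain ⟨m, hm'⟩ := Set.mem_iUnion.1 hY
    exact sub (max n m) ((hT _).delta X (hm (le_max_left _ _) hn) Y
      (hm (le_max_right _ _) hm') h)

theorem dec_iUnion {T : ℕ → Set (Set ℕ)} {p : α → Prop} (h : Dec (⋃ n, T n) p) :
    ∃ n, Dec (T n) p := by
  obtain ⟨X, hX, h⟩ := h
  obtain ⟨n, hn⟩ := Set.mem_iUnion.1 hX
  exact ⟨n, X, hn, h⟩

theorem sigO_iUnion {T : ℕ → Set (Set ℕ)} {G : ℕ → γ} {p : α → Prop}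
    (h : SigO (⋃ n, T n) G p) : ∃ n, SigO (T n) G p := by
  obtain ⟨q, hq, h⟩ := h
  obtain ⟨n, hn⟩ := dec_iUnion hq
  exact ⟨n, q, hn, h⟩

theorem sig_iUnion {T : ℕ → Set (Set ℕ)} {p : α → Prop}
    (h : Sig (⋃ n, T n) p) : ∃ n, Sig (T n) p := by
  obtain ⟨q, hq, h⟩ := h
  obtain ⟨n, hn⟩ := dec_iUnion hq
  exact ⟨n, q, hn, h⟩

end Pool.Agent.H654
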