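import Pool.Agent.H654.Steps

/-!
The main requirement of the forcing for the main lemma.
-/

namespace Pool.Agent.H654

open Encodable

variable {Kst : ℕ → ℕ → Prop} {r : ℕ → ℕ → Prop} {N : Set (Set ℕ)} {Q : Set ℕ}
  {V : ℕ → ℕ → Prop} {W : ℕ → Prop} {A : ℕ → ℕ → Prop}

theorem exists_pair_of_lt {m i : ℕ} (hi : i < m * m) : i.unpair.1 < m ∧ i.unpair.2 < m := by
  have h := Nat.max_sq_add_min_le_pair i.unpair.1 i.unpair.2
  rw [Nat.pair_unpair] at h
  have h1 : (max i.unpair.1 i.unpair.2) ^ 2 < m ^ 2 := by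
    rw [pow_two m]; omega
  have h2 : max i.unpair.1 i.unpair.2 < m := lt_of_pow_lt_pow_left₀ 2 (Nat.zero_le _) h1
  exact ⟨lt_of_le_of_lt (le_max_left _ _) h2, lt_of_le_of_lt (le_max_right _ _) h2⟩

theorem compat_unique {p : BC Kst r N Q W} {m : ℕ} {s s' : List Bool} (hs : Compat p m s)
    (hs' : s'.length = m * m) (out' : ∀ x < m, ∀ y < m, rel s' x y → x ∈ Q ∧ y ∈ Q)
    (h : ∀ x ∈ Q, x < m → ∀ y ∈ Q, y < m → (rel s' x y ↔ rel s x y)) : s' = s := by
  apply List.ext_getElem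
  · rw [hs', hs.len]
  · intro i h1 h2
    have hi : i < m * m := by rw [← hs']; exact h1
    obtain ⟨ha, hb⟩ := exists_pair_of_lt hi
    have e : rel s' i.unpair.1 i.unpair.2 ↔ rel s i.unpair.1 i.unpair.2 := by
      by_cases hQ : i.unpair.1 ∈ Q ∧ i.unpair.2 ∈ Q
      · exact h _ hQ.1 ha _ hQ.2 hb
      · exact iff_of_false (fun hh => hQ (out' _ ha _ hb hh)) (fun hh => hQ (hs.out _ ha _ hb hh))
    unfold rel at e
    rw [Nat.pair_unpair, List.getI_eq_getElem _ h1, List.getI_eq_getElem _ h2] at e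
    exact Bool.eq_iff_iff.2 e

theorem Compat.of_le {p p' : BC Kst r N Q W} (hp : p ≤ p') {m : ℕ} {s : List Bool}
    (hs : Compat p' m s) : Compat p m s :=
  ⟨hs.len, hs.out, hs.lin, fun x hx y hy hxQ hyQ hxy =>
    (hs.agree x hx y hy hxQ hyQ fun hh => hxy ⟨BC.le_O hp hh.1, BC.le_O hp hh.2⟩).trans
      (hp.2.2.2 x hxQ y hyQ hxy)⟩

theorem R3 (h : BH Kst r N Q V W A)
    (hsu : ∀ (S : Set (Set ℕ)), Good Kst S → ∀ T : ℕ × List Bool → Prop, Dec S T →
      (∀ k, KK Kst k → ∃ Z : ℕ → Bool, ∀ n, T (k, pfx Z n)) →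
      ∃ k, ¬ KK Kst k ∧ ∃ Z : ℕ → Bool, {n | Z n = true} ∈ S ∧ ∀ n, T (k, pfx Z n))
    (hdec : ∀ (p : BC Kst r N Q W) (v : ℕ × ℕ → ℕ → Prop) (q : ℕ → List Bool → Prop),
      Dec p.I (fun x : (ℕ × ℕ) × ℕ => v x.1 x.2) →
      Dec p.I (fun x : ℕ × List Bool => q x.1 x.2) → Dec p.I (HTree p v q))
    (p : BC Kst r N Q W) : ∀ X ∈ p.I, ∃ p' : BC Kst r N Q W, p ≤ p' ∧ Met X p' := by
  classical
  intro X hX
  have hI := p.good.ideal
  let q : ℕ → List Bool → Prop := monoCl (fun (k : ℕ) (s : List Bool) => encode (k, s) ∈ X)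
  have hq : Dec p.I (fun x : ℕ × List Bool => q x.1 x.2) :=
    dec_monoCl hI ⟨X, hX, fun _ => Iff.rfl⟩
  by_cases hcase : ∃ k, KK Kst k ∧ ∃ m s, Compat p m s ∧ q k s ∧
      (∀ x ∈ p.O, x < m → ∀ y ∈ p.O, y < m → rel s x y → W y → W x)
  · obtain ⟨k, hk, m, s, hs, hqs, hright⟩ := hcase
    obtain ⟨p', hp, hO, hlp⟩ := realize h m (rel s) hs.lin _ p rfl
      (fun x hx hxm y hy hym hxy => hs.agree x hxm y hym hx hy hxy) hright
    refine ⟨p', hp, Or.inl ⟨k, hk, m, fun s' hs' => ?_⟩⟩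
    have : s' = s := compat_unique hs hs'.len hs'.out fun x hx hxm y hy hym =>
      (hs'.agree x hxm y hym hx hy fun hh => hO x hx hxm hh.1).trans (hlp x hx hxm y hy hym).symm
    rw [this]
    exact hqs
  · obtain ⟨v, hv, hVv⟩ := h.hV
    obtain ⟨k, hk, Z, hZ, hT⟩ := hsu p.I p.good (HTree p v q) (hdec p v q (hv.mono p.sub) hq) (by
      intro k hk
      refine ⟨fun a => decide (a ∈ Q ∧ ¬ W a), fun n => ?_⟩
      have g : ∀ a < n, ((pfx (fun a => decide (a ∈ Q ∧ ¬ W a)) n).getI a = true ↔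
          (a ∈ Q ∧ ¬ W a)) := by
        intro a ha
        rw [pfx_getI _ _ _ ha, decide_eq_true_iff]
      refine ⟨?_, ?_, ?_, ?_⟩
      · intro a ha hZa
        rw [pfx_length] at ha
        exact ((g a ha).1 hZa).1
      · intro a ha b hb hZa hbQ hab
        rw [pfx_length] at ha hb
        obtain ⟨haQ, haW⟩ := (g a ha).1 hZa
        refine (g b hb).2 ⟨hbQ, fun hWb => haW (h.VW k a hk (h.Vd k b a (h.WV k b hWb) haQ hab))⟩
      · intro a ha t _ hvt hZa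
        rw [pfx_length] at ha
        obtain ⟨haQ, haW⟩ := (g a ha).1 hZa
        exact haW (h.VW k a hk ((hVv (k, a)).2 ⟨t, hvt⟩))
      · intro c _ s _ m hm hs hqs
        rw [pfx_length] at hm
        have hns : ¬ (∀ x ∈ p.O, x < m → ∀ y ∈ p.O, y < m → rel s x y → W y → W x) :=
          fun hr => hcase ⟨k, hk, m, s, hs, hqs, hr⟩
        push Not at hns
        obtain ⟨x, hx, hxm, y, hy, hym, hxy, hWy, hWx⟩ := hns
        refine ⟨x, hxm, y, hym, hx, hy, hxy, (g x (by omega)).2 ⟨hx.1, hWx⟩, fun hh => ?_⟩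
        exact ((g y (by omega)).1 hh).2 hWy)
    have f1 : ∀ a, Z a = true → a ∈ Q := by
      intro a ha
      refine (hT (a + 1)).1 a (by simp) ?_
      show (pfx Z (a + 1)).getI a = true
      rwa [pfx_getI _ _ _ (Nat.lt_succ_self a)]
    have f2 : ∀ a b, Z a = true → b ∈ Q → r a b → Z b = true := by
      intro a b ha hb hab
      have := (hT (max a b + 1)).2.1 a (by rw [pfx_length]; omega) b (by rw [pfx_length]; omega)
      simp only [] at this
      rw [pfx_getI Z _ _ (by omega), pfx_getI Z _ _ (by omega)] at this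
      exact this ha hb hab
    have f3 : ∀ a, V k a → ¬ Z a = true := by
      intro a ha
      obtain ⟨t, ht⟩ := (hVv (k, a)).1 ha
      have := (hT (max a t + 1)).2.2.1 a (by rw [pfx_length]; omega) t (by rw [pfx_length]; omega) ht
      simp only [] at this
      rwa [pfx_getI Z _ _ (by omega)] at this
    have f4 : ∀ m s, Compat p m s → q k s → ∃ a < m, ∃ b < m, a ∈ p.O ∧ b ∈ p.O ∧ rel s a b ∧
        Z a = true ∧ ¬ Z b = true := by
      intro m s hs hqs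
      obtain ⟨a, ha, b, hb, haO, hbO, hab, hZa, hZb⟩ :=
        (hT (max (encode s) m + 1)).2.2.2 (encode s) (by rw [pfx_length]; omega) s (by simp) m
          (by rw [pfx_length]; omega) hs hqs
      simp only [] at hZa hZb
      rw [pfx_getI Z _ _ (by omega)] at hZa hZb
      exact ⟨a, ha, b, hb, haO, hbO, hab, hZa, hZb⟩
    have t1 : {x | x ∈ p.O ∧ Z x = true} ∈ p.I :=
      dec_set.1 (((dec_set.2 (p.O_mem h.hQ)).and hI (dec_set.2 hZ)).congr fun _ => Iff.rfl)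
    have t2 : ∀ x ∈ {x | x ∈ p.O ∧ Z x = true}, ∀ y ∈ Q, r x y →
        y ∈ p.U ∨ y ∈ {x | x ∈ p.O ∧ Z x = true} := by
      rintro y ⟨hy, hyx⟩ z hz hzy
      by_cases hzU : z ∈ p.U
      · exact Or.inl hzU
      · exact Or.inr ⟨⟨hz, fun hzC => hy.2.1 (p.down z hzC y hy.1 hzy), hzU⟩, f2 y z hyx hz hzy⟩
    have t3 : ∀ x ∈ {x | x ∈ p.O ∧ Z x = true}, ¬ W x := by
      rintro y ⟨_, hyx⟩ hWy
      exact f3 y (h.WV k y hWy) hyx
    have t4 : Sol Kst r p.I {x | x ∈ p.O ∧ Z x = true} := by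
      have hm : {x | x ∈ Q ∧ ¬ Z x = true} ∈ p.I :=
        dec_set.1 (((dec_set.2 (p.sub h.hQ)).and hI ((dec_set.2 hZ).not hI)).congr
          fun _ => Iff.rfl)
      refine (h.h2 p.I p.good p.sub k hk _ hm (fun y hy => hy.1) ?_ ?_).subset ?_
      · rintro y ⟨hy, hyx⟩ z hz hzy
        exact ⟨hz, fun hZz => hyx (f2 z y hZz hy hzy)⟩
      · intro y hy
        exact ⟨h.VQ k y hy, f3 y hy⟩
      · rintro y ⟨hy, hyx⟩
        exact ⟨hy.1, fun hh => hh.2 hyx⟩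
    obtain ⟨p', hp, hC, hU⟩ := p.topStep {x | x ∈ p.O ∧ Z x = true} t1 (fun y hy => hy.1) t2 t3 t4
    refine ⟨p', hp, Or.inr ⟨k, hk, fun m s hs hqs => ?_⟩⟩
    obtain ⟨a, ha, b, hb, haO, hbO, hab, hZa, hZb⟩ := f4 m s (hs.of_le hp) hqs
    have haU : a ∈ p'.U := by rw [hU]; exact Or.inl ⟨haO, hZa⟩
    have hbC : b ∉ p'.C := by rw [hC]; exact hbO.2.1
    have hbU : b ∉ p'.U := by
      rw [hU]
      rintro (hh | hh)
      · exact hZb hh.2
      · exact hbO.2.2 hh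
    have hlp := (hs.agree a ha b hb haO.1 hbO.1 fun hh => hh.1.2.2 haU).1 hab
    rcases hlp with ⟨h1, _⟩ | ⟨h1, _⟩ | ⟨_, h1, _⟩ | ⟨_, h1, _⟩
    · exact p'.disj a h1 haU
    · exact p'.disj a h1 haU
    · exact h1 haU
    · exact hbU h1

end Pool.Agent.H654
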