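import Pool.Agent.H654.Good
import Pool.Agent.H654.Sched

/-!
The statements of the main lemmas.
-/

namespace Pool.Agent.H654

/-- The statement of the main combinatorial lemma. -/
def LemmaB (Kst : ℕ → ℕ → Prop) : Prop :=
  ∀ (N : Set (Set ℕ)) (_ : Good Kst N) (r : ℕ → ℕ → Prop) (_ : PO N r) (Q : Set ℕ) (_ : Q ∈ N)
    (V : ℕ → ℕ → Prop) (_ : Sig N (fun x : ℕ × ℕ => V x.1 x.2))
    (_ : ∀ k x, V k x → x ∈ Q) (_ : ∀ k x y, V k x → y ∈ Q → r y x → V k y)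
    (W : ℕ → Prop) (_ : ∀ k x, W x → V k x) (_ : ∀ k x, KK Kst k → V k x → W x)
    (_ : ∀ x, W x → Sol Kst r N {y | y ∈ Q ∧ r y x})
    (_ : ∀ N', Good Kst N' → N ⊆ N' → ∀ k, ¬ KK Kst k → ∀ A ∈ N', A ⊆ Q →
      (∀ x ∈ A, ∀ y ∈ Q, r y x → y ∈ A) → (∀ x, V k x → x ∈ A) → Sol Kst r N' (Q \ A))
    (A : ℕ → ℕ → Prop) (_ : Dec N (fun x : ℕ × ℕ => A x.1 x.2))
    (_ : ∀ k x, A k x → x ∈ Q) (_ : ∀ k x y, A k x → y ∈ Q → r y x → A k y)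
    (_ : ∀ k x, ¬ KK Kst k → V k x → A k x) (_ : ∀ k x, KK Kst k → A k x → W x),
    Sol Kst r N Q

/-- The statement of the forcing lemma for descending sequences. -/
def LemmaD (Kst : ℕ → ℕ → Prop) : Prop :=
  ∀ (N : Set (Set ℕ)) (_ : Good Kst N) (r : ℕ → ℕ → Prop) (_ : PO N r) (P : Set ℕ) (_ : P ∈ N),
    ¬ Sol Kst r N P → ∃ N', Good Kst N' ∧ N ⊆ N' ∧
      ∃ D : ℕ → ℕ, Desc P r D ∧ Dec N' (fun x : ℕ × ℕ => D x.1 = x.2)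

end Pool.Agent.H654
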