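import Pool.Agent.H654.Compat

/-!
The steps of the forcing for the main lemma.
-/

namespace Pool.Agent.H654

open Encodable

/-- the hypotheses of the main lemma -/
structure BH (Kst : ℕ → ℕ → Prop) (r : ℕ → ℕ → Prop) (N : Set (Set ℕ)) (Q : Set ℕ)
    (V : ℕ → ℕ → Prop) (W : ℕ → Prop) (A : ℕ → ℕ → Prop) : Prop where
  good : Good Kst N
  po : PO N r
  hQ : Q ∈ N
  hV : Sig N (fun x : ℕ × ℕ => V x.1 x.2)
  VQ : ∀ k x, V k x → x ∈ Q
  Vd : ∀ k x y, V k x → y ∈ Q → r y x → V k y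
  WV : ∀ k x, W x → V k x
  VW : ∀ k x, KK Kst k → V k x → W x
  h1 : ∀ x, W x → Sol Kst r N {y | y ∈ Q ∧ r y x}
  h2 : ∀ N', Good Kst N' → N ⊆ N' → ∀ k, ¬ KK Kst k → ∀ A ∈ N', A ⊆ Q →
      (∀ x ∈ A, ∀ y ∈ Q, r y x → y ∈ A) → (∀ x, V k x → x ∈ A) → Sol Kst r N' (Q \ A)
  hA : Dec N (fun x : ℕ × ℕ => A x.1 x.2)
  AQ : ∀ k x, A k x → x ∈ Q
  Ad : ∀ k x y, A k x → y ∈ Q → r y x → A k y
  A1 : ∀ k x, ¬ KK Kst k → V k x → A k x
  A2 : ∀ k x, KK Kst k → A k x → W x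

variable {Kst : ℕ → ℕ → Prop} {r : ℕ → ℕ → Prop} {N : Set (Set ℕ)} {Q : Set ℕ}
  {V : ℕ → ℕ → Prop} {W : ℕ → Prop} {A : ℕ → ℕ → Prop}

theorem stepW (h : BH Kst r N Q V W A) (p : BC Kst r N Q W) {x : ℕ} (hw : W x) :
    ∃ p' : BC Kst r N Q W, p ≤ p' ∧ p'.C = p.C ∪ {y | y ∈ p.O ∧ (y = x ∨ r y x)} ∧
      p'.U = p.U := by
  have hI := p.good.ideal
  have hr := h.po.dec.mono p.sub
  have hr1 : Dec p.I (fun y : ℕ => r y x) :=
    hr.comp₂ hI (p := r) Primrec.id (Primrec.const x)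
  have hr1' : Dec N (fun y : ℕ => r y x) :=
    h.po.dec.comp₂ h.good.ideal (p := r) Primrec.id (Primrec.const x)
  refine p.bottomStep _ ?_ (fun y hy => hy.1) ?_ ?_
  · exact dec_set.1 (((dec_set.2 (p.O_mem h.hQ)).and hI
      ((Dec.eq hI Primrec.id (Primrec.const x)).or hI hr1)).congr fun _ => Iff.rfl)
  · rintro y ⟨hy, hyx⟩ z hz hzy
    by_cases hzC : z ∈ p.C
    · exact Or.inl hzC
    · refine Or.inr ⟨⟨hz, hzC, fun hzU => hy.2.2 (p.up z hzU y hy.1 hzy)⟩, Or.inr ?_⟩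
      rcases hyx with rfl | hyx
      · exact hzy
      · exact h.po.trans _ _ _ hzy hyx
  · have hB : {y | y ∈ Q ∧ r y x} ∈ N :=
      dec_set.1 (((dec_set.2 h.hQ).and h.good.ideal hr1').congr fun _ => Iff.rfl)
    have := (h.h1 x hw).insert_top h.po.irrefl hB (fun hh => h.po.irrefl _ hh.2)
      (fun y hy hxy => h.po.irrefl _ (h.po.trans _ _ _ hxy hy.2))
    refine (this.mono p.sub).subset ?_
    rintro y ⟨hy, rfl | hyx⟩
    · exact Or.inr rfl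
    · exact Or.inl ⟨hy.1, hyx⟩

theorem exists_notV (h : BH Kst r N Q V W A) {x : ℕ} (hw : ¬ W x) :
    ∃ k, ¬ KK Kst k ∧ ¬ V k x := by
  by_contra hcon
  push Not at hcon
  refine h.good.av ((h.hV.comp h.good.ideal (f := fun k : ℕ => (k, x))
    (Primrec.id.pair (Primrec.const x))).congr fun k => ?_)
  exact ⟨fun hv hk => hw (h.VW k x hk hv), fun hk => hcon k hk⟩

theorem stepNW (h : BH Kst r N Q V W A) (p : BC Kst r N Q W) {x : ℕ} (hx : x ∈ Q) (hw : ¬ W x) :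
    ∃ p' : BC Kst r N Q W, p ≤ p' ∧ p'.C = p.C ∧
      p'.U = {y | y ∈ p.O ∧ (y = x ∨ r x y)} ∪ p.U := by
  have hI := p.good.ideal
  have hr := h.po.dec.mono p.sub
  have hr1 : Dec p.I (fun y : ℕ => r x y) :=
    hr.comp₂ hI (p := r) (Primrec.const x) Primrec.id
  have hr1' : Dec N (fun y : ℕ => r x y) :=
    h.po.dec.comp₂ h.good.ideal (p := r) (Primrec.const x) Primrec.id
  obtain ⟨k, hk, hkx⟩ := exists_notV h hw
  refine p.topStep _ ?_ (fun y hy => hy.1) ?_ ?_ ?_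
  · exact dec_set.1 (((dec_set.2 (p.O_mem h.hQ)).and hI
      ((Dec.eq hI Primrec.id (Primrec.const x)).or hI hr1)).congr fun _ => Iff.rfl)
  · rintro y ⟨hy, hyx⟩ z hz hzy
    by_cases hzU : z ∈ p.U
    · exact Or.inl hzU
    · refine Or.inr ⟨⟨hz, fun hzC => hy.2.1 (p.down z hzC y hy.1 hzy), hzU⟩, Or.inr ?_⟩
      rcases hyx with rfl | hyx
      · exact hzy
      · exact h.po.trans _ _ _ hyx hzy
  · rintro y ⟨hy, hyx⟩ hWy
    apply hkx
    rcases hyx with rfl | hyx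
    · exact h.WV k _ hWy
    · exact h.Vd k y x (h.WV k y hWy) hx hyx
  · have hA : {y | y ∈ Q ∧ ¬ (y = x ∨ r x y)} ∈ p.I :=
      p.sub (dec_set.1 (((dec_set.2 h.hQ).and h.good.ideal
        (((Dec.eq h.good.ideal Primrec.id (Primrec.const x)).or h.good.ideal hr1').not
          h.good.ideal)).congr fun _ => Iff.rfl))
    refine (h.h2 p.I p.good p.sub k hk _ hA (fun y hy => hy.1) ?_ ?_).subset ?_
    · rintro y ⟨hy, hyx⟩ z hz hzy
      refine ⟨hz, fun hzx => hyx (Or.inr ?_)⟩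
      rcases hzx with rfl | hzx
      · exact hzy
      · exact h.po.trans _ _ _ hzx hzy
    · intro y hy
      refine ⟨h.VQ k y hy, fun hyx => hkx ?_⟩
      rcases hyx with rfl | hyx
      · exact hy
      · exact h.Vd k y x hy hx hyx
    · rintro y ⟨hy, hyx⟩
      exact ⟨hy.1, fun hh => hh.2 hyx⟩

theorem R1 (h : BH Kst r N Q V W A) (p : BC Kst r N Q W) : ∀ x ∈ Q,
    ∃ p' : BC Kst r N Q W, p ≤ p' ∧ x ∉ p'.O := by
  intro x hxQ
  by_cases hx : x ∈ p.O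
  · by_cases hw : W x
    · obtain ⟨p', hp, hC, _⟩ := stepW h p hw
      exact ⟨p', hp, fun hh => hh.2.1 (by rw [hC]; exact Or.inr ⟨hx, Or.inl rfl⟩)⟩
    · obtain ⟨p', hp, _, hU⟩ := stepNW h p hxQ hw
      exact ⟨p', hp, fun hh => hh.2.2 (by rw [hU]; exact Or.inl ⟨hx, Or.inl rfl⟩)⟩
  · exact ⟨p, le_rfl, hx⟩

theorem R2 (h : BH Kst r N Q V W A) (p : BC Kst r N Q W) (k : ℕ) (hk : ¬ KK Kst k) :
    ∃ p' : BC Kst r N Q W, p ≤ p' ∧ ∀ x ∈ p'.O, A k x := by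
  have hI := p.good.ideal
  have hAk : Dec N (fun x : ℕ => A k x) :=
    h.hA.comp₂ h.good.ideal (p := A) (Primrec.const k) Primrec.id
  have hAm : {x | A k x} ∈ p.I := p.sub (dec_set.1 (hAk.congr fun _ => Iff.rfl))
  have t1 : {x | x ∈ p.O ∧ ¬ A k x} ∈ p.I :=
    dec_set.1 (((dec_set.2 (p.O_mem h.hQ)).and hI ((dec_set.2 hAm).not hI)).congr
      fun _ => Iff.rfl)
  have t2 : ∀ x ∈ {x | x ∈ p.O ∧ ¬ A k x}, ∀ y ∈ Q, r x y →
      y ∈ p.U ∨ y ∈ {x | x ∈ p.O ∧ ¬ A k x} := by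
    rintro y ⟨hy, hyx⟩ z hz hzy
    by_cases hzU : z ∈ p.U
    · exact Or.inl hzU
    · exact Or.inr ⟨⟨hz, fun hzC => hy.2.1 (p.down z hzC y hy.1 hzy), hzU⟩,
        fun hAz => hyx (h.Ad k z y hAz hy.1 hzy)⟩
  have t3 : ∀ x ∈ {x | x ∈ p.O ∧ ¬ A k x}, ¬ W x := by
    rintro y ⟨_, hyx⟩ hWy
    exact hyx (h.A1 k y hk (h.WV k y hWy))
  have t4 : Sol Kst r p.I {x | x ∈ p.O ∧ ¬ A k x} := by
    refine (h.h2 p.I p.good p.sub k hk _ hAm (fun y hy => h.AQ k y hy) ?_ ?_).subset ?_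
    · intro y hy z hz hzy
      exact h.Ad k y z hy hz hzy
    · intro y hy
      exact h.A1 k y hk hy
    · rintro y ⟨hy, hyx⟩
      exact ⟨hy.1, hyx⟩
  obtain ⟨p', hp, hC, hU⟩ := p.topStep {x | x ∈ p.O ∧ ¬ A k x} t1 (fun y hy => hy.1) t2 t3 t4
  refine ⟨p', hp, fun x hx => ?_⟩
  by_contra hAx
  exact hx.2.2 (by rw [hU]; exact Or.inl ⟨BC.le_O hp hx, hAx⟩)

/-! ### realizing finite orders -/

theorem exists_least {σ : ℕ → ℕ → Prop} {B : Set ℕ}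
    (ht : ∀ x ∈ B, ∀ y ∈ B, ∀ z ∈ B, σ x y → σ y z → σ x z)
    (hto : ∀ x ∈ B, ∀ y ∈ B, x ≠ y → σ x y ∨ σ y x) (F : Finset ℕ) (hF : ∀ x ∈ F, x ∈ B)
    (hne : F.Nonempty) : ∃ x ∈ F, ∀ y ∈ F, y ≠ x → σ x y := by
  induction hne using Finset.Nonempty.cons_induction with
  | singleton a =>
    exact ⟨a, Finset.mem_singleton_self a, fun y hy hne => absurd (Finset.mem_singleton.1 hy) hne⟩
  | cons a s ha hs ih =>
    obtain ⟨x, hx, hleast⟩ := ih fun y hy => hF y (Finset.mem_cons_of_mem hy)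
    have hxa : x ≠ a := fun e => ha (e ▸ hx)
    have haB := hF a (Finset.mem_cons_self a s)
    have hxB := hF x (Finset.mem_cons_of_mem hx)
    rcases hto x hxB a haB hxa with h | h
    · refine ⟨x, Finset.mem_cons_of_mem hx, fun y hy hne => ?_⟩
      rcases Finset.mem_cons.1 hy with rfl | hy
      · exact h
      · exact hleast y hy hne
    · refine ⟨a, Finset.mem_cons_self a s, fun y hy hne => ?_⟩
      rcases Finset.mem_cons.1 hy with rfl | hy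
      · exact absurd rfl hne
      · by_cases e : y = x
        · rw [e]; exact h
        · exact ht a haB x hxB y (hF y (Finset.mem_cons_of_mem hy)) h (hleast y hy e)

open Classical in
theorem realize (h : BH Kst r N Q V W A) (m : ℕ) (σ : ℕ → ℕ → Prop)
    (hσ : LinExt r {x | x ∈ Q ∧ x < m} σ) : ∀ (n : ℕ) (p : BC Kst r N Q W),
    ((Finset.range m).filter (· ∈ p.O)).card = n →
    (∀ x ∈ Q, x < m → ∀ y ∈ Q, y < m → ¬ (x ∈ p.O ∧ y ∈ p.O) → (σ x y ↔ p.lp x y)) →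
    (∀ x ∈ p.O, x < m → ∀ y ∈ p.O, y < m → σ x y → W y → W x) →
    ∃ p' : BC Kst r N Q W, p ≤ p' ∧ (∀ x ∈ Q, x < m → x ∉ p'.O) ∧
      (∀ x ∈ Q, x < m → ∀ y ∈ Q, y < m → (σ x y ↔ p'.lp x y)) := by
  intro n
  induction n using Nat.strong_induction_on with
  | _ n ih =>
  intro p hn hag hright
  by_cases hne : ((Finset.range m).filter (· ∈ p.O)).Nonempty
  swap
  · have hO : ∀ x ∈ Q, x < m → x ∉ p.O := by
      intro x _ hxm hxO
      exact hne ⟨x, Finset.mem_filter.2 ⟨Finset.mem_range.2 hxm, hxO⟩⟩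
    exact ⟨p, le_rfl, hO, fun x hx hxm y hy hym => hag x hx hxm y hy hym
      fun hh => hO x hx hxm hh.1⟩
  have hF : ∀ x ∈ (Finset.range m).filter (· ∈ p.O), x ∈ {x | x ∈ Q ∧ x < m} := by
    intro x hx
    rw [Finset.mem_filter, Finset.mem_range] at hx
    exact ⟨hx.2.1, hx.1⟩
  -- the common conclusion
  have key : ∀ (p₁ : BC Kst r N Q W) (x : ℕ), p ≤ p₁ → x ∈ p.O → x < m → x ∉ p₁.O →
      (∀ y ∈ p.O, y < m → y ≠ x → y ∈ p₁.O) →
      (∀ y ∈ p.O, y < m → y ≠ x → (σ x y ↔ p₁.lp x y) ∧ (σ y x ↔ p₁.lp y x)) →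
      ∃ p' : BC Kst r N Q W, p ≤ p' ∧ (∀ x ∈ Q, x < m → x ∉ p'.O) ∧
      (∀ x ∈ Q, x < m → ∀ y ∈ Q, y < m → (σ x y ↔ p'.lp x y)) := by
    intro p₁ x hp hxO hxm hx1 hrest hlp
    have hcard : ((Finset.range m).filter (· ∈ p₁.O)).card < n := by
      rw [← hn]
      apply Finset.card_lt_card
      rw [Finset.ssubset_iff_of_subset]
      · exact ⟨x, Finset.mem_filter.2 ⟨Finset.mem_range.2 hxm, hxO⟩,
          fun hh => hx1 (Finset.mem_filter.1 hh).2⟩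
      · intro y hy
        rw [Finset.mem_filter] at hy ⊢
        exact ⟨hy.1, BC.le_O hp hy.2⟩
    have s1 : ∀ a ∈ Q, a < m → ∀ b ∈ Q, b < m → ¬ (a ∈ p₁.O ∧ b ∈ p₁.O) →
        (σ a b ↔ p₁.lp a b) := by
      intro a ha ham b hb hbm hab
      by_cases hab' : a ∈ p.O ∧ b ∈ p.O
      · -- one of them is `x`
        by_cases eax : a = x
        · subst eax
          by_cases ebx : b = a
          · subst ebx
            have h1 : ¬ σ b b := hσ.irrefl b ⟨ha, ham⟩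
            have h2 : ¬ p₁.lp b b := by
              refine p₁.lin.irrefl b ?_
              by_contra hcon
              rw [Set.mem_union, not_or] at hcon
              exact hx1 ⟨ha, hcon.1, hcon.2⟩
            exact iff_of_false h1 h2
          · exact (hlp b hab'.2 hbm ebx).1
        · by_cases ebx : b = x
          · subst ebx
            exact (hlp a hab'.1 ham eax).2
          · exact absurd ⟨hrest a hab'.1 ham eax, hrest b hab'.2 hbm ebx⟩ hab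
      · rw [hag a ha ham b hb hbm hab', hp.2.2.2 a ha b hb hab']
    have s2 : ∀ a ∈ p₁.O, a < m → ∀ b ∈ p₁.O, b < m → σ a b → W b → W a := by
      intro a ha ham b hb hbm
      exact hright a (BC.le_O hp ha) ham b (BC.le_O hp hb) hbm
    obtain ⟨p', hp', h1, h2⟩ := ih _ hcard p₁ rfl s1 s2
    exact ⟨p', hp.trans hp', h1, h2⟩
  by_cases hex : ∃ z ∈ p.O, z < m ∧ W z
  · obtain ⟨z, hz, hzm, hWz⟩ := hex
    obtain ⟨x, hx, hleast⟩ := exists_least (σ := σ) hσ.trans hσ.total _ hF hne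
    have hxm := (hF x hx).2
    have hxO := (Finset.mem_filter.1 hx).2
    have hleast' : ∀ y ∈ p.O, y < m → y ≠ x → σ x y := fun y hy hym hne =>
      hleast y (Finset.mem_filter.2 ⟨Finset.mem_range.2 hym, hy⟩) hne
    have hWx : W x := by
      by_cases e : z = x
      · rw [← e]; exact hWz
      · exact hright x hxO hxm z hz hzm (hleast' z hz hzm e) hWz
    obtain ⟨p₁, hp, hC, hU⟩ := stepW h p hWx
    have hx1 : x ∈ p₁.C := by rw [hC]; exact Or.inr ⟨hxO, Or.inl rfl⟩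
    have hrest : ∀ y ∈ p.O, y < m → y ≠ x → y ∈ p₁.O := by
      intro y hy hym hyx
      refine ⟨hy.1, ?_, ?_⟩
      · rw [hC]
        rintro (h' | ⟨_, h' | h'⟩)
        · exact hy.2.1 h'
        · exact hyx h'
        · exact hσ.irrefl x ⟨hxO.1, hxm⟩ (hσ.trans x ⟨hxO.1, hxm⟩ y ⟨hy.1, hym⟩ x ⟨hxO.1, hxm⟩
            (hleast' y hy hym hyx) (hσ.ext y ⟨hy.1, hym⟩ x ⟨hxO.1, hxm⟩ h'))
      · rw [hU]; exact hy.2.2
    refine key p₁ x hp hxO hxm (fun hh => hh.2.1 hx1) hrest ?_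
    intro y hy hym hyx
    have hy1 := hrest y hy hym hyx
    have hs := hleast' y hy hym hyx
    refine ⟨iff_of_true hs (Or.inr (Or.inl ⟨hx1, hy1.2.1⟩)), iff_of_false ?_ ?_⟩
    · intro hs'
      exact hσ.irrefl x ⟨hxO.1, hxm⟩ (hσ.trans x ⟨hxO.1, hxm⟩ y ⟨hy.1, hym⟩ x ⟨hxO.1, hxm⟩ hs hs')
    · rintro (⟨h1, _⟩ | ⟨h1, _⟩ | ⟨_, _, h1⟩ | ⟨h1, _⟩)
      · exact hy1.2.1 h1
      · exact hy1.2.1 h1
      · exact p₁.disj x hx1 h1
      · exact hy1.2.2 h1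
  · obtain ⟨x, hx, hgr⟩ := exists_least (σ := fun a b => σ b a) (B := {x | x ∈ Q ∧ x < m})
      (fun a ha b hb c hc h1 h2 => hσ.trans c hc b hb a ha h2 h1)
      (fun a ha b hb hab => (hσ.total a ha b hb hab).symm) _ hF hne
    have hxm := (hF x hx).2
    have hxO := (Finset.mem_filter.1 hx).2
    have hgr' : ∀ y ∈ p.O, y < m → y ≠ x → σ y x := fun y hy hym hne =>
      hgr y (Finset.mem_filter.2 ⟨Finset.mem_range.2 hym, hy⟩) hne
    have hWx : ¬ W x := fun hw => hex ⟨x, hxO, hxm, hw⟩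
    obtain ⟨p₁, hp, hC, hU⟩ := stepNW h p hxO.1 hWx
    have hx1 : x ∈ p₁.U := by rw [hU]; exact Or.inl ⟨hxO, Or.inl rfl⟩
    have hrest : ∀ y ∈ p.O, y < m → y ≠ x → y ∈ p₁.O := by
      intro y hy hym hyx
      refine ⟨hy.1, ?_, ?_⟩
      · rw [hC]; exact hy.2.1
      · rw [hU]
        rintro (⟨_, h' | h'⟩ | h')
        · exact hyx h'
        · exact hσ.irrefl x ⟨hxO.1, hxm⟩ (hσ.trans x ⟨hxO.1, hxm⟩ y ⟨hy.1, hym⟩ x ⟨hxO.1, hxm⟩
            (hσ.ext x ⟨hxO.1, hxm⟩ y ⟨hy.1, hym⟩ h') (hgr' y hy hym hyx))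
        · exact hy.2.2 h'
    refine key p₁ x hp hxO hxm (fun hh => hh.2.2 hx1) hrest ?_
    intro y hy hym hyx
    have hy1 := hrest y hy hym hyx
    have hs := hgr' y hy hym hyx
    refine ⟨iff_of_false ?_ ?_, iff_of_true hs (Or.inr (Or.inr (Or.inl
      ⟨hy1.2.1, hy1.2.2, hx1⟩)))⟩
    · intro hs'
      exact hσ.irrefl x ⟨hxO.1, hxm⟩ (hσ.trans x ⟨hxO.1, hxm⟩ y ⟨hy.1, hym⟩ x ⟨hxO.1, hxm⟩ hs' hs)
    · rintro (⟨h1, _⟩ | ⟨h1, _⟩ | ⟨_, _, h1⟩ | ⟨_, h1, _⟩)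
      · exact p₁.disj x h1 hx1
      · exact p₁.disj x h1 hx1
      · exact hy1.2.2 h1
      · exact hy1.2.2 h1

end Pool.Agent.H654
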